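import Pool.Agent.W906.MU.Circ

/-! # Building circuits (helper906) -/

open scoped Classical
open Finset

namespace Pool.Agent.W906.MU

section

variable {I : Type} {inp : Set (I → ℝ)}

/-- from the functions in `A` the functions in `B` can be computed with `c` further gates -/
def Mk (inp : Set (I → ℝ)) (A B : Set (I → ℝ)) (c : ℕ) : Prop :=
  ∀ l, Prog inp l → (∀ f ∈ A, f ∈ l) → ∃ l', Prog inp l' ∧ (∀ f ∈ l, f ∈ l') ∧
    (∀ f ∈ B, f ∈ l') ∧ l'.length ≤ l.length + c

theorem Mk.trans {A B C : Set (I → ℝ)} {c d : ℕ} (h1 : Mk inp A B c) (h2 : Mk inp (A ∪ B) C d) :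
    Mk inp A (B ∪ C) (c + d) := by
  intro l hl hA
  obtain ⟨l1, g1, g2, g3, g4⟩ := h1 l hl hA
  obtain ⟨l2, k1, k2, k3, k4⟩ := h2 l1 g1 (by
    rintro f (hf | hf)
    · exact g2 f (hA f hf)
    · exact g3 f hf)
  refine ⟨l2, k1, fun f hf => k2 f (g2 f hf), ?_, by omega⟩
  rintro f (hf | hf)
  · exact k2 f (g3 f hf)
  · exact k3 f hf

theorem Mk.mono {A A' B B' : Set (I → ℝ)} {c c' : ℕ} (h : Mk inp A B c) (hA : A ⊆ A')
    (hB : B' ⊆ B) (hc : c ≤ c') : Mk inp A' B' c' := by
  intro l hl hA'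
  obtain ⟨l1, g1, g2, g3, g4⟩ := h l hl fun f hf => hA' f (hA hf)
  exact ⟨l1, g1, g2, fun f hf => g3 f (hB hf), by omega⟩

/-- compute `B`, then `C` -/
theorem Mk.comp {A B C : Set (I → ℝ)} {c d : ℕ} (h1 : Mk inp A B c) (h2 : Mk inp (A ∪ B) C d) :
    Mk inp A C (c + d) := (h1.trans h2).mono subset_rfl Set.subset_union_right le_rfl

theorem mk_finset {ι : Type} {A : Set (I → ℝ)} {B : ι → Set (I → ℝ)} {c : ℕ} (s : Finset ι)
    (h : ∀ i ∈ s, Mk inp A (B i) c) : Mk inp A {f | ∃ i ∈ s, f ∈ B i} (s.card * c) := by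
  induction s using Finset.induction_on with
  | empty =>
    intro l hl _
    exact ⟨l, hl, fun f hf => hf, by simp, by simp⟩
  | insert a s ha ih =>
    have h1 := ih fun i hi => h i (mem_insert_of_mem hi)
    have h2 := h a (mem_insert_self a s)
    have h3 := h1.trans (h2.mono (Set.subset_union_left) subset_rfl le_rfl)
    refine h3.mono subset_rfl ?_ ?_
    · rintro f ⟨i, hi, hf⟩
      rcases mem_insert.1 hi with rfl | hi
      · exact Or.inr hf
      · exact Or.inl ⟨i, hi, hf⟩
    · rw [card_insert_of_notMem ha]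
      refine le_of_eq ?_
      ring

theorem mk_fintype {ι : Type} [Fintype ι] {A : Set (I → ℝ)} {B : ι → Set (I → ℝ)} {c : ℕ}
    (h : ∀ i, Mk inp A (B i) c) : Mk inp A {f | ∃ i, f ∈ B i} (Fintype.card ι * c) := by
  refine (mk_finset univ fun i _ => h i).mono subset_rfl ?_ le_rfl
  rintro f ⟨i, hi⟩
  exact ⟨i, mem_univ _, hi⟩

theorem mk_input {f : I → ℝ} (h : f ∈ inp) (A : Set (I → ℝ)) : Mk inp A {f} 1 := by
  intro l hl _
  refine ⟨f :: l, Prog.input hl h, fun g hg => List.mem_cons_of_mem _ hg, ?_, by simp⟩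
  rintro g rfl
  simp

/-- the indicator of a property -/
noncomputable def bit (P : I → Prop) : I → ℝ := fun x => if P x then 1 else 0

theorem bit_congr {P Q : I → Prop} (h : ∀ x, P x ↔ Q x) : bit P = bit Q := by
  have : P = Q := funext fun x => propext (h x)
  rw [this]

theorem mk_or (P Q : I → Prop) : Mk inp {bit P, bit Q} {bit fun x => P x ∨ Q x} 1 := by
  intro l hl hA
  have e : (bit fun x => P x ∨ Q x) = fun x => max (bit P x) (bit Q x) := by
    funext x
    unfold bit
    by_cases h1 : P x <;> by_cases h2 : Q x <;> simp [h1, h2]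
  have hP : bit P ∈ l := hA _ (Or.inl rfl)
  have hQ : bit Q ∈ l := hA _ (Or.inr rfl)
  refine ⟨_, Prog.gate (φ := fun a b => max a b) hl (fun a a' b b' h1 h2 => max_le_max h1 h2)
    hP hQ, fun g hg => List.mem_cons_of_mem _ hg, ?_, by simp⟩
  rintro g rfl
  rw [e]
  simp

theorem mk_and (P Q : I → Prop) : Mk inp {bit P, bit Q} {bit fun x => P x ∧ Q x} 1 := by
  intro l hl hA
  have e : (bit fun x => P x ∧ Q x) = fun x => min (bit P x) (bit Q x) := by
    funext x
    unfold bit
    by_cases h1 : P x <;> by_cases h2 : Q x <;> simp [h1, h2]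
  have hP : bit P ∈ l := hA _ (Or.inl rfl)
  have hQ : bit Q ∈ l := hA _ (Or.inr rfl)
  refine ⟨_, Prog.gate (φ := fun a b => min a b) hl (fun a a' b b' h1 h2 => min_le_min h1 h2)
    hP hQ, fun g hg => List.mem_cons_of_mem _ hg, ?_, by simp⟩
  rintro g rfl
  rw [e]
  simp

theorem mk_ex {ι : Type} (s : Finset ι) (P : ι → I → Prop) :
    Mk inp {f | f = bit (fun _ => False) ∨ ∃ i ∈ s, f = bit (P i)}
      {bit fun x => ∃ i ∈ s, P i x} s.card := by
  induction s using Finset.induction_on with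
  | empty =>
    intro l hl hA
    refine ⟨l, hl, fun f hf => hf, ?_, by simp⟩
    rintro f rfl
    rw [bit_congr (Q := fun _ => False) (by simp)]
    exact hA _ (Or.inl rfl)
  | insert a s ha ih =>
    have h1 : Mk inp {f | f = bit (fun _ => False) ∨ ∃ i ∈ insert a s, f = bit (P i)}
        {bit fun x => ∃ i ∈ s, P i x} s.card := by
      refine ih.mono ?_ subset_rfl le_rfl
      rintro f (rfl | ⟨i, hi, rfl⟩)
      · exact Or.inl rfl
      · exact Or.inr ⟨i, mem_insert_of_mem hi, rfl⟩
    have h2 := h1.comp (C := {bit fun x => ∃ i ∈ insert a s, P i x}) (d := 1) (by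
      have h3 := mk_or (inp := inp) (P a) (fun x => ∃ i ∈ s, P i x)
      have e : (bit fun x => ∃ i ∈ insert a s, P i x) =
          bit fun x => P a x ∨ ∃ i ∈ s, P i x := bit_congr fun x => by simp
      rw [e]
      refine h3.mono ?_ subset_rfl le_rfl
      rintro f (rfl | rfl)
      · exact Or.inl (Or.inr ⟨a, mem_insert_self _ _, rfl⟩)
      · exact Or.inr rfl)
    rw [card_insert_of_notMem ha]
    exact h2

theorem mk_all {ι : Type} (s : Finset ι) (P : ι → I → Prop) :
    Mk inp {f | f = bit (fun _ => True) ∨ ∃ i ∈ s, f = bit (P i)}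
      {bit fun x => ∀ i ∈ s, P i x} s.card := by
  induction s using Finset.induction_on with
  | empty =>
    intro l hl hA
    refine ⟨l, hl, fun f hf => hf, ?_, by simp⟩
    rintro f rfl
    rw [bit_congr (Q := fun _ => True) (by simp)]
    exact hA _ (Or.inl rfl)
  | insert a s ha ih =>
    have h1 : Mk inp {f | f = bit (fun _ => True) ∨ ∃ i ∈ insert a s, f = bit (P i)}
        {bit fun x => ∀ i ∈ s, P i x} s.card := by
      refine ih.mono ?_ subset_rfl le_rfl
      rintro f (rfl | ⟨i, hi, rfl⟩)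
      · exact Or.inl rfl
      · exact Or.inr ⟨i, mem_insert_of_mem hi, rfl⟩
    have h2 := h1.comp (C := {bit fun x => ∀ i ∈ insert a s, P i x}) (d := 1) (by
      have h3 := mk_and (inp := inp) (P a) (fun x => ∀ i ∈ s, P i x)
      have e : (bit fun x => ∀ i ∈ insert a s, P i x) =
          bit fun x => P a x ∧ ∀ i ∈ s, P i x := bit_congr fun x => by simp
      rw [e]
      refine h3.mono ?_ subset_rfl le_rfl
      rintro f (rfl | rfl)
      · exact Or.inl (Or.inr ⟨a, mem_insert_self _ _, rfl⟩)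
      · exact Or.inr rfl)
    rw [card_insert_of_notMem ha]
    exact h2

end

end Pool.Agent.W906.MU
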