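import Pool.Agent.W906.MU.Defs
import Pool.Agent.W906.MU.Build

/-! # Satisfiability of unique games: small monotone circuits (helper906) -/

open scoped Classical
open Finset

namespace Pool.Agent.W906.MU

section

variable {N q : ℕ}

/-- labelled vertices -/
abbrev Nd (N q : ℕ) : Type := (Fin N ⊕ Fin N) × Fin q

/-- labelled vertices joined by a constraint -/
def adj (I : Game N q) (x y : Nd N q) : Prop :=
  ∃ (e : Con N q) (a : Fin q), e ∈ I ∧
    ((x = (Sum.inl e.1, a) ∧ y = (Sum.inr e.2.1, e.2.2 a)) ∨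
      (y = (Sum.inl e.1, a) ∧ x = (Sum.inr e.2.1, e.2.2 a)))

theorem adj_symm {I : Game N q} {x y : Nd N q} (h : adj I x y) : adj I y x := by
  obtain ⟨e, a, he, h⟩ := h
  exact ⟨e, a, he, h.symm⟩

/-- reachability -/
def Re (I : Game N q) (x y : Nd N q) : Prop := Relation.ReflTransGen (adj I) x y

theorem re_symm {I : Game N q} {x y : Nd N q} (h : Re I x y) : Re I y x := by
  unfold Re at h ⊢
  induction h with
  | refl => exact Relation.ReflTransGen.refl
  | tail _ h2 ih => exact Relation.ReflTransGen.head (adj_symm h2) ih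

/-- parallel steps -/
theorem adj_par {I : Game N q} {x y : Nd N q} (h : adj I x y) (a : Fin q) (ha : a ≠ x.2) :
    ∃ b, b ≠ y.2 ∧ adj I (x.1, a) (y.1, b) := by
  obtain ⟨e, c, he, ⟨rfl, rfl⟩ | ⟨rfl, rfl⟩⟩ := h
  · exact ⟨e.2.2 a, fun h => ha (e.2.2.injective h), e, a, he, Or.inl ⟨rfl, rfl⟩⟩
  · refine ⟨e.2.2.symm a, fun h => ha ?_, e, e.2.2.symm a, he, Or.inr ⟨rfl, ?_⟩⟩
    · show a = e.2.2 c
      rw [← show e.2.2.symm a = c from h, Equiv.apply_symm_apply]
    · rw [Equiv.apply_symm_apply]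

theorem re_par {I : Game N q} {x y : Nd N q} (h : Re I x y) (a : Fin q) (ha : a ≠ x.2) :
    ∃ b, b ≠ y.2 ∧ Re I (x.1, a) (y.1, b) := by
  unfold Re at h
  induction h with
  | refl => exact ⟨a, ha, Relation.ReflTransGen.refl⟩
  | tail _ h2 ih =>
    obtain ⟨b, hb, hr⟩ := ih
    obtain ⟨c, hc, hs⟩ := adj_par h2 b hb
    exact ⟨c, hc, Relation.ReflTransGen.tail hr hs⟩

theorem re_lift {I : Game N q} {x y : Nd N q} (h : Re I x y) (a : Fin q) :
    ∃ b, Re I (x.1, a) (y.1, b) := by
  by_cases ha : a = x.2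
  · subst ha
    exact ⟨y.2, h⟩
  · obtain ⟨b, -, hb⟩ := re_par h a ha
    exact ⟨b, hb⟩

/-- satisfiable games -/
def Satisfiable (I : Game N q) : Prop := ∃ f g, ∀ e ∈ I, Sat f g e

theorem sat_of (I : Game N q) (h : ∀ x : Fin N ⊕ Fin N, ∃ a : Fin q, ∀ a', a' ≠ a →
    ¬ Re I (x, a) (x, a')) : Satisfiable I := by
  choose lb hlb using h
  -- connected vertices
  let s : Setoid (Fin N ⊕ Fin N) :=
    { r := fun x y => ∃ a b, Re I (x, a) (y, b)
      iseqv :=
        { refl := fun x => ⟨lb x, lb x, Relation.ReflTransGen.refl⟩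
          symm := by
            rintro x y ⟨a, b, h⟩
            exact ⟨b, a, re_symm h⟩
          trans := by
            rintro x y z ⟨a, b, h⟩ ⟨c, d, h'⟩
            obtain ⟨d', hd'⟩ := re_lift h' b
            exact ⟨a, d', h.trans hd'⟩ } }
  let rep : Fin N ⊕ Fin N → Fin N ⊕ Fin N := fun x => (Quotient.mk s x).out
  have hrep : ∀ x, ∃ a b, Re I (rep x, a) (x, b) := fun x => by
    have h : s (rep x) x := Quotient.mk_out (s := s) x
    exact h
  have hrepe : ∀ x y, (∃ a b, Re I (x, a) (y, b)) → rep x = rep y := by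
    intro x y h
    show (Quotient.mk s x).out = (Quotient.mk s y).out
    rw [Quotient.sound (show s x y from h)]
  have hF : ∀ x, ∃ b, Re I (rep x, lb (rep x)) (x, b) := by
    intro x
    obtain ⟨a, b, h⟩ := hrep x
    obtain ⟨c, hc⟩ := re_lift h (lb (rep x))
    exact ⟨c, hc⟩
  choose F hF using hF
  have huniq : ∀ x y b b', Re I (x, lb x) (y, b) → Re I (x, lb x) (y, b') → b = b' := by
    intro x y b b' h1 h2
    by_contra hne
    obtain ⟨c, hc, h3⟩ := re_par (re_symm h1) b' (fun h => hne h.symm)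
    exact hlb x c hc (h2.trans h3)
  refine ⟨fun u => F (Sum.inl u), fun v => F (Sum.inr v), fun e he => ?_⟩
  have h1 : adj I (Sum.inl e.1, F (Sum.inl e.1)) (Sum.inr e.2.1, e.2.2 (F (Sum.inl e.1))) :=
    ⟨e, _, he, Or.inl ⟨rfl, rfl⟩⟩
  have h2 : rep (Sum.inl e.1) = rep (Sum.inr e.2.1) :=
    hrepe _ _ ⟨_, _, Relation.ReflTransGen.single h1⟩
  have h3 : Re I (rep (Sum.inl e.1), lb (rep (Sum.inl e.1)))
      (Sum.inr e.2.1, e.2.2 (F (Sum.inl e.1))) :=
    Relation.ReflTransGen.tail (hF (Sum.inl e.1)) h1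
  have h4 := hF (Sum.inr e.2.1)
  rw [← h2] at h4
  exact huniq _ _ _ _ h3 h4

theorem re_of_sat {I : Game N q} {f g : Fin N → Fin q} (h : ∀ e ∈ I, Sat f g e) {x y : Nd N q}
    (hr : Re I x y) (hx : x.2 = Sum.elim f g x.1) : y.2 = Sum.elim f g y.1 := by
  unfold Re at hr
  induction hr with
  | refl => exact hx
  | tail _ h2 ih =>
    obtain ⟨e, a, he, ⟨rfl, rfl⟩ | ⟨rfl, rfl⟩⟩ := h2
    · have := h e he
      unfold Sat at this
      simp only [Sum.elim_inl, Sum.elim_inr] at ih ⊢
      rw [ih, this]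
    · have := h e he
      unfold Sat at this
      simp only [Sum.elim_inl, Sum.elim_inr] at ih ⊢
      rw [← this] at ih
      exact e.2.2.injective ih

/-- bounded reachability -/
def R (I : Game N q) : ℕ → Nd N q → Nd N q → Prop
  | 0, x, y => x = y
  | k + 1, x, y => ∃ z, R I k x z ∧ (z = y ∨ adj I z y)

theorem R_le {I : Game N q} {k : ℕ} {x y : Nd N q} (h : R I k x y) : R I (k + 1) x y :=
  ⟨y, h, Or.inl rfl⟩

theorem re_of_R {I : Game N q} {k : ℕ} {x y : Nd N q} (h : R I k x y) : Re I x y := by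
  induction k generalizing y with
  | zero =>
    have : x = y := h
    subst this
    exact Relation.ReflTransGen.refl
  | succ k ih =>
    obtain ⟨z, h1, rfl | h2⟩ := h
    · exact ih h1
    · exact Relation.ReflTransGen.tail (ih h1) h2

theorem R_closed (I : Game N q) (x : Nd N q) (k : ℕ) :
    k + 1 ≤ (univ.filter fun y => R I k x y).card ∨ ∀ y z, R I k x y → adj I y z → R I k x z := by
  induction k with
  | zero =>
    left
    apply Finset.card_pos.2
    exact ⟨x, mem_filter.2 ⟨mem_univ _, rfl⟩⟩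
  | succ k ih =>
    by_cases hc : ∀ y z, R I k x y → adj I y z → R I k x z
    · right
      have h1 : ∀ y, R I (k + 1) x y → R I k x y := by
        rintro y ⟨z, h2, rfl | h3⟩
        · exact h2
        · exact hc _ _ h2 h3
      intro y z hy hyz
      exact R_le (hc y z (h1 y hy) hyz)
    · rcases ih with ih | ih
      · left
        push Not at hc
        obtain ⟨y, z, hy, hyz, hz⟩ := hc
        have h1 : insert z (univ.filter fun y => R I k x y) ⊆
            univ.filter fun y => R I (k + 1) x y := by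
          intro w hw
          rcases mem_insert.1 hw with rfl | hw
          · exact mem_filter.2 ⟨mem_univ _, y, hy, Or.inr hyz⟩
          · exact mem_filter.2 ⟨mem_univ _, R_le (mem_filter.1 hw).2⟩
        have h2 := card_le_card h1
        have h3 : (insert z (univ.filter fun y => R I k x y)).card =
            (univ.filter fun y => R I k x y).card + 1 :=
          card_insert_of_notMem fun h => hz (mem_filter.1 h).2
        rw [h3] at h2
        exact (Nat.succ_le_succ ih).trans h2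
      · exact absurd ih hc

theorem R_iff (I : Game N q) (x y : Nd N q) : R I (Fintype.card (Nd N q)) x y ↔ Re I x y := by
  refine ⟨re_of_R, fun h => ?_⟩
  have hcl : ∀ y z, R I (Fintype.card (Nd N q)) x y → adj I y z →
      R I (Fintype.card (Nd N q)) x z := by
    rcases R_closed I x (Fintype.card (Nd N q)) with h1 | h1
    · have h2 := card_le_univ (univ.filter fun y => R I (Fintype.card (Nd N q)) x y)
      omega
    · exact h1
  have hx : ∀ k, R I k x x := by
    intro k
    induction k with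
    | zero => rfl
    | succ k ih => exact R_le ih
  unfold Re at h
  induction h with
  | refl => exact hx _
  | tail _ h2 ih => exact hcl _ _ ih h2

/-- the condition tested by the circuit -/
def Uns (I : Game N q) : Prop := ∃ x : Fin N ⊕ Fin N, ∀ a : Fin q, ∃ a' ∈ univ.erase a,
  R I (Fintype.card (Nd N q)) (x, a) (x, a')

theorem uns_iff (I : Game N q) : Uns I ↔ ¬ Satisfiable I := by
  constructor
  · rintro ⟨x, h⟩ ⟨f, g, hfg⟩
    obtain ⟨a', ha', hr⟩ := h (Sum.elim f g x)
    rw [R_iff] at hr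
    exact (mem_erase.1 ha').1 (re_of_sat hfg hr rfl)
  · intro h
    by_contra hcon
    apply h
    apply sat_of
    intro x
    unfold Uns at hcon
    push Not at hcon
    obtain ⟨a, ha⟩ := hcon x
    refine ⟨a, fun a' ha' hr => ha a' (mem_erase.2 ⟨ha', mem_univ _⟩) ((R_iff I _ _).2 hr)⟩

/-! ### the circuit -/

/-- the constraints that join two labelled vertices -/
noncomputable def S (x y : Nd N q) : Finset (Con N q) := univ.filter fun e => ∃ a,
  ((x = (Sum.inl e.1, a) ∧ y = (Sum.inr e.2.1, e.2.2 a)) ∨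
      (y = (Sum.inl e.1, a) ∧ x = (Sum.inr e.2.1, e.2.2 a)))

theorem adj_iff (I : Game N q) (x y : Nd N q) : adj I x y ↔ ∃ e ∈ S x y, e ∈ I := by
  constructor
  · rintro ⟨e, a, he, h⟩
    exact ⟨e, mem_filter.2 ⟨mem_univ _, a, h⟩, he⟩
  · rintro ⟨e, hS, he⟩
    obtain ⟨a, h⟩ := (mem_filter.1 hS).2
    exact ⟨e, a, he, h⟩

theorem card_S (x y : Nd N q) : (S x y).card ≤ q.factorial := by
  have h1 : (S x y).card ≤ (univ : Finset (Equiv.Perm (Fin q))).card := by
    apply card_le_card_of_injOn (fun e => e.2.2) (fun e _ => mem_coe.2 (mem_univ _))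
    intro e he e' he' h
    obtain ⟨a, ha⟩ := (mem_filter.1 he).2
    obtain ⟨a', ha'⟩ := (mem_filter.1 he').2
    have h2 : e.1 = e'.1 ∧ e.2.1 = e'.2.1 := by
      rcases ha with ⟨h1, h2⟩ | ⟨h1, h2⟩ <;> rcases ha' with ⟨h3, h4⟩ | ⟨h3, h4⟩
      · rw [h1] at h3
        rw [h2] at h4
        simp only [Prod.mk.injEq, Sum.inl.injEq, Sum.inr.injEq] at h3 h4
        exact ⟨h3.1, h4.1⟩
      · rw [h1] at h4
        simp at h4
      · rw [h2] at h3
        simp at h3
      · rw [h1] at h3
        rw [h2] at h4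
        simp only [Prod.mk.injEq, Sum.inl.injEq, Sum.inr.injEq] at h3 h4
        exact ⟨h3.1, h4.1⟩
    exact Prod.ext h2.1 (Prod.ext h2.2 h)
  rw [card_univ, Fintype.card_perm, Fintype.card_fin] at h1
  exact h1

/-- constants -/
def A0 (N q : ℕ) : Set (Game N q → ℝ) := {bit fun _ => False, bit fun _ => True}

/-- the bits of the graph -/
def EB (N q : ℕ) : Set (Game N q → ℝ) :=
  {f | ∃ p : Nd N q × Nd N q, f = bit fun I => p.1 = p.2 ∨ adj I p.1 p.2}

/-- the bits of bounded reachability -/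
def RB (N q k : ℕ) : Set (Game N q → ℝ) :=
  {f | ∃ p : Nd N q × Nd N q, f = bit fun I => R I k p.1 p.2}

theorem mkA0 : Mk (inputs N q) ∅ (A0 N q) 2 := by
  have h1 : (bit fun _ : Game N q => False) ∈ inputs N q := Or.inr ⟨0, by
    funext x; simp [bit]⟩
  have h2 : (bit fun _ : Game N q => True) ∈ inputs N q := Or.inr ⟨1, by
    funext x; simp [bit]⟩
  refine ((mk_input h1 ∅).trans (mk_input h2 _)).mono subset_rfl ?_ le_rfl
  rintro f (rfl | rfl)
  · exact Or.inl rfl
  · exact Or.inr rfl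

theorem mkadj (x y : Nd N q) : Mk (inputs N q) (A0 N q) {bit fun I => adj I x y}
    (2 * q.factorial) := by
  have h1 : Mk (inputs N q) (A0 N q) {f | ∃ e ∈ S x y, f ∈ ({bit fun I => e ∈ I} :
      Set (Game N q → ℝ))} ((S x y).card * 1) := by
    apply mk_finset
    intro e _
    refine mk_input (Or.inl ⟨e, ?_⟩) _
    funext I
    by_cases h : e ∈ I <;> simp [bit, h]
  have h2 := mk_ex (inp := inputs N q) (S x y) (fun e I => e ∈ I)
  have h3 : (bit fun I : Game N q => adj I x y) = bit fun I => ∃ e ∈ S x y, e ∈ I :=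
    bit_congr fun I => adj_iff I x y
  rw [h3]
  refine (h1.comp (h2.mono ?_ subset_rfl le_rfl)).mono subset_rfl subset_rfl ?_
  · rintro f (rfl | ⟨e, he, rfl⟩)
    · exact Or.inl (Or.inl rfl)
    · exact Or.inr ⟨e, he, rfl⟩
  · have := card_S x y
    omega

theorem mkEB : Mk (inputs N q) (A0 N q) (EB N q)
    (Fintype.card (Nd N q) * Fintype.card (Nd N q) * (2 * q.factorial)) := by
  have h1 : ∀ p : Nd N q × Nd N q, Mk (inputs N q) (A0 N q)
      {bit fun I => p.1 = p.2 ∨ adj I p.1 p.2} (2 * q.factorial) := by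
    intro p
    by_cases h : p.1 = p.2
    · have e : (bit fun I : Game N q => p.1 = p.2 ∨ adj I p.1 p.2) = bit fun _ => True :=
        bit_congr fun I => by simp [h]
      rw [e]
      intro l hl hA
      refine ⟨l, hl, fun f hf => hf, ?_, by omega⟩
      rintro f rfl
      exact hA _ (Or.inr rfl)
    · have e : (bit fun I : Game N q => p.1 = p.2 ∨ adj I p.1 p.2) =
          bit fun I => adj I p.1 p.2 := bit_congr fun I => by simp [h]
      rw [e]
      exact mkadj _ _
  refine (mk_fintype h1).mono subset_rfl ?_ ?_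
  · rintro f ⟨p, rfl⟩
    exact ⟨p, rfl⟩
  · rw [Fintype.card_prod]

theorem mkRB (k : ℕ) : Mk (inputs N q) (A0 N q ∪ EB N q) (RB N q k)
    (k * (Fintype.card (Nd N q) * Fintype.card (Nd N q) * (2 * Fintype.card (Nd N q)))) := by
  induction k with
  | zero =>
    intro l hl hA
    refine ⟨l, hl, fun f hf => hf, ?_, by simp⟩
    rintro f ⟨p, rfl⟩
    by_cases h : p.1 = p.2
    · have e : (bit fun I : Game N q => R I 0 p.1 p.2) = bit fun _ => True :=
        bit_congr fun I => by simp [R, h]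
      rw [e]
      exact hA _ (Or.inl (Or.inr rfl))
    · have e : (bit fun I : Game N q => R I 0 p.1 p.2) = bit fun _ => False :=
        bit_congr fun I => by simp [R, h]
      rw [e]
      exact hA _ (Or.inl (Or.inl rfl))
  | succ k ih =>
    have h1 : ∀ p : Nd N q × Nd N q, Mk (inputs N q) ((A0 N q ∪ EB N q) ∪ RB N q k)
        {bit fun I => R I (k + 1) p.1 p.2} (2 * Fintype.card (Nd N q)) := by
      intro p
      have h2 : Mk (inputs N q) ((A0 N q ∪ EB N q) ∪ RB N q k) {f | ∃ z : Nd N q,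
          f ∈ ({bit fun I => R I k p.1 z ∧ (z = p.2 ∨ adj I z p.2)} : Set (Game N q → ℝ))}
          (Fintype.card (Nd N q) * 1) := by
        apply mk_fintype
        intro z
        refine (mk_and _ _).mono ?_ subset_rfl le_rfl
        rintro f (rfl | rfl)
        · exact Or.inr ⟨(p.1, z), rfl⟩
        · exact Or.inl (Or.inr ⟨(z, p.2), rfl⟩)
      have h3 := mk_ex (inp := inputs N q) (univ : Finset (Nd N q))
        (fun z I => R I k p.1 z ∧ (z = p.2 ∨ adj I z p.2))
      have e : (bit fun I : Game N q => R I (k + 1) p.1 p.2) = bit fun I => ∃ z ∈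
          (univ : Finset (Nd N q)), R I k p.1 z ∧ (z = p.2 ∨ adj I z p.2) :=
        bit_congr fun I => by simp [R]
      rw [e]
      refine (h2.comp (h3.mono ?_ subset_rfl le_rfl)).mono subset_rfl subset_rfl ?_
      · rintro f (rfl | ⟨z, -, rfl⟩)
        · exact Or.inl (Or.inl (Or.inl (Or.inl rfl)))
        · exact Or.inr ⟨z, rfl⟩
      · rw [card_univ]
        omega
    refine (ih.comp (mk_fintype h1)).mono subset_rfl ?_ ?_
    · rintro f ⟨p, rfl⟩
      exact ⟨p, rfl⟩
    · rw [Fintype.card_prod (Nd N q) (Nd N q)]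
      refine le_of_eq ?_
      ring

theorem mkOut : Mk (inputs N q) (A0 N q ∪ RB N q (Fintype.card (Nd N q))) {bit fun I => Uns I}
    ((N + N) * (q * q + q) + (N + N)) := by
  set v := Fintype.card (Nd N q) with hv
  have h1 : ∀ (x : Fin N ⊕ Fin N) (a : Fin q), Mk (inputs N q) (A0 N q ∪ RB N q v)
      {bit fun I => ∃ a' ∈ univ.erase a, R I v (x, a) (x, a')} q := by
    intro x a
    refine (mk_ex (inp := inputs N q) (univ.erase a) (fun a' I => R I v (x, a) (x, a'))).mono ?_
      subset_rfl ?_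
    · rintro f (rfl | ⟨a', -, rfl⟩)
      · exact Or.inl (Or.inl rfl)
      · exact Or.inr ⟨((x, a), (x, a')), rfl⟩
    · refine (card_erase_le).trans ?_
      rw [card_univ, Fintype.card_fin]
  have h2 : ∀ x : Fin N ⊕ Fin N, Mk (inputs N q) (A0 N q ∪ RB N q v)
      {bit fun I => ∀ a ∈ (univ : Finset (Fin q)), ∃ a' ∈ univ.erase a,
        R I v (x, a) (x, a')} (q * q + q) := by
    intro x
    have h3 := mk_fintype (h1 x)
    have h4 := mk_all (inp := inputs N q) (univ : Finset (Fin q))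
      (fun a I => ∃ a' ∈ univ.erase a, R I v (x, a) (x, a'))
    refine (h3.comp (h4.mono ?_ subset_rfl le_rfl)).mono subset_rfl subset_rfl ?_
    · rintro f (rfl | ⟨a, -, rfl⟩)
      · exact Or.inl (Or.inl (Or.inr rfl))
      · exact Or.inr ⟨a, rfl⟩
    · rw [card_univ, Fintype.card_fin]
  have h5 := mk_fintype h2
  have h6 := mk_ex (inp := inputs N q) (univ : Finset (Fin N ⊕ Fin N))
    (fun x I => ∀ a ∈ (univ : Finset (Fin q)), ∃ a' ∈ univ.erase a, R I v (x, a) (x, a'))
  have e : (bit fun I : Game N q => Uns I) = bit fun I => ∃ x ∈ (univ : Finset (Fin N ⊕ Fin N)),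
      ∀ a ∈ (univ : Finset (Fin q)), ∃ a' ∈ univ.erase a, R I v (x, a) (x, a') :=
    bit_congr fun I => by unfold Uns; simp [hv]
  rw [e]
  refine (h5.comp (h6.mono ?_ subset_rfl le_rfl)).mono subset_rfl subset_rfl ?_
  · rintro f (rfl | ⟨x, -, rfl⟩)
    · exact Or.inl (Or.inl (Or.inl rfl))
    · exact Or.inr ⟨x, rfl⟩
  · rw [card_univ, Fintype.card_sum, Fintype.card_fin]

/-- unsatisfiability of unique games has monotone circuits of polynomial size -/
theorem perfect (q : ℕ) : ∃ C : ℕ, ∀ N : ℕ, ∃ l : List (Game N q → ℝ), Prog (inputs N q) l ∧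
    l.length ≤ C * (N + 1) ^ 4 ∧ ∃ f ∈ l, ∀ I, (Satisfiable I → f I = 0) ∧
    (¬ Satisfiable I → f I = 1) := by
  refine ⟨2 + 8 * q ^ 2 * q.factorial + 32 * q ^ 4 + 2 * (q * q + q) + 2, fun N => ?_⟩
  have h1 := (mkA0 (N := N) (q := q)).trans ((mkEB (N := N) (q := q)).mono
    (Set.subset_union_right (s := ∅)) subset_rfl le_rfl)
  have h2 := h1.trans ((mkRB (N := N) (q := q) (Fintype.card (Nd N q))).mono
    (Set.subset_union_right (s := ∅)) subset_rfl le_rfl)
  have h3 := h2.comp ((mkOut (N := N) (q := q)).mono (A' := ∅ ∪ ((A0 N q ∪ EB N q) ∪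
    RB N q (Fintype.card (Nd N q)))) (by
      rintro f (hf | hf)
      · exact Or.inr (Or.inl (Or.inl hf))
      · exact Or.inr (Or.inr hf)) subset_rfl le_rfl)
  obtain ⟨l, g1, -, g3, g4⟩ := h3 [] Prog.nil (by simp)
  refine ⟨l, g1, ?_, _, g3 _ rfl, fun I => ⟨fun h => ?_, fun h => ?_⟩⟩
  · refine g4.trans ?_
    have hc : Fintype.card (Nd N q) = 2 * N * q := by
      rw [Fintype.card_prod, Fintype.card_sum, Fintype.card_fin, Fintype.card_fin]
      ring
    rw [hc, List.length_nil, zero_add]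
    have e2 : N ^ 2 ≤ (N + 1) ^ 4 :=
      (Nat.pow_le_pow_left (by omega) 2).trans (Nat.pow_le_pow_right (by omega) (by norm_num))
    have e4 : N ^ 4 ≤ (N + 1) ^ 4 := Nat.pow_le_pow_left (by omega) 4
    have e1 : N ≤ (N + 1) ^ 4 := (Nat.le_succ N).trans (Nat.le_self_pow (by norm_num) (N + 1))
    have e0 : 1 ≤ (N + 1) ^ 4 := Nat.one_le_pow _ _ (by omega)
    calc 2 + 2 * N * q * (2 * N * q) * (2 * q.factorial) +
          2 * N * q * (2 * N * q * (2 * N * q) * (2 * (2 * N * q))) +
          ((N + N) * (q * q + q) + (N + N))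
        = 2 * 1 + 8 * q ^ 2 * q.factorial * N ^ 2 + 32 * q ^ 4 * N ^ 4 +
          2 * (q * q + q) * N + 2 * N := by ring
      _ ≤ 2 * (N + 1) ^ 4 + 8 * q ^ 2 * q.factorial * (N + 1) ^ 4 + 32 * q ^ 4 * (N + 1) ^ 4 +
          2 * (q * q + q) * (N + 1) ^ 4 + 2 * (N + 1) ^ 4 := by gcongr
      _ = _ := by ring
  · have : ¬ Uns I := fun h' => (uns_iff I).1 h' h
    simp [bit, this]
  · have : Uns I := (uns_iff I).2 h
    simp [bit, this]

end

end Pool.Agent.W906.MU
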