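import Pool.Agent.W906.MU.Basic

/-! # The weight released when positions are pinned (helper906) -/

open scoped Classical
open Finset

namespace Pool.Agent.W906.MU

section

variable {U W Λ : Type}

/-- the share of the edge `e` at its left end -/
noncomputable def gl (P R1 : Finset (U ⊕ W)) (e : U × W × Λ) : ℕ :=
  if rgt e ∈ P then 18 else if rgt e ∈ R1 then 15 else 12

/-- the share of the edge `e` at its right end -/
noncomputable def gr (P R1 : Finset (U ⊕ W)) (e : U × W × Λ) : ℕ :=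
  if lft e ∈ P then 18 else if lft e ∈ R1 then 15 else 12

/-- the share of the edge `e` at `r` -/
noncomputable def gg (P R1 : Finset (U ⊕ W)) (r : U ⊕ W) (e : U × W × Λ) : ℕ :=
  (if lft e = r then gl P R1 e else 0) + (if rgt e = r then gr P R1 e else 0)

theorem ew_split (P R1 : Finset (U ⊕ W)) (h : Disjoint P R1) (e : U × W × Λ) :
    2 * ew P e = 2 * ew (P ∪ R1) e +
      2 * (if (lft e ∈ P ∪ R1 ∧ rgt e ∈ P ∪ R1) ∧ ¬ (lft e ∈ P ∧ rgt e ∈ P) then 1 else 0) +
      ((if lft e ∈ R1 then gl P R1 e else 0) + (if rgt e ∈ R1 then gr P R1 e else 0)) := by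
  have h1 : lft e ∈ P → lft e ∉ R1 := fun h' => disjoint_left.1 h h'
  have h2 : rgt e ∈ P → rgt e ∉ R1 := fun h' => disjoint_left.1 h h'
  unfold ew gl gr
  by_cases a : lft e ∈ P <;> by_cases b : rgt e ∈ P <;> by_cases c : lft e ∈ R1 <;>
    by_cases d : rgt e ∈ R1 <;> simp_all

theorem sum_gg (P R1 : Finset (U ⊕ W)) (Z : Finset (U × W × Λ)) :
    ∑ r ∈ R1, ∑ e ∈ Z, gg P R1 r e =
      ∑ e ∈ Z, ((if lft e ∈ R1 then gl P R1 e else 0) + (if rgt e ∈ R1 then gr P R1 e else 0)) := by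
  rw [Finset.sum_comm]
  refine Finset.sum_congr rfl fun e _ => ?_
  unfold gg
  rw [Finset.sum_add_distrib]
  congr 1
  · rw [Finset.sum_ite_eq]
  · rw [Finset.sum_ite_eq]

theorem gg_ge (P R1 : Finset (U ⊕ W)) (Z : Finset (U × W × Λ)) (V : Finset (U ⊕ W)) (r : U ⊕ W) :
    12 * (at_ Z V r).card ≤ ∑ e ∈ Z, gg P R1 r e := by
  calc 12 * (at_ Z V r).card = ∑ e ∈ at_ Z V r, 12 := by rw [sum_const, smul_eq_mul, mul_comm]
    _ ≤ ∑ e ∈ at_ Z V r, gg P R1 r e := by
        refine sum_le_sum fun e he => ?_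
        unfold gg gl gr
        rcases (mem_at.1 he).2 with h | h
        · rw [if_pos h.1]
          split_ifs <;> omega
        · rw [if_pos h.1]
          split_ifs <;> omega
    _ ≤ _ := sum_le_sum_of_subset (filter_subset _ _)

theorem gg_ge_P (P R1 : Finset (U ⊕ W)) (Z : Finset (U × W × Λ)) (r : U ⊕ W) :
    18 * (at_ Z P r).card ≤ ∑ e ∈ Z, gg P R1 r e := by
  calc 18 * (at_ Z P r).card = ∑ e ∈ at_ Z P r, 18 := by rw [sum_const, smul_eq_mul, mul_comm]
    _ ≤ ∑ e ∈ at_ Z P r, gg P R1 r e := by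
        refine sum_le_sum fun e he => ?_
        unfold gg gl gr
        rcases (mem_at.1 he).2 with h | h
        · rw [if_pos h.1, if_pos h.2]
          omega
        · rw [if_pos h.1, if_pos h.2]
          omega
    _ ≤ _ := sum_le_sum_of_subset (filter_subset _ _)

theorem gg_ge_noise (P R1 : Finset (U ⊕ W)) (Z : Finset (U × W × Λ)) (V : Finset (U ⊕ W))
    (r : U ⊕ W) (e0 : U × W × Λ) (he0 : e0 ∈ at_ Z V r) (h15 : 15 ≤ gg P R1 r e0)
    (h2 : 2 ≤ (at_ Z V r).card) : 27 ≤ ∑ e ∈ Z, gg P R1 r e := by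
  calc 27 ≤ 15 + 12 * ((at_ Z V r).erase e0).card := by
        rw [card_erase_of_mem he0]; omega
    _ ≤ gg P R1 r e0 + ∑ e ∈ (at_ Z V r).erase e0, gg P R1 r e := by
        refine add_le_add h15 ?_
        calc 12 * ((at_ Z V r).erase e0).card = ∑ e ∈ (at_ Z V r).erase e0, 12 := by
              rw [sum_const, smul_eq_mul, mul_comm]
          _ ≤ _ := by
              refine sum_le_sum fun e he => ?_
              unfold gg gl gr
              rcases (mem_at.1 (mem_of_mem_erase he)).2 with h | h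
              · rw [if_pos h.1]
                split_ifs <;> omega
              · rw [if_pos h.1]
                split_ifs <;> omega
    _ = ∑ e ∈ at_ Z V r, gg P R1 r e := add_sum_erase _ _ he0
    _ ≤ _ := sum_le_sum_of_subset (filter_subset _ _)

theorem expo_drop {Z : Finset (U × W × Λ)} {P R S : Finset (U ⊕ W)}
    {N : Finset (U × W × Λ)} (hd : CutData Z P R S N) (hPR : Disjoint P R)
    (R1 Ys : Finset (U ⊕ W)) (Yn : Finset (U × W × Λ)) (hR1 : R1 ⊆ R) (hYs : Ys ⊆ S)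
    (hYs1 : Ys ⊆ R1) (hYn : Yn ⊆ N) (hYn1 : ∀ e ∈ Yn, lft e ∈ R1 ∧ rgt e ∈ R1) :
    expo Z (P ∪ R1) + (ind Z (P ∪ R1) \ ind Z P).card + 18 * Ys.card + 27 * Yn.card
      ≤ expo Z P := by
  have hdis : Disjoint P R1 := hPR.mono_right hR1
  have hind : ind Z (P ∪ R1) \ ind Z P = Z.filter fun e =>
      (lft e ∈ P ∪ R1 ∧ rgt e ∈ P ∪ R1) ∧ ¬ (lft e ∈ P ∧ rgt e ∈ P) := by
    ext e
    rw [mem_sdiff, mem_ind, mem_ind, mem_filter]
    tauto
  have h1 : 2 * expo Z P = 2 * expo Z (P ∪ R1) + 2 * (ind Z (P ∪ R1) \ ind Z P).card +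
      ∑ r ∈ R1, ∑ e ∈ Z, gg P R1 r e := by
    rw [sum_gg, hind, card_filter]
    unfold expo
    rw [mul_sum, mul_sum, mul_sum, ← sum_add_distrib, ← sum_add_distrib]
    exact sum_congr rfl fun e _ => ew_split P R1 hdis e
  -- the shares
  have hA : ∀ r ∈ Ys, 36 ≤ ∑ e ∈ Z, gg P R1 r e := by
    intro r hr
    rcases hd.Sdeg r (hYs hr) with h | h
    · have := gg_ge P R1 Z (R ∪ P) r
      omega
    · have := gg_ge_P P R1 Z r
      omega
  have hB : ∀ e ∈ Yn, 27 ≤ ∑ f ∈ Z, gg P R1 (lft e) f := by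
    intro e he
    refine gg_ge_noise P R1 Z (R ∪ P) (lft e) e ?_ ?_ (hd.Ndeg e (hYn he)).1
    · exact mem_at.2 ⟨hd.NZ (hYn he), Or.inl ⟨rfl, mem_union_left _
        (mem_sdiff.1 (hd.NR e (hYn he)).2).1⟩⟩
    · unfold gg gl
      rw [if_pos rfl, if_pos (hYn1 e he).2]
      split_ifs <;> omega
  have hC : ∀ e ∈ Yn, 27 ≤ ∑ f ∈ Z, gg P R1 (rgt e) f := by
    intro e he
    refine gg_ge_noise P R1 Z (R ∪ P) (rgt e) e ?_ ?_ (hd.Ndeg e (hYn he)).2
    · exact mem_at.2 ⟨hd.NZ (hYn he), Or.inr ⟨rfl, mem_union_left _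
        (mem_sdiff.1 (hd.NR e (hYn he)).1).1⟩⟩
    · unfold gg gr
      rw [if_neg (lft_ne_rgt _ _), if_pos rfl, if_pos (hYn1 e he).1]
      split_ifs <;> omega
  have hYsS : ∀ e ∈ Yn, lft e ∉ Ys ∧ rgt e ∉ Ys := fun e he =>
    ⟨fun h => (mem_sdiff.1 (hd.NR e (hYn he)).1).2 (hYs h),
      fun h => (mem_sdiff.1 (hd.NR e (hYn he)).2).2 (hYs h)⟩
  have hd1 : Disjoint Ys (Yn.image lft) := by
    rw [disjoint_left]
    intro r hr hr'
    obtain ⟨e, he, rfl⟩ := mem_image.1 hr'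
    exact (hYsS e he).1 hr
  have hd2 : Disjoint (Ys ∪ Yn.image lft) (Yn.image rgt) := by
    rw [disjoint_left]
    intro r hr hr'
    obtain ⟨e, he, rfl⟩ := mem_image.1 hr'
    rcases mem_union.1 hr with h | h
    · exact (hYsS e he).2 h
    · obtain ⟨e', _, h'⟩ := mem_image.1 h
      exact lft_ne_rgt _ _ h'
  have hsub : (Ys ∪ Yn.image lft) ∪ Yn.image rgt ⊆ R1 := by
    refine union_subset (union_subset hYs1 ?_) ?_
    · intro r hr
      obtain ⟨e, he, rfl⟩ := mem_image.1 hr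
      exact (hYn1 e he).1
    · intro r hr
      obtain ⟨e, he, rfl⟩ := mem_image.1 hr
      exact (hYn1 e he).2
  have h2 : 36 * Ys.card + 27 * Yn.card + 27 * Yn.card ≤ ∑ r ∈ R1, ∑ e ∈ Z, gg P R1 r e := by
    calc 36 * Ys.card + 27 * Yn.card + 27 * Yn.card
        ≤ ∑ r ∈ Ys, ∑ e ∈ Z, gg P R1 r e + ∑ r ∈ Yn.image lft, ∑ e ∈ Z, gg P R1 r e
          + ∑ r ∈ Yn.image rgt, ∑ e ∈ Z, gg P R1 r e := by
          refine add_le_add (add_le_add ?_ ?_) ?_
          · calc 36 * Ys.card = ∑ r ∈ Ys, 36 := by rw [sum_const, smul_eq_mul, mul_comm]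
              _ ≤ _ := sum_le_sum hA
          · rw [sum_image]
            · calc 27 * Yn.card = ∑ r ∈ Yn, 27 := by rw [sum_const, smul_eq_mul, mul_comm]
                _ ≤ _ := sum_le_sum hB
            · intro e he e' he' hee
              by_contra hne
              exact (hd.mat e (hYn he) e' (hYn he') hne).1 hee
          · rw [sum_image]
            · calc 27 * Yn.card = ∑ r ∈ Yn, 27 := by rw [sum_const, smul_eq_mul, mul_comm]
                _ ≤ _ := sum_le_sum hC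
            · intro e he e' he' hee
              by_contra hne
              exact (hd.mat e (hYn he) e' (hYn he') hne).2 hee
      _ = ∑ r ∈ (Ys ∪ Yn.image lft) ∪ Yn.image rgt, ∑ e ∈ Z, gg P R1 r e := by
          rw [sum_union hd2, sum_union hd1]
      _ ≤ _ := sum_le_sum_of_subset hsub
  omega

end

end Pool.Agent.W906.MU
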