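import Mathlib

/-! # Circuits of monotone real gates (helper906) -/

open scoped Classical
open Finset

namespace Pool.Agent.W906.MU

/-- `φ` is nondecreasing in both arguments -/
def Mono2 (φ : ℝ → ℝ → ℝ) : Prop := ∀ a a' b b', a ≤ a' → b ≤ b' → φ a b ≤ φ a' b'

/-- `Prog inp l`: `l` is the list of the functions computed at the gates of a circuit (last gate
first); each gate is an input gate, that is a function from `inp`, or it applies an arbitrary
nondecreasing real function to the values of two earlier gates -/
inductive Prog {I : Type} (inp : Set (I → ℝ)) : List (I → ℝ) → Prop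
  | nil : Prog inp []
  | input {l : List (I → ℝ)} {f : I → ℝ} : Prog inp l → f ∈ inp → Prog inp (f :: l)
  | gate {l : List (I → ℝ)} {φ : ℝ → ℝ → ℝ} {f g : I → ℝ} :
      Prog inp l → Mono2 φ → f ∈ l → g ∈ l → Prog inp ((fun x => φ (f x) (g x)) :: l)

end Pool.Agent.W906.MU
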