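import Pool.Agent.W906.MU.Kraft
import Pool.Agent.W906.MU.Circ
import Pool.Agent.H630VC.Closure

/-! # Approximation of the gates of a circuit by closed level functions (helper906) -/

open scoped Classical
open Finset

namespace Pool.Agent.W906.MU

section

variable {U W Λ : Type}

theorem ksize_lt {κ κ' : Ker U W Λ} (h : κ ≤ κ') (hne : κ ≠ κ') : ksize κ < ksize κ' := by
  have h1 : κ.1 ⊆ κ'.1 := h.1
  have h2 : κ.2 ⊆ κ'.2 := h.2
  have h3 := card_le_card h1
  have h4 := card_le_card h2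
  unfold ksize
  by_contra hcon
  apply hne
  exact Prod.ext (eq_of_subset_of_card_le h1 (by omega)) (eq_of_subset_of_card_le h2 (by omega))

/-- a minimal kernel is critical -/
theorem exists_crit [Add Λ] {l : ℕ} {lam : Sta U W Λ l → ℝ} {κ : Ker U W Λ} {θ : ℝ}
    (hv : Valid κ) (h : Lev lam κ θ) :
    ∃ κ' : Ker U W Λ, κ' ≤ κ ∧ Valid κ' ∧ Lev lam κ' θ ∧ Crit lam κ' := by
  have key : ∀ (n : ℕ) (κ : Ker U W Λ), ksize κ = n → Valid κ → Lev lam κ θ →
      ∃ κ' : Ker U W Λ, κ' ≤ κ ∧ Valid κ' ∧ Lev lam κ' θ ∧ Crit lam κ' := by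
    intro n
    induction n using Nat.strong_induction_on with
    | _ n ih =>
    intro κ hn hv h
    by_cases hc : ∀ κ' : Ker U W Λ, Valid κ' → κ' ≤ κ → κ' ≠ κ → ¬ Lev lam κ' θ
    · exact ⟨κ, le_rfl, hv, h, θ, h, hc⟩
    · push Not at hc
      obtain ⟨κ1, h1, h2, h3, h4⟩ := hc
      have h5 := ksize_lt h2 h3
      obtain ⟨κ', g1, g2, g3, g4⟩ := ih (ksize κ1) (by omega) κ1 rfl h1 h4
      exact ⟨κ', g1.trans h2, g2, g3, g4⟩
  exact key _ κ rfl hv h

variable [Fintype U] [Fintype W] [Fintype Λ]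

/-- the samples of the negative tests -/
abbrev Smp (U W Λ : Type) (M Q Qs Qn : ℕ) : Type :=
  Fin M → Sm (wt (U := U) (W := W) (Λ := Λ) Q Qs Qn)

/-- a closed level function is monotone -/
theorem closedLev_mono {l M Q Qs Qn : ℕ} {lam : Sta U W Λ l → ℝ}
    (hc : ClosedLev M Q Qs Qn l lam) {β β' : Sta U W Λ l} (h : β.1 ⊆ β'.1) : lam β ≤ lam β' := by
  refine hc β' (lam β) ?_
  have h0 : (univ.filter fun ω : Fin M → Sm (wt (U := U) (W := W) (Λ := Λ) Q Qs Qn) =>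
      ¬ ∃ β1 : Sta U W Λ l, β1.1 ⊆ β'.1 ∪ marked ω ∧ lam β ≤ lam β1) = ∅ := by
    apply filter_eq_empty_iff.2
    intro ω _ h'
    exact h' ⟨β, h.trans subset_union_left, le_rfl⟩
  rw [h0]
  simp

variable {X : Type}

/-- the raw approximation property of a function with values `fp` on the positive tests and `fn` on
the negative tests -/
def Raw [Add Λ] (M Q Qs Qn k : ℕ) {l : ℕ} (tr : X → Ker U W Λ) (badP : Finset X)
    (badN : Finset (Smp U W Λ M Q Qs Qn)) (lam : Sta U W Λ l → ℝ) (fp : X → ℝ)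
    (fn : Smp U W Λ M Q Qs Qn → ℝ) : Prop :=
  (∀ x, x ∉ badP → ∃ κ : Ker U W Λ, Valid κ ∧ κ ≤ tr x ∧ ksize κ ≤ k ∧ Lev lam κ (fp x)) ∧
    ∀ ω, ω ∉ badN → ∀ β : Sta U W Λ l, β.1 ⊆ marked ω → lam β ≤ fn ω

/-- the approximation property -/
def Approx [Add Λ] (M Q Qs Qn k l : ℕ) (tr : X → Ker U W Λ) (badP : Finset X)
    (badN : Finset (Smp U W Λ M Q Qs Qn)) (fp : X → ℝ) (fn : Smp U W Λ M Q Qs Qn → ℝ) : Prop :=
  ∃ lam : Sta U W Λ l → ℝ, ClosedLev M Q Qs Qn l lam ∧ Raw M Q Qs Qn k tr badP badN lam fp fn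

theorem raw_mono [Add Λ] {M Q Qs Qn k l : ℕ} {tr : X → Ker U W Λ} {badP badP' : Finset X}
    {badN badN' : Finset (Smp U W Λ M Q Qs Qn)} {lam : Sta U W Λ l → ℝ} {fp : X → ℝ}
    {fn : Smp U W Λ M Q Qs Qn → ℝ} (h : Raw M Q Qs Qn k tr badP badN lam fp fn)
    (hP : badP ⊆ badP') (hN : badN ⊆ badN') : Raw M Q Qs Qn k tr badP' badN' lam fp fn :=
  ⟨fun x hx => h.1 x fun h' => hx (hP h'), fun ω hω => h.2 ω fun h' => hω (hN h')⟩

theorem approx_mono [Add Λ] {M Q Qs Qn k l : ℕ} {tr : X → Ker U W Λ} {badP badP' : Finset X}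
    {badN badN' : Finset (Smp U W Λ M Q Qs Qn)} {fp : X → ℝ}
    {fn : Smp U W Λ M Q Qs Qn → ℝ} (h : Approx M Q Qs Qn k l tr badP badN fp fn)
    (hP : badP ⊆ badP') (hN : badN ⊆ badN') : Approx M Q Qs Qn k l tr badP' badN' fp fn := by
  obtain ⟨lam, h1, h2⟩ := h
  exact ⟨lam, h1, raw_mono h2 hP hN⟩

variable [Fintype X]

/-- Kraft's inequality for the critical kernels -/
def KR (U W Λ : Type) [Fintype U] [Fintype W] [Fintype Λ] [Add Λ] (M Q Qs Qn l : ℕ)
    (Av B : ℝ) : Prop :=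
  ∀ lam : Sta U W Λ l → ℝ, ClosedLev M Q Qs Qn l lam → ∀ (v : ℕ) (F : Finset (Ker U W Λ)),
    (∀ T ∈ F, Crit lam T ∧ Valid T ∧ ksize T ≤ l ∧ T.2.card = v) →
    ∑ T ∈ F, (Av ^ v)⁻¹ * (B ^ T.1.card)⁻¹ ≤ 1

/-- the positive tests are spread -/
def TR (tr : X → Ker U W Λ) (Av B : ℝ) : Prop :=
  ∀ T : Ker U W Λ, Valid T → ((univ.filter fun x => T ≤ tr x).card : ℝ) *
    ((16 * Av) ^ T.2.card * (16 * B) ^ T.1.card) ≤ Fintype.card X

/-- few positive tests contain a critical kernel of given size -/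
theorem card_crit_tr [AddGroup Λ] {M Q Qs Qn l : ℕ} {Av B : ℝ} (hAv : 0 < Av) (hB : 0 < B)
    (hKR : KR U W Λ M Q Qs Qn l Av B) (tr : X → Ker U W Λ) (hTR : TR tr Av B)
    (lam : Sta U W Λ l → ℝ) (hc : ClosedLev M Q Qs Qn l lam) (v s : ℕ) :
    ((univ.filter fun x => ∃ T : Ker U W Λ, T ≤ tr x ∧ Crit lam T ∧ Valid T ∧ ksize T ≤ l ∧
      T.2.card = v ∧ s ≤ ksize T).card : ℝ) * 16 ^ s ≤ Fintype.card X := by
  set F : Finset (Ker U W Λ) := univ.filter fun T : Ker U W Λ => Crit lam T ∧ Valid T ∧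
    ksize T ≤ l ∧ T.2.card = v ∧ s ≤ ksize T with hF
  have hFm : ∀ T ∈ F, Crit lam T ∧ Valid T ∧ ksize T ≤ l ∧ T.2.card = v ∧ s ≤ ksize T :=
    fun T hT => (mem_filter.1 hT).2
  have h1 : (univ.filter fun x => ∃ T : Ker U W Λ, T ≤ tr x ∧ Crit lam T ∧ Valid T ∧
      ksize T ≤ l ∧ T.2.card = v ∧ s ≤ ksize T) ⊆ F.biUnion fun T => univ.filter fun x =>
      T ≤ tr x := by
    intro x hx
    obtain ⟨T, h2, h3⟩ := (mem_filter.1 hx).2
    exact mem_biUnion.2 ⟨T, mem_filter.2 ⟨mem_univ _, h3⟩, mem_filter.2 ⟨mem_univ _, h2⟩⟩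
  have h2 : ((univ.filter fun x => ∃ T : Ker U W Λ, T ≤ tr x ∧ Crit lam T ∧ Valid T ∧
      ksize T ≤ l ∧ T.2.card = v ∧ s ≤ ksize T).card : ℝ) ≤
      ∑ T ∈ F, ((univ.filter fun x => T ≤ tr x).card : ℝ) := by
    have := (card_le_card h1).trans card_biUnion_le
    exact_mod_cast this
  have h3 : ∀ T ∈ F, ((univ.filter fun x => T ≤ tr x).card : ℝ) ≤
      (Fintype.card X : ℝ) * ((16 ^ s)⁻¹ * ((Av ^ v)⁻¹ * (B ^ T.1.card)⁻¹)) := by
    intro T hT
    obtain ⟨-, hv, -, hcard, hs⟩ := hFm T hT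
    have h4 := hTR T hv
    have h5 : (0 : ℝ) < (16 * Av) ^ T.2.card * (16 * B) ^ T.1.card := by positivity
    rw [← le_div_iff₀ h5] at h4
    refine h4.trans ?_
    rw [div_eq_mul_inv]
    refine mul_le_mul_of_nonneg_left ?_ (Nat.cast_nonneg _)
    rw [← mul_inv, ← mul_inv]
    refine inv_anti₀ (by positivity) ?_
    rw [hcard, mul_pow, mul_pow]
    have h6 : (16 : ℝ) ^ s ≤ 16 ^ v * 16 ^ T.1.card := by
      rw [← pow_add]
      refine pow_le_pow_right₀ (by norm_num) ?_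
      unfold ksize at hs
      omega
    calc (16 : ℝ) ^ s * (Av ^ v * B ^ T.1.card)
        ≤ (16 ^ v * 16 ^ T.1.card) * (Av ^ v * B ^ T.1.card) :=
          mul_le_mul_of_nonneg_right h6 (by positivity)
      _ = _ := by ring
  have h4 := hKR lam hc v F fun T hT => by
    obtain ⟨a, b, c, d, -⟩ := hFm T hT
    exact ⟨a, b, c, d⟩
  have h5 : ((univ.filter fun x => ∃ T : Ker U W Λ, T ≤ tr x ∧ Crit lam T ∧ Valid T ∧
      ksize T ≤ l ∧ T.2.card = v ∧ s ≤ ksize T).card : ℝ) ≤ (Fintype.card X : ℝ) * (16 ^ s)⁻¹ := by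
    calc _ ≤ ∑ T ∈ F, ((univ.filter fun x => T ≤ tr x).card : ℝ) := h2
      _ ≤ ∑ T ∈ F, (Fintype.card X : ℝ) * ((16 ^ s)⁻¹ * ((Av ^ v)⁻¹ * (B ^ T.1.card)⁻¹)) :=
          Finset.sum_le_sum h3
      _ = (Fintype.card X : ℝ) * (16 ^ s)⁻¹ * ∑ T ∈ F, ((Av ^ v)⁻¹ * (B ^ T.1.card)⁻¹) := by
          rw [Finset.mul_sum]
          refine Finset.sum_congr rfl fun T _ => by ring
      _ ≤ (Fintype.card X : ℝ) * (16 ^ s)⁻¹ * 1 := mul_le_mul_of_nonneg_left h4 (by positivity)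
      _ = _ := mul_one _
  calc _ ≤ (Fintype.card X : ℝ) * (16 ^ s)⁻¹ * 16 ^ s :=
        mul_le_mul_of_nonneg_right h5 (by positivity)
    _ = Fintype.card X := by
        rw [mul_assoc, inv_mul_cancel₀ (by positivity), mul_one]

/-- the closure operator for level functions -/
theorem exists_closedLev (M Q Qs Qn l : ℕ) (hM : 1 ≤ M) (hQ : 1 ≤ Q) (hQs : 1 ≤ Qs)
    (hQn : 1 ≤ Qn) (lam : Sta U W Λ l → ℝ) : ∃ lam' : Sta U W Λ l → ℝ,
      (∀ β, lam β ≤ lam' β) ∧ ClosedLev M Q Qs Qn l lam' ∧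
      (univ.filter fun ω : Smp U W Λ M Q Qs Qn => ∃ β : Sta U W Λ l, β.1 ⊆ marked ω ∧
        ∀ β' : Sta U W Λ l, β'.1 ⊆ marked ω → lam β' < lam' β).card * 2 ^ M
        ≤ Fintype.card (Sta U W Λ l) * Fintype.card (Smp U W Λ M Q Qs Qn) := by
  have hwt1 : ∀ j : It U W Λ, 1 ≤ wt Q Qs Qn j := by
    intro j
    rcases j with ⟨p, _ | a⟩ | e
    · exact hQs
    · exact hQ
    · exact hQn
  have hpos : 0 < Fintype.card (Smp U W Λ M Q Qs Qn) := by
    rw [Fintype.card_pos_iff]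
    exact ⟨fun _ j => ⟨0, hwt1 j⟩⟩
  obtain ⟨lam', h1, h2, h3⟩ := H630VC.exists_closure (Ω := Smp U W Λ M Q Qs Qn)
    (S := Sta U W Λ l)
    (fun ω β0 β => β.1 ⊆ β0.1 ∪ marked ω) (fun ω β => β.1 ⊆ marked ω)
    (fun ω β0 β h h' q hq => by
      rcases mem_union.1 (h' hq) with h4 | h4
      · exact h h4
      · exact h4) (Fintype.card (Smp U W Λ M Q Qs Qn) / 2 ^ M)
    (Nat.div_lt_self hpos (Nat.one_lt_two_pow (by omega))) lam
  refine ⟨lam', h1, ?_, ?_⟩
  · intro β0 θ hβ0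
    apply h2
    rw [Nat.le_div_iff_mul_le (by positivity)]
    convert hβ0
  · have h4 : (univ.filter fun ω : Smp U W Λ M Q Qs Qn => ∃ β : Sta U W Λ l, β.1 ⊆ marked ω ∧
        ∀ β' : Sta U W Λ l, β'.1 ⊆ marked ω → lam β' < lam' β).card ≤
        Fintype.card (Sta U W Λ l) * (Fintype.card (Smp U W Λ M Q Qs Qn) / 2 ^ M) := by
      convert h3
    calc _ ≤ (Fintype.card (Sta U W Λ l) * (Fintype.card (Smp U W Λ M Q Qs Qn) / 2 ^ M)) * 2 ^ M :=
          Nat.mul_le_mul_right _ h4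
      _ = Fintype.card (Sta U W Λ l) * (Fintype.card (Smp U W Λ M Q Qs Qn) / 2 ^ M * 2 ^ M) := by
          ring
      _ ≤ _ := Nat.mul_le_mul_left _ (Nat.div_mul_le_self _ _)

/-- one step of the approximation -/
theorem step [AddGroup Λ] {M Q Qs Qn L : ℕ} {Av B : ℝ} (hAv : 0 < Av) (hB : 0 < B)
    (hM : 1 ≤ M) (hQ : 1 ≤ Q) (hQs : 1 ≤ Qs) (hQn : 1 ≤ Qn)
    (hKR : KR U W Λ M Q Qs Qn (2 * L) Av B) (tr : X → Ker U W Λ) (hTR : TR tr Av B)
    (badP : Finset X) (badN : Finset (Smp U W Λ M Q Qs Qn)) (lam : Sta U W Λ (2 * L) → ℝ)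
    (fp : X → ℝ) (fn : Smp U W Λ M Q Qs Qn → ℝ)
    (hraw : Raw M Q Qs Qn (2 * L) tr badP badN lam fp fn) :
    ∃ (newP : Finset X) (newN : Finset (Smp U W Λ M Q Qs Qn)),
      (newP.card : ℝ) * 8 ^ L ≤ Fintype.card X ∧
      newN.card * 2 ^ M ≤ Fintype.card (Sta U W Λ (2 * L)) *
        Fintype.card (Smp U W Λ M Q Qs Qn) ∧
      Approx M Q Qs Qn L (2 * L) tr (badP ∪ newP) (badN ∪ newN) fp fn := by
  obtain ⟨lam', h1, h2, h3⟩ := exists_closedLev M Q Qs Qn (2 * L) hM hQ hQs hQn lam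
  refine ⟨(Finset.range (2 * L + 1)).biUnion fun v => univ.filter fun x => ∃ T : Ker U W Λ,
      T ≤ tr x ∧ Crit lam' T ∧ Valid T ∧ ksize T ≤ 2 * L ∧ T.2.card = v ∧ L + 1 ≤ ksize T,
    univ.filter fun ω : Smp U W Λ M Q Qs Qn => ∃ β : Sta U W Λ (2 * L), β.1 ⊆ marked ω ∧
      ∀ β' : Sta U W Λ (2 * L), β'.1 ⊆ marked ω → lam β' < lam' β, ?_, h3, lam', h2, ?_, ?_⟩
  · have hkey : ∀ v ∈ Finset.range (2 * L + 1), ((univ.filter fun x => ∃ T : Ker U W Λ,
          T ≤ tr x ∧ Crit lam' T ∧ Valid T ∧ ksize T ≤ 2 * L ∧ T.2.card = v ∧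
          L + 1 ≤ ksize T).card : ℝ) ≤ Fintype.card X * (16 ^ (L + 1))⁻¹ := by
      intro v _
      have := card_crit_tr hAv hB hKR tr hTR lam' h2 v (L + 1)
      rwa [← le_div_iff₀ (by positivity), div_eq_mul_inv] at this
    have h5 : (((Finset.range (2 * L + 1)).biUnion fun v => univ.filter fun x =>
        ∃ T : Ker U W Λ, T ≤ tr x ∧ Crit lam' T ∧ Valid T ∧ ksize T ≤ 2 * L ∧ T.2.card = v ∧
        L + 1 ≤ ksize T).card : ℝ) ≤
        (2 * L + 1 : ℕ) * (Fintype.card X * (16 ^ (L + 1))⁻¹) := by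
      have h7 : (((Finset.range (2 * L + 1)).biUnion fun v => univ.filter fun x =>
        ∃ T : Ker U W Λ, T ≤ tr x ∧ Crit lam' T ∧ Valid T ∧ ksize T ≤ 2 * L ∧ T.2.card = v ∧
        L + 1 ≤ ksize T).card : ℝ) ≤
        ∑ v ∈ Finset.range (2 * L + 1), ((univ.filter fun x => ∃ T : Ker U W Λ,
          T ≤ tr x ∧ Crit lam' T ∧ Valid T ∧ ksize T ≤ 2 * L ∧ T.2.card = v ∧
          L + 1 ≤ ksize T).card : ℝ) := by exact_mod_cast card_biUnion_le
      refine h7.trans ((Finset.sum_le_sum hkey).trans (le_of_eq ?_))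
      rw [sum_const, card_range, nsmul_eq_mul]
    have h6 : ((2 * L + 1 : ℕ) : ℝ) ≤ 16 * 2 ^ L := by
      have h7 : L < 2 ^ L := Nat.lt_two_pow_self
      have h8 : 2 * L + 1 ≤ 16 * 2 ^ L := by omega
      exact_mod_cast h8
    calc _ ≤ ((2 * L + 1 : ℕ) : ℝ) * (Fintype.card X * (16 ^ (L + 1))⁻¹) * 8 ^ L :=
          mul_le_mul_of_nonneg_right h5 (by positivity)
      _ ≤ (16 * 2 ^ L) * (Fintype.card X * (16 ^ (L + 1))⁻¹) * 8 ^ L := by gcongr
      _ = Fintype.card X * (((16 ^ (L + 1))⁻¹) * (16 * (2 ^ L * 8 ^ L))) := by ring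
      _ = Fintype.card X := by
          have h9 : (16 : ℝ) * (2 ^ L * 8 ^ L) = 16 ^ (L + 1) := by
            rw [← mul_pow, pow_succ]
            norm_num
            ring
          rw [h9, inv_mul_cancel₀ (by positivity), mul_one]
  · intro x hx
    rw [mem_union, not_or] at hx
    obtain ⟨κ, g0, g1, g2, g3⟩ := hraw.1 x hx.1
    have g4 : Lev lam' κ (fp x) := fun β hβ => (g3 β hβ).trans (h1 β)
    obtain ⟨κ', g5, g6, g7, g8⟩ := exists_crit g0 g4
    have g9 : ksize κ' ≤ 2 * L := by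
      have a1 := card_le_card g5.1
      have a2 := card_le_card g5.2
      unfold ksize at g2 ⊢
      omega
    refine ⟨κ', g6, g5.trans g1, ?_, g7⟩
    by_contra hcard
    refine hx.2 (mem_biUnion.2 ⟨κ'.2.card, ?_, mem_filter.2 ⟨mem_univ _, κ', g5.trans g1, g8, g6,
      g9, rfl, by omega⟩⟩)
    rw [mem_range]
    unfold ksize at g9
    omega
  · intro ω hω β hβ
    rw [mem_union, not_or, mem_filter] at hω
    by_contra hlt
    rw [not_le] at hlt
    exact hω.2 ⟨mem_univ _, β, hβ, fun β' hβ' => (hraw.2 ω hω.1 β' hβ').trans_lt hlt⟩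

/-- levels of unions -/
theorem lev_union [AddGroup Λ] {M Q Qs Qn l : ℕ} {lam : Sta U W Λ l → ℝ}
    (hc : ClosedLev M Q Qs Qn l lam) {κ1 κ : Ker U W Λ} {θ : ℝ}
    (h : Lev lam κ1 θ) (hκ : κ1 ≤ κ) : Lev lam κ θ := by
  rintro ⟨β, hβcard⟩ ⟨st, N, hN, hok, hβ⟩
  have hsub : stI st κ1.2 ∪ noI (N ∩ κ1.1) ⊆ β := by
    rw [show β = stI st κ.2 ∪ noI N from hβ]
    refine union_subset_union ?_ ?_
    · exact image_subset_image hκ.2
    · exact image_subset_image inter_subset_left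
  have hcard : (stI st κ1.2 ∪ noI (N ∩ κ1.1)).card ≤ l := (card_le_card hsub).trans hβcard
  refine (h ⟨_, hcard⟩ ⟨st, N ∩ κ1.1, inter_subset_right, ?_, rfl⟩).trans
    (closedLev_mono hc hsub)
  intro e he
  rcases hok e (hκ.1 he) with h1 | h1
  · exact Or.inl (mem_inter.2 ⟨h1, he⟩)
  · exact Or.inr h1

theorem pr_step [AddGroup Λ] {M Q Qs Qn L : ℕ} {Av B : ℝ} (hAv : 0 < Av) (hB : 0 < B)
    (hM : 1 ≤ M) (hQ : 1 ≤ Q) (hQs : 1 ≤ Qs) (hQn : 1 ≤ Qn)
    (hKR : KR U W Λ M Q Qs Qn (2 * L) Av B) (tr : X → Ker U W Λ) (hTR : TR tr Av B)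
    {I : Type} (posI : X → I) (negI : Smp U W Λ M Q Qs Qn → I) (l : List (I → ℝ)) (f : I → ℝ)
    (badP : Finset X) (badN : Finset (Smp U W Λ M Q Qs Qn))
    (h1 : (badP.card : ℝ) * 8 ^ L ≤ l.length * Fintype.card X)
    (h2 : badN.card * 2 ^ M ≤ l.length * (Fintype.card (Sta U W Λ (2 * L)) *
      Fintype.card (Smp U W Λ M Q Qs Qn)))
    (h3 : ∀ f ∈ l, Approx M Q Qs Qn L (2 * L) tr badP badN (fun x => f (posI x))
      (fun ω => f (negI ω)))
    (lam : Sta U W Λ (2 * L) → ℝ) (hraw : Raw M Q Qs Qn (2 * L) tr badP badN lam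
      (fun x => f (posI x)) (fun ω => f (negI ω))) :
    ∃ (badP : Finset X) (badN : Finset (Smp U W Λ M Q Qs Qn)),
      (badP.card : ℝ) * 8 ^ L ≤ (f :: l).length * Fintype.card X ∧
      badN.card * 2 ^ M ≤ (f :: l).length * (Fintype.card (Sta U W Λ (2 * L)) *
        Fintype.card (Smp U W Λ M Q Qs Qn)) ∧
      ∀ g ∈ f :: l, Approx M Q Qs Qn L (2 * L) tr badP badN (fun x => g (posI x))
        (fun ω => g (negI ω)) := by
  obtain ⟨newP, newN, g1, g2, g3⟩ := step hAv hB hM hQ hQs hQn hKR tr hTR badP badN lam _ _ hraw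
  refine ⟨badP ∪ newP, badN ∪ newN, ?_, ?_, ?_⟩
  · have h4 : ((badP ∪ newP).card : ℝ) ≤ badP.card + newP.card := by
      exact_mod_cast card_union_le _ _
    calc _ ≤ ((badP.card : ℝ) + newP.card) * 8 ^ L :=
          mul_le_mul_of_nonneg_right h4 (by positivity)
      _ = badP.card * 8 ^ L + newP.card * 8 ^ L := by ring
      _ ≤ l.length * Fintype.card X + Fintype.card X := add_le_add h1 g1
      _ = _ := by rw [List.length_cons]; push_cast; ring
  · calc _ ≤ (badN.card + newN.card) * 2 ^ M := Nat.mul_le_mul_right _ (card_union_le _ _)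
      _ = badN.card * 2 ^ M + newN.card * 2 ^ M := by ring
      _ ≤ l.length * (Fintype.card (Sta U W Λ (2 * L)) * Fintype.card (Smp U W Λ M Q Qs Qn)) +
          Fintype.card (Sta U W Λ (2 * L)) * Fintype.card (Smp U W Λ M Q Qs Qn) :=
          Nat.add_le_add h2 g2
      _ = _ := by rw [List.length_cons]; ring
  · intro g hg
    rcases List.mem_cons.1 hg with rfl | hg
    · exact g3
    · exact approx_mono (h3 g hg) subset_union_left subset_union_left

theorem prog_approx [AddGroup Λ] {M Q Qs Qn L : ℕ} {Av B : ℝ} (hAv : 0 < Av) (hB : 0 < B)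
    (hM : 1 ≤ M) (hQ : 1 ≤ Q) (hQs : 1 ≤ Qs) (hQn : 1 ≤ Qn)
    (hKR : KR U W Λ M Q Qs Qn (2 * L) Av B) (tr : X → Ker U W Λ) (hTR : TR tr Av B)
    {I : Type} (posI : X → I) (negI : Smp U W Λ M Q Qs Qn → I) (inp : Set (I → ℝ))
    (hinp : ∀ g ∈ inp, ∃ lam : Sta U W Λ (2 * L) → ℝ, Raw M Q Qs Qn (2 * L) tr ∅ ∅ lam
      (fun x => g (posI x)) (fun ω => g (negI ω)))
    (l : List (I → ℝ)) (hl : Prog inp l) :
    ∃ (badP : Finset X) (badN : Finset (Smp U W Λ M Q Qs Qn)),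
      (badP.card : ℝ) * 8 ^ L ≤ l.length * Fintype.card X ∧
      badN.card * 2 ^ M ≤ l.length * (Fintype.card (Sta U W Λ (2 * L)) *
        Fintype.card (Smp U W Λ M Q Qs Qn)) ∧
      ∀ g ∈ l, Approx M Q Qs Qn L (2 * L) tr badP badN (fun x => g (posI x))
        (fun ω => g (negI ω)) := by
  induction hl with
  | nil => exact ⟨∅, ∅, by simp, by simp, by simp⟩
  | @input l f hp hf ih =>
    obtain ⟨badP, badN, h1, h2, h3⟩ := ih
    obtain ⟨lam, hlam⟩ := hinp f hf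
    exact pr_step hAv hB hM hQ hQs hQn hKR tr hTR posI negI l f badP badN h1 h2 h3 lam
      (raw_mono hlam (empty_subset _) (empty_subset _))
  | @gate l φ f1 f2 hp hφ hf1 hf2 ih =>
    obtain ⟨badP, badN, h1, h2, h3⟩ := ih
    obtain ⟨lam1, hc1, hp1, hn1⟩ := h3 f1 hf1
    obtain ⟨lam2, hc2, hp2, hn2⟩ := h3 f2 hf2
    refine pr_step hAv hB hM hQ hQs hQn hKR tr hTR posI negI l _ badP badN h1 h2 h3
      (fun β => φ (lam1 β) (lam2 β)) ⟨?_, ?_⟩
    · intro x hx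
      obtain ⟨κ1, a0, a1, a2, a3⟩ := hp1 x hx
      obtain ⟨κ2, b0, b1, b2, b3⟩ := hp2 x hx
      have hle1 : κ1 ≤ (κ1.1 ∪ κ2.1, κ1.2 ∪ κ2.2) := ⟨subset_union_left, subset_union_left⟩
      have hle2 : κ2 ≤ (κ1.1 ∪ κ2.1, κ1.2 ∪ κ2.2) := ⟨subset_union_right, subset_union_right⟩
      refine ⟨(κ1.1 ∪ κ2.1, κ1.2 ∪ κ2.2), ?_, ⟨union_subset a1.1 b1.1, union_subset a1.2 b1.2⟩,
        ?_, ?_⟩
      · intro e he
        rcases mem_union.1 he with h | h
        · exact ⟨mem_union_left _ (a0 e h).1, mem_union_left _ (a0 e h).2⟩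
        · exact ⟨mem_union_right _ (b0 e h).1, mem_union_right _ (b0 e h).2⟩
      · have c1 := card_union_le κ1.1 κ2.1
        have c2 := card_union_le κ1.2 κ2.2
        unfold ksize at a2 b2 ⊢
        show (κ1.1 ∪ κ2.1).card + (κ1.2 ∪ κ2.2).card ≤ 2 * L
        omega
      · intro β hβ
        exact hφ _ _ _ _ (lev_union hc1 a3 hle1 β hβ) (lev_union hc2 b3 hle2 β hβ)
    · intro ω hω β hβ
      exact hφ _ _ _ _ (hn1 ω hω β hβ) (hn2 ω hω β hβ)

/-- the final dichotomy -/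
theorem final_di [AddGroup Λ] {M Q Qs Qn L : ℕ} {Av B : ℝ} (hAv : 0 < Av) (hB : 0 < B)
    (hKR : KR U W Λ M Q Qs Qn (2 * L) Av B) (tr : X → Ker U W Λ) (hTR : TR tr Av B)
    (badP : Finset X) (badN : Finset (Smp U W Λ M Q Qs Qn)) (fp : X → ℝ)
    (fn : Smp U W Λ M Q Qs Qn → ℝ) (happ : Approx M Q Qs Qn L (2 * L) tr badP badN fp fn)
    (θ : ℝ) :
    ((univ.filter fun x => θ ≤ fp x).card : ℝ) ≤ badP.card + Fintype.card X / 15 ∨
      ∀ ω, ω ∉ badN → θ ≤ fn ω := by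
  obtain ⟨lam, hc, hraw⟩ := happ
  by_cases h : Lev lam (∅, ∅) θ
  · right
    intro ω hω
    have h1 := h ⟨∅, by simp⟩ ⟨fun _ => none, ∅, subset_rfl, by simp, by simp [stI, noI]⟩
    exact h1.trans (hraw.2 ω hω ⟨∅, by simp⟩ (empty_subset _))
  · left
    have hsub : (univ.filter fun x => θ ≤ fp x) ⊆ badP ∪ (Finset.Ico 1 (2 * L + 1)).biUnion fun j =>
        univ.filter fun x => ∃ T : Ker U W Λ, T ≤ tr x ∧ Crit lam T ∧ Valid T ∧
          ksize T ≤ 2 * L ∧ T.2.card = j ∧ j ≤ ksize T := by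
      intro x hx
      have hx' := (mem_filter.1 hx).2
      rw [mem_union]
      by_cases hb : x ∈ badP
      · exact Or.inl hb
      · right
        obtain ⟨κ, g0, g1, g2, g3⟩ := hraw.1 x hb
        have g4 : Lev lam κ θ := fun β hβ => hx'.trans (g3 β hβ)
        obtain ⟨κ', g5, g6, g7, g8⟩ := exists_crit g0 g4
        have a1 := card_le_card g5.1
        have a2 := card_le_card g5.2
        have g9 : ksize κ' ≤ L := by
          unfold ksize at g2 ⊢
          omega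
        have g10 : κ'.2.card ≠ 0 := by
          intro h0
          rw [card_eq_zero] at h0
          have h1 : κ'.1 = ∅ := by
            rw [Finset.eq_empty_iff_forall_notMem]
            intro e he
            have := (g6 e he).1
            rw [h0] at this
            exact notMem_empty _ this
          have h2 : κ' = (∅, ∅) := Prod.ext h1 h0
          rw [h2] at g7
          exact h g7
        have g11 : κ'.2.card ≤ ksize κ' := by unfold ksize; omega
        refine mem_biUnion.2 ⟨κ'.2.card, mem_Ico.2 ⟨by omega, by omega⟩,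
          mem_filter.2 ⟨mem_univ _, κ', g5.trans g1, g8, g6, by omega, rfl, g11⟩⟩
    have hkey : ∀ j ∈ Finset.Ico 1 (2 * L + 1), ((univ.filter fun x => ∃ T : Ker U W Λ,
        T ≤ tr x ∧ Crit lam T ∧ Valid T ∧ ksize T ≤ 2 * L ∧ T.2.card = j ∧
        j ≤ ksize T).card : ℝ) ≤ Fintype.card X * (1 / 16) ^ j := by
      intro j _
      have := card_crit_tr hAv hB hKR tr hTR lam hc j j
      rw [← le_div_iff₀ (by positivity)] at this
      rw [one_div, inv_pow, ← div_eq_mul_inv]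
      exact this
    have h6 : ((univ.filter fun x => θ ≤ fp x).card : ℝ) ≤ badP.card +
        ∑ j ∈ Finset.Ico 1 (2 * L + 1), ((univ.filter fun x => ∃ T : Ker U W Λ,
        T ≤ tr x ∧ Crit lam T ∧ Valid T ∧ ksize T ≤ 2 * L ∧ T.2.card = j ∧
        j ≤ ksize T).card : ℝ) := by
      have := ((card_le_card hsub).trans (card_union_le _ _)).trans
        (Nat.add_le_add_left card_biUnion_le _)
      exact_mod_cast this
    have h7 : ∑ j ∈ Finset.Ico 1 (2 * L + 1), (1 / 16 : ℝ) ^ j ≤ 1 / 15 := by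
      have h8 : ∀ n : ℕ, ∑ j ∈ Finset.Ico 1 (n + 1), (1 / 16 : ℝ) ^ j
          = 1 / 15 * (1 - (1 / 16) ^ n) := by
        intro n
        induction n with
        | zero => simp
        | succ n ih =>
          rw [Finset.sum_Ico_succ_top (by omega), ih, pow_succ]
          ring
      rw [h8]
      have : (0 : ℝ) ≤ (1 / 16) ^ (2 * L) := by positivity
      linarith
    calc _ ≤ _ := h6
      _ ≤ badP.card + ∑ j ∈ Finset.Ico 1 (2 * L + 1), (Fintype.card X : ℝ) * (1 / 16) ^ j := by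
          have := Finset.sum_le_sum hkey
          linarith
      _ = badP.card + Fintype.card X * ∑ j ∈ Finset.Ico 1 (2 * L + 1), (1 / 16 : ℝ) ^ j := by
          rw [Finset.mul_sum]
      _ ≤ badP.card + Fintype.card X * (1 / 15) := by
          have := mul_le_mul_of_nonneg_left h7 (Nat.cast_nonneg (α := ℝ) (Fintype.card X))
          linarith
      _ = _ := by ring

omit [Fintype X] in
/-- the level function of a function that separates nothing -/
theorem raw_triv [Add Λ] (M Q Qs Qn k l : ℕ) (tr : X → Ker U W Λ) (fp : X → ℝ)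
    (fn : Smp U W Λ M Q Qs Qn → ℝ) (c : ℝ) (hp : ∀ x, fp x ≤ c) (hn : ∀ ω, c ≤ fn ω) :
    Raw (l := l) M Q Qs Qn k tr ∅ ∅ (fun _ => c) fp fn :=
  ⟨fun x _ => ⟨(∅, ∅), by intro e he; exact absurd he (notMem_empty e),
    ⟨empty_subset _, empty_subset _⟩, by simp [ksize], fun _ _ => hp x⟩,
    fun ω _ _ _ => hn ω⟩

/-- the constraint `e` is derived from the items `T` -/
def Der [Add Λ] (T : Finset (It U W Λ)) (e : U × W × Λ) : Prop :=
  ∃ s t, (Sum.inl (lft e, s) : It U W Λ) ∈ T ∧ (Sum.inl (rgt e, t) : It U W Λ) ∈ T ∧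
    ((Sum.inr e : It U W Λ) ∈ T ∨ okp s t e.2.2)

omit [Fintype X] in
/-- the level function of a constraint -/
theorem raw_bit [Add Λ] (M Q Qs Qn k l : ℕ) (hk : 3 ≤ k) (tr : X → Ker U W Λ)
    (htr : ∀ x, Valid (tr x)) (e : U × W × Λ) :
    Raw (l := l) M Q Qs Qn k tr ∅ ∅ (fun β => if Der β.1 e then 1 else 0)
      (fun x => if e ∈ (tr x).1 then 1 else 0) (fun ω => if Der (marked ω) e then 1 else 0) := by
  refine ⟨fun x _ => ?_, fun ω _ β hβ => ?_⟩
  · by_cases he : e ∈ (tr x).1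
    · refine ⟨({e}, {lft e, rgt e}), ?_, ⟨singleton_subset_iff.2 he, ?_⟩, ?_, ?_⟩
      · intro e' he'
        rw [mem_singleton] at he'
        subst he'
        simp
      · intro p hp
        rw [mem_insert, mem_singleton] at hp
        rcases hp with rfl | rfl
        · exact (htr x e he).1
        · exact (htr x e he).2
      · unfold ksize
        have h1 : ({lft e, rgt e} : Finset (U ⊕ W)).card ≤ 2 := card_le_two
        show ({e} : Finset (U × W × Λ)).card + ({lft e, rgt e} : Finset (U ⊕ W)).card ≤ k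
        rw [card_singleton]
        omega
      · rintro β ⟨st, N, hN, hok, hβ⟩
        show (if e ∈ (tr x).1 then (1 : ℝ) else 0) ≤ if Der β.1 e then 1 else 0
        have hder : Der β.1 e := by
          refine ⟨st (lft e), st (rgt e), ?_, ?_, ?_⟩
          · rw [hβ]
            exact mem_union_left _ (mem_stI.2 ⟨by simp, rfl⟩)
          · rw [hβ]
            exact mem_union_left _ (mem_stI.2 ⟨by simp, rfl⟩)
          · rcases hok e (mem_singleton_self e) with h | h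
            · left
              rw [hβ]
              exact mem_union_right _ (mem_noI.2 h)
            · exact Or.inr h
        rw [if_pos hder, if_pos he]
    · refine ⟨(∅, ∅), by intro e he; exact absurd he (notMem_empty e),
        ⟨empty_subset _, empty_subset _⟩, by simp [ksize], fun β _ => ?_⟩
      show (if e ∈ (tr x).1 then (1 : ℝ) else 0) ≤ if Der β.1 e then 1 else 0
      rw [if_neg he]
      split_ifs <;> norm_num
  · show (if Der β.1 e then (1 : ℝ) else 0) ≤ if Der (marked ω) e then 1 else 0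
    by_cases h : Der β.1 e
    · have h' : Der (marked ω) e := by
        obtain ⟨s, t, h1, h2, h3⟩ := h
        exact ⟨s, t, hβ h1, hβ h2, h3.imp (fun h => hβ h) id⟩
      rw [if_pos h, if_pos h']
    · rw [if_neg h]
      split_ifs <;> norm_num

/-- the number of states -/
theorem card_Sta (l : ℕ) : Fintype.card (Sta U W Λ l) ≤ (Fintype.card (It U W Λ) + 1) ^ l := by
  have h : Fintype.card (Sta U W Λ l) ≤ Fintype.card (Fin l → Option (It U W Λ)) := by
    refine Fintype.card_le_of_injective (fun β i => β.1.toList[(i : ℕ)]?) ?_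
    intro β β' hbb
    apply Subtype.ext
    have key : ∀ β : Sta U W Λ l, ∀ q, q ∈ β.1 ↔ ∃ i : Fin l, β.1.toList[(i : ℕ)]? = some q := by
      intro β q
      rw [← Finset.mem_toList, List.mem_iff_getElem?]
      constructor
      · rintro ⟨i, hi⟩
        have h1 : i < β.1.toList.length := (List.getElem?_eq_some_iff.1 hi).1
        rw [Finset.length_toList] at h1
        exact ⟨⟨i, h1.trans_le β.2⟩, hi⟩
      · rintro ⟨i, hi⟩
        exact ⟨i, hi⟩
    ext q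
    rw [key β q, key β' q]
    have h1 : ∀ i : Fin l, β.1.toList[(i : ℕ)]? = β'.1.toList[(i : ℕ)]? := fun i =>
      congrFun hbb i
    simp only [h1]
  refine h.trans (le_of_eq ?_)
  rw [Fintype.card_fun, Fintype.card_option, Fintype.card_fin]

/-- the combination -/
theorem comb [AddGroup Λ] {M Q Qs Qn L : ℕ} {Av B : ℝ} (hAv : 0 < Av) (hB : 0 < B)
    (hM : 1 ≤ M) (hQ : 1 ≤ Q) (hQs : 1 ≤ Qs) (hQn : 1 ≤ Qn)
    (hKR : KR U W Λ M Q Qs Qn (2 * L) Av B) (tr : X → Ker U W Λ) (hTR : TR tr Av B)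
    {I : Type} (posI : X → I) (negI : Smp U W Λ M Q Qs Qn → I) (inp : Set (I → ℝ))
    (hinp : ∀ g ∈ inp, ∃ lam : Sta U W Λ (2 * L) → ℝ, Raw M Q Qs Qn (2 * L) tr ∅ ∅ lam
      (fun x => g (posI x)) (fun ω => g (negI ω)))
    (l : List (I → ℝ)) (hl : Prog inp l) (f : I → ℝ) (hf : f ∈ l) (θ : ℝ) :
    ((univ.filter fun x => θ ≤ f (posI x)).card : ℝ) ≤
      (l.length / 8 ^ L + 1 / 15) * Fintype.card X ∨
    ((univ.filter fun ω : Smp U W Λ M Q Qs Qn => f (negI ω) < θ).card : ℝ) ≤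
      l.length * ((Fintype.card (It U W Λ) + 1) ^ (2 * L) / 2 ^ M) *
        Fintype.card (Smp U W Λ M Q Qs Qn) := by
  obtain ⟨badP, badN, h1, h2, h3⟩ := prog_approx hAv hB hM hQ hQs hQn hKR tr hTR posI negI inp
    hinp l hl
  rcases final_di hAv hB hKR tr hTR badP badN _ _ (h3 f hf) θ with h | h
  · left
    have h4 : (badP.card : ℝ) ≤ l.length / 8 ^ L * Fintype.card X := by
      rw [← le_div_iff₀ (by positivity)] at h1
      refine h1.trans (le_of_eq ?_)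
      ring
    calc _ ≤ _ := h
      _ ≤ l.length / 8 ^ L * Fintype.card X + Fintype.card X / 15 := by linarith
      _ = _ := by ring
  · right
    have hsub : (univ.filter fun ω : Smp U W Λ M Q Qs Qn => f (negI ω) < θ) ⊆ badN := by
      intro ω hω
      rw [Finset.mem_filter] at hω
      by_contra hn
      exact absurd (h ω hn) (not_le.mpr hω.2)
    have h5 : ((univ.filter fun ω : Smp U W Λ M Q Qs Qn => f (negI ω) < θ).card : ℝ)
        ≤ badN.card := by exact_mod_cast card_le_card hsub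
    have h6 : badN.card * 2 ^ M ≤ l.length * ((Fintype.card (It U W Λ) + 1) ^ (2 * L) *
        Fintype.card (Smp U W Λ M Q Qs Qn)) :=
      h2.trans (Nat.mul_le_mul_left _ (Nat.mul_le_mul_right _ (card_Sta _)))
    have h7 : (badN.card : ℝ) * 2 ^ M ≤ l.length * ((Fintype.card (It U W Λ) + 1) ^ (2 * L) *
        Fintype.card (Smp U W Λ M Q Qs Qn)) := by exact_mod_cast h6
    rw [← le_div_iff₀ (by positivity)] at h7
    refine h5.trans (h7.trans (le_of_eq ?_))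
    ring

end

end Pool.Agent.W906.MU
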