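import Mathlib

/-! # Kernels, items, the core of a constraint graph, extension of labellings (helper906) -/

open scoped Classical
open Finset

namespace Pool.Agent.W906.MU

section

variable {U W Λ : Type}

/-- left end -/
def lft (e : U × W × Λ) : U ⊕ W := Sum.inl e.1
/-- right end -/
def rgt (e : U × W × Λ) : U ⊕ W := Sum.inr e.2.1

theorem lft_ne_rgt (e e' : U × W × Λ) : lft e ≠ rgt e' := Sum.inl_ne_inr
theorem rgt_ne_lft (e e' : U × W × Λ) : rgt e ≠ lft e' := Sum.inr_ne_inl

/-- the statuses `s`, `t` (a label or a star) satisfy the constraint with shift `c` -/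
def okp [Add Λ] (s t : Option Λ) (c : Λ) : Prop := ∀ a b, s = some a → t = some b → a + c = b

/-- the statuses `st` satisfy the constraint `e` -/
def oke [Add Λ] (st : U ⊕ W → Option Λ) (e : U × W × Λ) : Prop := okp (st (lft e)) (st (rgt e)) e.2.2

/-- the edges of `Z` at `p` with the other end in `V` -/
noncomputable def at_ (Z : Finset (U × W × Λ)) (V : Finset (U ⊕ W)) (p : U ⊕ W) :
    Finset (U × W × Λ) :=
  Z.filter fun e => (lft e = p ∧ rgt e ∈ V) ∨ (rgt e = p ∧ lft e ∈ V)

/-- the edges of `Z` inside `V` -/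
noncomputable def ind (Z : Finset (U × W × Λ)) (V : Finset (U ⊕ W)) : Finset (U × W × Λ) :=
  Z.filter fun e => lft e ∈ V ∧ rgt e ∈ V

theorem mem_at {Z : Finset (U × W × Λ)} {V : Finset (U ⊕ W)} {p : U ⊕ W} {e : U × W × Λ} :
    e ∈ at_ Z V p ↔ e ∈ Z ∧ ((lft e = p ∧ rgt e ∈ V) ∨ (rgt e = p ∧ lft e ∈ V)) := by
  simp [at_]

theorem mem_ind {Z : Finset (U × W × Λ)} {V : Finset (U ⊕ W)} {e : U × W × Λ} :
    e ∈ ind Z V ↔ e ∈ Z ∧ lft e ∈ V ∧ rgt e ∈ V := by
  simp [ind]

theorem at_mono {Z : Finset (U × W × Λ)} {V V' : Finset (U ⊕ W)} (h : V ⊆ V') (p : U ⊕ W) :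
    at_ Z V p ⊆ at_ Z V' p := by
  intro e he
  rw [mem_at] at he ⊢
  exact ⟨he.1, he.2.imp (fun h' => ⟨h'.1, h h'.2⟩) (fun h' => ⟨h'.1, h h'.2⟩)⟩

/-- the weight of an edge relative to the pinned set `V` -/
noncomputable def ew (V : Finset (U ⊕ W)) (e : U × W × Λ) : ℕ :=
  if lft e ∈ V then (if rgt e ∈ V then 0 else 10) else (if rgt e ∈ V then 10 else 16)

/-- the total weight of the edges of `Z` relative to the pinned set `V` -/
noncomputable def expo (Z : Finset (U × W × Λ)) (V : Finset (U ⊕ W)) : ℕ := ∑ e ∈ Z, ew V e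

/-- the stars and the noise edges -/
structure CutData (Z : Finset (U × W × Λ)) (P R S : Finset (U ⊕ W)) (N : Finset (U × W × Λ)) :
    Prop where
  SR : S ⊆ R
  NZ : N ⊆ Z
  mat : ∀ e ∈ N, ∀ e' ∈ N, e ≠ e' → lft e ≠ lft e' ∧ rgt e ≠ rgt e'
  NR : ∀ e ∈ N, lft e ∈ R \ S ∧ rgt e ∈ R \ S
  Ndeg : ∀ e ∈ N, 2 ≤ (at_ Z (R ∪ P) (lft e)).card ∧ 2 ≤ (at_ Z (R ∪ P) (rgt e)).card
  Sdeg : ∀ r ∈ S, 3 ≤ (at_ Z (R ∪ P) r).card ∨ 2 ≤ (at_ Z P r).card
  peel : ∀ V ⊆ R \ S, V.Nonempty → ∃ r ∈ V, ((at_ Z (V ∪ P) r) \ N).card ≤ 1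

theorem exists_cut (Z : Finset (U × W × Λ)) (P R : Finset (U ⊕ W)) :
    ∃ S N, CutData Z P R S N := by
  set C : Finset (U ⊕ W) := R.filter fun r => ∃ V ⊆ R, r ∈ V ∧ ∀ s ∈ V,
    2 ≤ (at_ Z (V ∪ P) s).card with hC
  have hCR : C ⊆ R := filter_subset _ _
  have hCdeg : ∀ r ∈ C, 2 ≤ (at_ Z (C ∪ P) r).card := by
    intro r hr
    obtain ⟨V, hV1, hV2, hV3⟩ := (mem_filter.1 hr).2
    refine (hV3 r hV2).trans (card_le_card (at_mono (union_subset_union ?_ subset_rfl) r))
    intro s hs
    exact mem_filter.2 ⟨hV1 hs, V, hV1, hs, hV3⟩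
  have hCmax : ∀ V ⊆ R, (∀ s ∈ V, 2 ≤ (at_ Z (V ∪ P) s).card) → V ⊆ C := by
    intro V hV1 hV2 s hs
    exact mem_filter.2 ⟨hV1 hs, V, hV1, hs, hV2⟩
  clear_value C
  set S : Finset (U ⊕ W) := C.filter fun r => 3 ≤ (at_ Z (C ∪ P) r).card ∨ 2 ≤ (at_ Z P r).card
    with hS
  have hSC : S ⊆ C := filter_subset _ _
  have hSmem : ∀ r ∈ C, r ∉ S → (at_ Z (C ∪ P) r).card ≤ 2 ∧ (at_ Z P r).card ≤ 1 := by
    intro r hr hrS
    by_contra hcon
    apply hrS
    refine mem_filter.2 ⟨hr, ?_⟩
    by_contra h'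
    push Not at h'
    exact hcon ⟨by omega, by omega⟩
  have hSdeg : ∀ r ∈ S, 3 ≤ (at_ Z (C ∪ P) r).card ∨ 2 ≤ (at_ Z P r).card :=
    fun r hr => (mem_filter.1 hr).2
  clear_value S
  -- maximal matching inside `C \ S`
  set E0 := ind Z (C \ S) with hE0
  have hex : ∃ N ∈ (E0.powerset.filter fun N => ∀ e ∈ N, ∀ e' ∈ N, e ≠ e' →
      lft e ≠ lft e' ∧ rgt e ≠ rgt e'), ∀ N' ∈ (E0.powerset.filter fun N => ∀ e ∈ N, ∀ e' ∈ N,
      e ≠ e' → lft e ≠ lft e' ∧ rgt e ≠ rgt e'), N'.card ≤ N.card := by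
    apply Finset.exists_max_image
    refine ⟨∅, mem_filter.2 ⟨mem_powerset.2 (empty_subset _), ?_⟩⟩
    intro e he
    exact absurd he (notMem_empty e)
  obtain ⟨N, hN, hNmax⟩ := hex
  obtain ⟨hN1, hN2⟩ := mem_filter.1 hN
  rw [mem_powerset] at hN1
  have hmaxi : ∀ e ∈ E0, e ∉ N → ∃ e' ∈ N, lft e = lft e' ∨ rgt e = rgt e' := by
    intro e he heN
    by_contra hcon
    push Not at hcon
    have h1 : insert e N ∈ (E0.powerset.filter fun N => ∀ e ∈ N, ∀ e' ∈ N, e ≠ e' →
      lft e ≠ lft e' ∧ rgt e ≠ rgt e') := by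
      refine mem_filter.2 ⟨mem_powerset.2 (insert_subset he hN1), ?_⟩
      intro x hx y hy hxy
      rw [mem_insert] at hx hy
      rcases hx with rfl | hx
      · rcases hy with rfl | hy
        · exact absurd rfl hxy
        · exact hcon y hy
      · rcases hy with rfl | hy
        · exact ⟨(hcon x hx).1.symm, (hcon x hx).2.symm⟩
        · exact hN2 x hx y hy hxy
    have h2 := hNmax _ h1
    rw [card_insert_of_notMem heN] at h2
    omega
  have hNends : ∀ e ∈ N, e ∈ Z ∧ lft e ∈ C ∧ lft e ∉ S ∧ rgt e ∈ C ∧ rgt e ∉ S := by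
    intro e he
    have h := mem_ind.1 (hN1 he)
    rw [mem_sdiff, mem_sdiff] at h
    exact ⟨h.1, h.2.1.1, h.2.1.2, h.2.2.1, h.2.2.2⟩
  refine ⟨S, N, ⟨hSC.trans hCR, fun e he => (hNends e he).1, hN2, ?_, ?_, ?_, ?_⟩⟩
  · intro e he
    obtain ⟨-, h1, h2, h3, h4⟩ := hNends e he
    exact ⟨mem_sdiff.2 ⟨hCR h1, h2⟩, mem_sdiff.2 ⟨hCR h3, h4⟩⟩
  · intro e he
    obtain ⟨-, h1, h2, h3, h4⟩ := hNends e he
    exact ⟨(hCdeg _ h1).trans (card_le_card (at_mono (union_subset_union hCR subset_rfl) _)),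
      (hCdeg _ h3).trans (card_le_card (at_mono (union_subset_union hCR subset_rfl) _))⟩
  · intro r hr
    exact (hSdeg r hr).imp (fun h => h.trans (card_le_card
      (at_mono (union_subset_union hCR subset_rfl) _))) id
  · intro V hV hne
    by_contra hcon
    push Not at hcon
    have hVR : V ⊆ R := hV.trans sdiff_subset
    have hV2 : ∀ s ∈ V, 2 ≤ (at_ Z (V ∪ P) s \ N).card := fun s hs => hcon s hs
    have hVC : V ⊆ C := hCmax V hVR fun s hs => (hV2 s hs).trans (card_le_card sdiff_subset)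
    have hVS : ∀ s ∈ V, s ∉ S := fun s hs => (mem_sdiff.1 (hV hs)).2
    obtain ⟨r0, hr0⟩ := hne
    -- an edge inside `V`
    have hin : ∃ e ∈ at_ Z (V ∪ P) r0 \ N, lft e ∈ V ∧ rgt e ∈ V := by
      by_contra hno
      push Not at hno
      have hsub : at_ Z (V ∪ P) r0 \ N ⊆ at_ Z P r0 := by
        intro e he
        have h1 := (mem_sdiff.1 he).1
        rw [mem_at] at h1 ⊢
        refine ⟨h1.1, ?_⟩
        rcases h1.2 with h2 | h2
        · refine Or.inl ⟨h2.1, ?_⟩
          rcases mem_union.1 h2.2 with h3 | h3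
          · exact absurd h3 (hno e he (by rw [h2.1]; exact hr0))
          · exact h3
        · refine Or.inr ⟨h2.1, ?_⟩
          rcases mem_union.1 h2.2 with h3 | h3
          · exact absurd (by rw [h2.1]; exact hr0) (hno e he h3)
          · exact h3
      have h3 := (hV2 r0 hr0).trans (card_le_card hsub)
      have h4 := (hSmem r0 (hVC hr0) (hVS r0 hr0)).2
      omega
    obtain ⟨e1, he1, hl1, hr1⟩ := hin
    obtain ⟨he1a, he1N⟩ := mem_sdiff.1 he1
    have he1Z : e1 ∈ Z := (mem_at.1 he1a).1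
    have he1E : e1 ∈ E0 := by
      rw [hE0, mem_ind]
      exact ⟨he1Z, mem_sdiff.2 ⟨hVC hl1, hVS _ hl1⟩, mem_sdiff.2 ⟨hVC hr1, hVS _ hr1⟩⟩
    obtain ⟨e2, he2, hsh⟩ := hmaxi e1 he1E he1N
    obtain ⟨he2Z, hc1, -, hc2, -⟩ := hNends e2 he2
    -- a vertex of `V` with three core edges
    have key : ∀ r ∈ V, e2 ∈ at_ Z (C ∪ P) r → False := by
      intro r hr he2r
      have h1 := hV2 r hr
      have h2 : insert e2 (at_ Z (V ∪ P) r \ N) ⊆ at_ Z (C ∪ P) r := by
        apply insert_subset he2r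
        exact sdiff_subset.trans (at_mono (union_subset_union hVC subset_rfl) r)
      have h3 := card_le_card h2
      rw [card_insert_of_notMem (by simp [he2])] at h3
      have h4 := (hSmem r (hVC hr) (hVS r hr)).1
      omega
    rcases hsh with h | h
    · exact key (lft e1) hl1 (mem_at.2 ⟨he2Z, Or.inl ⟨h.symm, mem_union_left _ hc2⟩⟩)
    · exact key (rgt e1) hr1 (mem_at.2 ⟨he2Z, Or.inr ⟨h.symm, mem_union_left _ hc1⟩⟩)

/-- the labelling of the new positions -/
theorem exists_ext [AddGroup Λ] {Z : Finset (U × W × Λ)} {P R S : Finset (U ⊕ W)}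
    {N : Finset (U × W × Λ)} (hd : CutData Z P R S N) (hPR : Disjoint P R)
    (st0 : U ⊕ W → Option Λ) :
    ∃ st : U ⊕ W → Option Λ, (∀ p ∈ P, st p = st0 p) ∧ (∀ r ∈ S, st r = none) ∧
      (∀ r ∈ R \ S, (st r).isSome) ∧
      ∀ e ∈ Z, e ∉ N → lft e ∈ P ∪ R → rgt e ∈ P ∪ R → ¬ (lft e ∈ P ∧ rgt e ∈ P) → oke st e := by
  have key : ∀ (n : ℕ) (V : Finset (U ⊕ W)), V.card = n → V ⊆ R \ S →
      ∃ st : U ⊕ W → Option Λ, (∀ p ∉ V, st p = if p ∈ S then none else st0 p) ∧
        (∀ r ∈ V, (st r).isSome) ∧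
        ∀ e ∈ Z, e ∉ N → ((lft e ∈ V ∧ rgt e ∈ V ∪ P) ∨ (rgt e ∈ V ∧ lft e ∈ V ∪ P)) → oke st e := by
    intro n
    induction n with
    | zero =>
      intro V hV _
      rw [card_eq_zero] at hV
      subst hV
      refine ⟨fun p => if p ∈ S then none else st0 p, fun _ _ => rfl, ?_, ?_⟩
      · intro r hr; exact absurd hr (notMem_empty r)
      · intro e _ _ h
        rcases h with h | h
        · exact absurd h.1 (notMem_empty _)
        · exact absurd h.1 (notMem_empty _)
    | succ n ih =>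
      intro V hV hVR
      have hne : V.Nonempty := by
        rw [← card_pos]; omega
      obtain ⟨r, hr, hcard⟩ := hd.peel V hVR hne
      obtain ⟨st', h1, h2, h3⟩ := ih (V.erase r) (by rw [card_erase_of_mem hr]; omega)
        ((erase_subset _ _).trans hVR)
      have hrP : r ∉ P := by
        intro h
        exact (disjoint_left.1 hPR h) (mem_sdiff.1 (hVR hr)).1
      -- it is enough to choose the status of `r`
      have main : ∀ x : Option Λ, x.isSome → (∀ e ∈ at_ Z (V ∪ P) r \ N,
          oke (Function.update st' r x) e) →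
          ∃ st : U ⊕ W → Option Λ, (∀ p ∉ V, st p = if p ∈ S then none else st0 p) ∧
        (∀ r ∈ V, (st r).isSome) ∧
        ∀ e ∈ Z, e ∉ N → ((lft e ∈ V ∧ rgt e ∈ V ∪ P) ∨ (rgt e ∈ V ∧ lft e ∈ V ∪ P)) →
          oke st e := by
        intro x hx hxe
        refine ⟨Function.update st' r x, ?_, ?_, ?_⟩
        · intro p hp
          have hpr : p ≠ r := fun h => hp (h ▸ hr)
          rw [Function.update_of_ne hpr]
          exact h1 p fun h => hp (mem_of_mem_erase h)
        · intro s hs
          by_cases hsr : s = r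
          · subst hsr; rw [Function.update_self]; exact hx
          · rw [Function.update_of_ne hsr]
            exact h2 s (mem_erase.2 ⟨hsr, hs⟩)
        · intro e heZ heN he
          by_cases hl : lft e = r
          · apply hxe
            refine mem_sdiff.2 ⟨mem_at.2 ⟨heZ, Or.inl ⟨hl, ?_⟩⟩, heN⟩
            rcases he with h | h
            · exact h.2
            · exact mem_union_left _ h.1
          · by_cases hr' : rgt e = r
            · apply hxe
              refine mem_sdiff.2 ⟨mem_at.2 ⟨heZ, Or.inr ⟨hr', ?_⟩⟩, heN⟩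
              rcases he with h | h
              · exact mem_union_left _ h.1
              · exact h.2
            · have h4 := h3 e heZ heN (by
                rcases he with h | h
                · refine Or.inl ⟨mem_erase.2 ⟨hl, h.1⟩, ?_⟩
                  rcases mem_union.1 h.2 with h5 | h5
                  · exact mem_union_left _ (mem_erase.2 ⟨hr', h5⟩)
                  · exact mem_union_right _ h5
                · refine Or.inr ⟨mem_erase.2 ⟨hr', h.1⟩, ?_⟩
                  rcases mem_union.1 h.2 with h5 | h5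
                  · exact mem_union_left _ (mem_erase.2 ⟨hl, h5⟩)
                  · exact mem_union_right _ h5)
              unfold oke at h4 ⊢
              rw [Function.update_of_ne hl, Function.update_of_ne hr']
              exact h4
      rcases (at_ Z (V ∪ P) r \ N).eq_empty_or_nonempty with hemp | ⟨e0, hmem⟩
      · refine main (some 0) rfl ?_
        intro e he
        rw [hemp] at he
        exact absurd he (notMem_empty e)
      · have he0 : ∀ {e}, e ∈ at_ Z (V ∪ P) r \ N → e = e0 := fun he =>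
          Finset.card_le_one.1 hcard _ he _ hmem
        have hat := (mem_at.1 (mem_sdiff.1 hmem).1).2
        rcases hat with ⟨hl, hv⟩ | ⟨hl, hv⟩
        · -- `r` is the left end
          have hne' : rgt e0 ≠ r := by rw [← hl]; exact rgt_ne_lft _ _
          rcases hs : st' (rgt e0) with _ | b
          · refine main (some 0) rfl ?_
            intro e he
            have : e = e0 := he0 he
            subst this
            intro a b' _ hb
            rw [Function.update_of_ne hne', hs] at hb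
            exact absurd hb (by simp)
          · refine main (some (b - e0.2.2)) rfl ?_
            intro e he
            have : e = e0 := he0 he
            subst this
            intro a b' ha hb
            rw [hl, Function.update_self] at ha
            rw [Function.update_of_ne hne', hs] at hb
            simp only [Option.some.injEq] at ha hb
            rw [← ha, ← hb, sub_add_cancel]
        · have hne' : lft e0 ≠ r := by rw [← hl]; exact lft_ne_rgt _ _
          rcases hs : st' (lft e0) with _ | b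
          · refine main (some 0) rfl ?_
            intro e he
            have : e = e0 := he0 he
            subst this
            intro a b' ha _
            rw [Function.update_of_ne hne', hs] at ha
            exact absurd ha (by simp)
          · refine main (some (b + e0.2.2)) rfl ?_
            intro e he
            have : e = e0 := he0 he
            subst this
            intro a b' ha hb
            rw [hl, Function.update_self] at hb
            rw [Function.update_of_ne hne', hs] at ha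
            simp only [Option.some.injEq] at ha hb
            rw [← ha, ← hb]
  obtain ⟨st, h1, h2, h3⟩ := key _ (R \ S) rfl subset_rfl
  refine ⟨st, ?_, ?_, h2, ?_⟩
  · intro p hp
    have hpR : p ∉ R := disjoint_left.1 hPR hp
    rw [h1 p fun h => hpR (mem_sdiff.1 h).1, if_neg fun h => hpR (hd.SR h)]
  · intro r hr
    rw [h1 r fun h => (mem_sdiff.1 h).2 hr, if_pos hr]
  · intro e heZ heN hl hr hnb
    by_cases hlS : lft e ∈ S
    · intro a b ha _
      rw [h1 _ fun h => (mem_sdiff.1 h).2 hlS, if_pos hlS] at ha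
      exact absurd ha (by simp)
    by_cases hrS : rgt e ∈ S
    · intro a b _ hb
      rw [h1 _ fun h => (mem_sdiff.1 h).2 hrS, if_pos hrS] at hb
      exact absurd hb (by simp)
    apply h3 e heZ heN
    rcases mem_union.1 hl with h | h
    · rcases mem_union.1 hr with h' | h'
      · exact absurd ⟨h, h'⟩ hnb
      · exact Or.inr ⟨mem_sdiff.2 ⟨h', hrS⟩, mem_union_right _ h⟩
    · rcases mem_union.1 hr with h' | h'
      · exact Or.inl ⟨mem_sdiff.2 ⟨h, hlS⟩, mem_union_right _ h'⟩
      · exact Or.inl ⟨mem_sdiff.2 ⟨h, hlS⟩, mem_union_left _ (mem_sdiff.2 ⟨h', hrS⟩)⟩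

end

end Pool.Agent.W906.MU
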