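import Pool.Agent.W906.MU.Final
import Pool.Agent.W906.MU.Perfect

/-! # Approximating the least number of violated constraints (helper906) -/

open scoped Classical
open Finset

namespace Pool.Agent.W906.MU

/-- `v` is at least the least number of constraints of `I` violated by a labelling, and at most `ρ`
times this number -/
def ApproxMin {N q : ℕ} (ρ : ℝ) (I : Game N q) (v : ℝ) : Prop :=
  (∃ f g, ((I.filter fun e => ¬ Sat f g e).card : ℝ) ≤ v) ∧
    ∀ f g, v ≤ ρ * (I.filter fun e => ¬ Sat f g e).card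

/-- approximating the least number of violated constraints within a small power of `N` needs
large circuits -/
theorem approx_lower (q : ℕ) (hq : 2 ≤ q) :
    ∃ N0 : ℕ, ∀ N : ℕ, N0 ≤ N → ∀ (Ω : Type) [Fintype Ω] [Nonempty Ω]
      (l : Ω → List (Game N q → ℝ)), (∀ ω, Prog (inputs N q) (l ω)) →
      ∀ out : Ω → Game N q → ℝ, (∀ ω, out ω ∈ l ω) →
      (∀ I, 2 * Fintype.card Ω ≤ 3 * (univ.filter fun ω =>
        ApproxMin ((N : ℝ) ^ (1 / 140 : ℝ)) I (out ω I)).card) →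
      ∃ ω, (2 : ℝ) ^ ((N : ℝ) ^ (1 / 139 : ℝ)) ≤ (l ω).length := by
  have hδ : 1 / (q : ℝ) < 3 / 4 := by
    have : (2 : ℝ) ≤ q := by exact_mod_cast hq
    rw [div_lt_div_iff₀ (by linarith) (by norm_num)]
    linarith
  obtain ⟨N0, hN0⟩ := lower q (by omega) (3 / 4) hδ
  obtain ⟨k, hk⟩ : ∃ k : ℕ, k = 19460 := ⟨_, rfl⟩
  have hkR : (k : ℝ) = 19460 := by rw [hk]; norm_num
  refine ⟨max N0 (4 ^ k + 1), fun N hN Ω _ _ l hl out hout happ => ?_⟩
  obtain ⟨m, hm, h⟩ := hN0 N ((le_max_left _ _).trans hN)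
  have hNbig : 4 ^ k < N := (le_max_right N0 (4 ^ k + 1)).trans hN
  have hN1 : (0 : ℝ) < N := by
    have : 0 < N := lt_of_le_of_lt (Nat.zero_le _) hNbig
    exact_mod_cast this
  have hm0 : (0 : ℝ) < m := by exact_mod_cast hm
  -- the gap
  have hgap : (N : ℝ) ^ (1 / 140 : ℝ) * (N : ℝ) ^ (-(1 / 139) : ℝ) < 1 / 4 := by
    rw [← Real.rpow_add hN1]
    have e1 : (1 / 140 + -(1 / 139) : ℝ) = -(1 / k) := by rw [hkR]; norm_num
    rw [e1, Real.rpow_neg hN1.le, one_div (4 : ℝ)]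
    apply inv_strictAnti₀ (by norm_num)
    have h1 : ((4 : ℝ) ^ k) < N := by exact_mod_cast hNbig
    have hk0 : (0 : ℝ) < k := by rw [hkR]; norm_num
    have h2 : ((4 : ℝ) ^ k) ^ (1 / k : ℝ) < (N : ℝ) ^ (1 / k : ℝ) :=
      Real.rpow_lt_rpow (by positivity) h1 (by positivity)
    have h3 : ((4 : ℝ) ^ k) ^ (1 / k : ℝ) = 4 := by
      rw [← Real.rpow_natCast, ← Real.rpow_mul (by norm_num), mul_one_div_cancel hk0.ne',
        Real.rpow_one]
    rwa [h3] at h2
  refine h _ le_rfl Ω l hl ⟨out, fun _ => (m : ℝ) / 4, hout, fun I hI => ?_, fun I hI => ?_⟩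
  · refine (happ I).trans (Nat.mul_le_mul_left _ (card_le_card fun ω hω => ?_))
    obtain ⟨⟨f, g, hfg⟩, -⟩ := (mem_filter.1 hω).2
    refine mem_filter.2 ⟨mem_univ _, le_trans ?_ hfg⟩
    have h1 := hI.2 f g
    have h2 : ((I.filter fun e => Sat f g e).card : ℝ) +
        ((I.filter fun e => ¬ Sat f g e).card : ℝ) = m := by
      have := Finset.card_filter_add_card_filter_not (s := I) (p := fun e => Sat f g e)
      rw [hI.1] at this
      exact_mod_cast this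
    linarith
  · refine (happ I).trans (Nat.mul_le_mul_left _ (card_le_card fun ω hω => ?_))
    obtain ⟨-, h1⟩ := (mem_filter.1 hω).2
    obtain ⟨-, f, g, hfg⟩ := hI
    refine mem_filter.2 ⟨mem_univ _, (h1 f g).trans_lt ?_⟩
    have hr : (0 : ℝ) ≤ (N : ℝ) ^ (1 / 140 : ℝ) := Real.rpow_nonneg hN1.le _
    calc (N : ℝ) ^ (1 / 140 : ℝ) * ((I.filter fun e => ¬ Sat f g e).card : ℝ)
        ≤ (N : ℝ) ^ (1 / 140 : ℝ) * ((N : ℝ) ^ (-(1 / 139) : ℝ) * m) :=
          mul_le_mul_of_nonneg_left hfg hr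
      _ = ((N : ℝ) ^ (1 / 140 : ℝ) * (N : ℝ) ^ (-(1 / 139) : ℝ)) * m := by ring
      _ < 1 / 4 * m := mul_lt_mul_of_pos_right hgap hm0
      _ = (m : ℝ) / 4 := by ring

end Pool.Agent.W906.MU
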