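import Pool.Agent.W906.MU.Emb

/-! # The lower bound for given parameters (helper906) -/

open scoped Classical
open Finset

namespace Pool.Agent.W906.MU

theorem KR_of {U W Λ : Type} [Fintype U] [Fintype W] [Fintype Λ] [AddGroup Λ] (l M Q Qs Qn : ℕ)
    (Av b : ℝ) (hl : 1 ≤ l) (hQ : 1 ≤ Q) (hQs : 1 ≤ Qs)
    (hQn : 1 ≤ Qn) (h1 : 8 * (l : ℝ) * Q ≤ Av) (h2 : 8 * (l : ℝ) * Qs ≤ Av * b ^ 18)
    (h3 : 8 * (l : ℝ) * Qn ≤ b ^ 27) (hb : 2 * (l : ℝ) ^ 2 * Fintype.card Λ ≤ b) (hb1 : 1 ≤ b) :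
    KR U W Λ M Q Qs Qn l Av (b ^ 16) := by
  intro lam hc v F hF
  have h := kraft l M Q Qs Qn Av b hl hQ hQs hQn h1 h2 h3 hb hb1 lam hc v ∅ ∅ F fun T hT => by
    obtain ⟨a1, a2, a3, a4⟩ := hF T hT
    refine ⟨a1, a2, a3, empty_subset _, ?_, ?_⟩
    · rw [Finset.eq_empty_iff_forall_notMem]
      intro e he
      exact notMem_empty _ (mem_ind.1 he).2.1
    · rw [sdiff_empty]
      exact a4
  refine le_trans (le_of_eq (Finset.sum_congr rfl fun T _ => ?_)) h
  have e1 : expo T.1 ∅ = 16 * T.1.card := by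
    unfold expo
    rw [Finset.sum_congr rfl (g := fun _ => 16)]
    · rw [sum_const, smul_eq_mul, mul_comm]
    · intro e _
      unfold ew
      rw [if_neg (notMem_empty _), if_neg (notMem_empty _)]
  rw [e1, pow_mul]

/-- averaging over a randomised circuit -/
theorem average {Ω X S : Type} [Fintype Ω] [Nonempty Ω] [Fintype X] [Fintype S] [Nonempty X]
    [Nonempty S] (P : Ω → X → Prop) (P' : Ω → S → Prop) (GX : X → Prop) (GS : S → Prop)
    (hGX : 8 * ((univ.filter fun x => ¬ GX x).card : ℝ) ≤ Fintype.card X)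
    (hGS : 8 * ((univ.filter fun x => ¬ GS x).card : ℝ) ≤ Fintype.card S)
    (h1 : ∀ x, GX x → 2 * Fintype.card Ω ≤ 3 * (univ.filter fun ω => P ω x).card)
    (h2 : ∀ x, GS x → 2 * Fintype.card Ω ≤ 3 * (univ.filter fun ω => P' ω x).card) :
    ∃ ω, (1 / 12 * (Fintype.card X : ℝ) < (univ.filter fun x => P ω x).card) ∧
      1 / 12 * (Fintype.card S : ℝ) < (univ.filter fun x => P' ω x).card := by
  have key : ∀ (X : Type) [Fintype X] [Nonempty X] (P : Ω → X → Prop) (GX : X → Prop),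
      8 * ((univ.filter fun x => ¬ GX x).card : ℝ) ≤ Fintype.card X →
      (∀ x, GX x → 2 * Fintype.card Ω ≤ 3 * (univ.filter fun ω => P ω x).card) →
      7 / 12 * (Fintype.card Ω : ℝ) ≤
        ∑ ω, ((univ.filter fun x => P ω x).card : ℝ) / Fintype.card X := by
    intro X _ _ P GX hGX h1
    have hX0 : (0 : ℝ) < Fintype.card X := by exact_mod_cast Fintype.card_pos
    have e1 : ∑ ω, ((univ.filter fun x => P ω x).card : ℝ) =
        ∑ x, ((univ.filter fun ω => P ω x).card : ℝ) := by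
      have e2 : ∀ ω, ((univ.filter fun x => P ω x).card : ℝ) = ∑ x, if P ω x then 1 else 0 := by
        intro ω
        rw [← Finset.sum_filter, sum_const, nsmul_eq_mul, mul_one]
      have e3 : ∀ x, ((univ.filter fun ω => P ω x).card : ℝ) = ∑ ω, if P ω x then 1 else 0 := by
        intro x
        rw [← Finset.sum_filter, sum_const, nsmul_eq_mul, mul_one]
      simp only [e2, e3]
      exact Finset.sum_comm
    have e4 : (2 / 3 * (Fintype.card Ω : ℝ)) * ((univ.filter fun x => GX x).card : ℝ) ≤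
        ∑ x, ((univ.filter fun ω => P ω x).card : ℝ) := by
      calc _ = ∑ x ∈ univ.filter fun x => GX x, 2 / 3 * (Fintype.card Ω : ℝ) := by
            rw [sum_const, nsmul_eq_mul, mul_comm]
        _ ≤ ∑ x ∈ univ.filter fun x => GX x, ((univ.filter fun ω => P ω x).card : ℝ) := by
            refine Finset.sum_le_sum fun x hx => ?_
            have h := h1 x (mem_filter.1 hx).2
            have h' : 2 * (Fintype.card Ω : ℝ) ≤ 3 * ((univ.filter fun ω => P ω x).card : ℝ) := by
              exact_mod_cast h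
            linarith
        _ ≤ _ := Finset.sum_le_sum_of_subset_of_nonneg (subset_univ _)
            fun _ _ _ => Nat.cast_nonneg _
    have e5 : ((univ.filter fun x => GX x).card : ℝ) + ((univ.filter fun x => ¬ GX x).card : ℝ) =
        Fintype.card X := by
      have := Finset.card_filter_add_card_filter_not (s := (univ : Finset X)) (p := GX)
      rw [card_univ] at this
      exact_mod_cast this
    have e6 : 7 / 8 * (Fintype.card X : ℝ) ≤ ((univ.filter fun x => GX x).card : ℝ) := by linarith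
    rw [← Finset.sum_div, e1, le_div_iff₀ hX0]
    have hΩ0 : (0 : ℝ) ≤ Fintype.card Ω := Nat.cast_nonneg _
    calc 7 / 12 * (Fintype.card Ω : ℝ) * Fintype.card X
        = (2 / 3 * (Fintype.card Ω : ℝ)) * (7 / 8 * (Fintype.card X : ℝ)) := by ring
      _ ≤ (2 / 3 * (Fintype.card Ω : ℝ)) * ((univ.filter fun x => GX x).card : ℝ) :=
          mul_le_mul_of_nonneg_left e6 (by positivity)
      _ ≤ _ := e4
  have k1 := key X P GX hGX h1
  have k2 := key S P' GS hGS h2
  by_contra hcon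
  push Not at hcon
  have hΩ0 : (0 : ℝ) < Fintype.card Ω := by exact_mod_cast Fintype.card_pos
  have hX0 : (0 : ℝ) < Fintype.card X := by exact_mod_cast Fintype.card_pos
  have hS0 : (0 : ℝ) < Fintype.card S := by exact_mod_cast Fintype.card_pos
  have k3 : ∀ ω, ((univ.filter fun x => P ω x).card : ℝ) / Fintype.card X +
      ((univ.filter fun x => P' ω x).card : ℝ) / Fintype.card S ≤ 13 / 12 := by
    intro ω
    have a1 : ((univ.filter fun x => P ω x).card : ℝ) / Fintype.card X ≤ 1 := by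
      rw [div_le_one hX0]
      exact_mod_cast card_le_univ _
    have a2 : ((univ.filter fun x => P' ω x).card : ℝ) / Fintype.card S ≤ 1 := by
      rw [div_le_one hS0]
      exact_mod_cast card_le_univ _
    rcases le_or_gt ((univ.filter fun x => P ω x).card : ℝ) (1 / 12 * (Fintype.card X : ℝ))
      with h | h
    · have a3 : ((univ.filter fun x => P ω x).card : ℝ) / Fintype.card X ≤ 1 / 12 := by
        rw [div_le_iff₀ hX0]
        exact h
      linarith
    · have h' := hcon ω h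
      have a3 : ((univ.filter fun x => P' ω x).card : ℝ) / Fintype.card S ≤ 1 / 12 := by
        rw [div_le_iff₀ hS0]
        exact h'
      linarith
  have k4 : ∑ ω, (((univ.filter fun x => P ω x).card : ℝ) / Fintype.card X +
      ((univ.filter fun x => P' ω x).card : ℝ) / Fintype.card S) ≤ 13 / 12 * Fintype.card Ω := by
    calc _ ≤ ∑ _ω : Ω, (13 / 12 : ℝ) := Finset.sum_le_sum fun ω _ => k3 ω
      _ = _ := by rw [sum_const, card_univ, nsmul_eq_mul, mul_comm]
  rw [Finset.sum_add_distrib] at k4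
  nlinarith

theorem core {N q m : ℕ} [NeZero q] {A D E K : Type} [Fintype A] [Fintype D] [Fintype E]
    [Fintype K] [Nonempty A] [Nonempty D] [Nonempty E] [Nonempty K] {L M Q Qs Qn : ℕ}
    {Av B δ t ε x y z : ℝ}
    (hm : m = Fintype.card A * Fintype.card D) (hDA : Fintype.card D ≤ Fintype.card A)
    (hAE : Fintype.card A = Fintype.card D * Fintype.card E)
    (hN : Fintype.card A * Fintype.card K + Fintype.card A ≤ N)
    (hL : 3 ≤ L) (hM : 1 ≤ M) (hQ : 1 ≤ Q) (hQs : Q ≤ Qs) (hQn : 1 ≤ Qn)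
    (hAv : 0 < Av) (hB : 0 < B)
    (hKR : KR (A × K) ((D × E) × K) (Fin q) M Q Qs Qn (2 * L) Av B)
    (hA : 16 * Av ≤ Fintype.card K) (hBq : 16 * B ≤ Fintype.card E * q) (ht : 1 ≤ t)
    (hval : 8 * ((q : ℝ) ^ (Fintype.card A + Fintype.card D * Fintype.card E) *
      (((q : ℝ) - 1 + t) / (q * t ^ δ)) ^ (Fintype.card A * Fintype.card D)) ≤ 1)
    (hx : (M : ℝ) / Q = x) (hy : (M : ℝ) / Qs = y) (hz : (M : ℝ) / Qn = z)
    (hvio : 8 * ((Fintype.card A * Fintype.card K : ℝ) * (Fintype.card A * Fintype.card K) *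
        (4 * (q : ℝ) ^ 3 * x ^ 2 * z +
        4 * (q : ℝ) ^ 2 * x * y + 2 * (q : ℝ) ^ 3 * x ^ 3)) ≤ m / L)
    (hMs : 60 * 2 ^ L * (Fintype.card (It (A × K) ((D × E) × K) (Fin q)) + 1) ^ (2 * L) ≤ 2 ^ M)
    (hε : 1 / (L : ℝ) ≤ ε) (Ω : Type) [Fintype Ω] [Nonempty Ω] (l : Ω → List (Game N q → ℝ))
    (hl : ∀ ω, Prog (inputs N q) (l ω)) (hsep : Separates m δ ε l) :
    ∃ ω, 2 ^ L ≤ (l ω).length := by
  have hDn : 0 < Fintype.card D := Fintype.card_pos
  have hAn : 0 < Fintype.card A := Fintype.card_pos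
  have hq0 : 0 < q := Nat.pos_of_ne_zero (NeZero.ne q)
  -- embeddings
  obtain ⟨iU, hU⟩ : ∃ iU : (A × K) ⊕ A → Fin N, Function.Injective iU := by
    have : Nonempty (((A × K) ⊕ A) ↪ Fin N) := by
      apply Function.Embedding.nonempty_of_card_le
      rw [Fintype.card_sum, Fintype.card_prod, Fintype.card_fin]
      exact hN
    obtain ⟨i⟩ := this
    exact ⟨i, i.injective⟩
  obtain ⟨iW, hW⟩ : ∃ iW : ((D × E) × K) ⊕ A → Fin N, Function.Injective iW := by
    have : Nonempty ((((D × E) × K) ⊕ A) ↪ Fin N) := by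
      apply Function.Embedding.nonempty_of_card_le
      rw [Fintype.card_sum, Fintype.card_prod, Fintype.card_prod, Fintype.card_fin, ← hAE]
      exact hN
    obtain ⟨i⟩ := this
    exact ⟨i, i.injective⟩
  obtain ⟨out, τ, hout, hno, hyes⟩ := hsep
  by_contra hcon
  push Not at hcon
  set posI : XX A D E K (Fin q) → Game N q := fun x => gp iU iW (trx x).1 with hposI
  set negI : Smp (A × K) ((D × E) × K) (Fin q) M Q Qs Qn → Game N q := fun ω =>
    gn iU iW (univ.filter fun e => Der (marked ω) e) with hnegI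
  have hmR : (m : ℝ) = (Fintype.card A : ℝ) * Fintype.card D := by rw [hm]; push_cast; rfl
  have hm0 : (0 : ℝ) < m := by rw [hmR]; positivity
  have hL0 : (0 : ℝ) < L := by
    have : 0 < L := by omega
    exact_mod_cast this
  -- good tests
  have hSne : Nonempty (Smp (A × K) ((D × E) × K) (Fin q) M Q Qs Qn) := by
    refine ⟨fun _ j => ⟨0, ?_⟩⟩
    rcases j with ⟨p, _ | a⟩ | e
    · exact hQ.trans hQs
    · exact hQ
    · exact hQn
  have hXne : Nonempty (XX A D E K (Fin q)) :=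
    ⟨(fun _ => Classical.arbitrary K, fun _ => (Classical.arbitrary E, 0))⟩
  have hcardq : (Fintype.card (Fin q) : ℝ) = q := by rw [Fintype.card_fin]
  obtain ⟨GX, hGX⟩ : ∃ GX : XX A D E K (Fin q) → Prop, ∀ x, GX x ↔
      ∀ f : (A × K) ⊕ ((D × E) × K) → Fin q,
      (((trx x).1.filter fun e => SatE f e).card : ℝ) ≤ δ * m := ⟨_, fun _ => Iff.rfl⟩
  obtain ⟨GS, hGS⟩ : ∃ GS : Smp (A × K) ((D × E) × K) (Fin q) M Q Qs Qn → Prop,
      ∀ s, GS s ↔ ((vio (marked s)).card : ℝ) ≤ m / L := ⟨_, fun _ => Iff.rfl⟩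
  obtain ⟨P, hP⟩ : ∃ P : Ω → XX A D E K (Fin q) → Prop, ∀ ω x, P ω x ↔ τ ω ≤ out ω (posI x) :=
    ⟨_, fun _ _ => Iff.rfl⟩
  obtain ⟨P', hP'⟩ : ∃ P' : Ω → Smp (A × K) ((D × E) × K) (Fin q) M Q Qs Qn → Prop,
      ∀ ω s, P' ω s ↔ out ω (negI s) < τ ω := ⟨_, fun _ _ => Iff.rfl⟩
  have hgood1 : 8 * ((univ.filter fun x : XX A D E K (Fin q) => ¬ GX x).card : ℝ) ≤
      Fintype.card (XX A D E K (Fin q)) := by
    have h1 := no_value (A := A) (D := D) (E := E) (K := K) (Λ := Fin q) δ t ht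
    rw [hcardq] at h1
    have h2 : ((univ.filter fun x : XX A D E K (Fin q) => ¬ GX x).card : ℝ) ≤
      (q : ℝ) ^ (Fintype.card A + Fintype.card D * Fintype.card E) *
      (((q : ℝ) - 1 + t) / (q * t ^ δ)) ^
        (Fintype.card A * Fintype.card D) * Fintype.card (XX A D E K (Fin q)) := by
      refine le_trans (le_of_eq ?_) h1
      rw [cf univ _ _ _ _ (fun x => ?_)]
      rw [hGX, hmR]
      push Not
      rfl
    have hX0 : (0 : ℝ) ≤ Fintype.card (XX A D E K (Fin q)) := Nat.cast_nonneg _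
    calc _ ≤ 8 * ((q : ℝ) ^ (Fintype.card A + Fintype.card D * Fintype.card E) *
      (((q : ℝ) - 1 + t) / (q * t ^ δ)) ^
        (Fintype.card A * Fintype.card D) * Fintype.card (XX A D E K (Fin q))) := by linarith
      _ = 8 * ((q : ℝ) ^ (Fintype.card A + Fintype.card D * Fintype.card E) *
      (((q : ℝ) - 1 + t) / (q * t ^ δ)) ^
        (Fintype.card A * Fintype.card D)) * Fintype.card (XX A D E K (Fin q)) := by ring
      _ ≤ 1 * Fintype.card (XX A D E K (Fin q)) := mul_le_mul_of_nonneg_right hval hX0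
      _ = _ := one_mul _
  have hgood2 : 8 * ((univ.filter fun ω : Smp (A × K) ((D × E) × K) (Fin q) M Q Qs Qn =>
      ¬ GS ω).card : ℝ) ≤ Fintype.card (Smp (A × K) ((D × E) × K) (Fin q) M Q Qs Qn) := by
    have h1 := vio_most (U := A × K) (W := (D × E) × K) (Λ := Fin q) M Q Qs Qn hQ hQs hQn x y z
      ((m : ℝ) / L) hx hy hz (by positivity) (by
        rw [hcardq, Fintype.card_prod, Fintype.card_prod, Fintype.card_prod D E, ← hAE]
        push_cast
        exact hvio)
    refine le_trans (le_of_eq ?_) h1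
    rw [cf univ _ _ _ _ (fun s => ?_)]
    rw [hGS, not_le]
  obtain ⟨ω, hω1, hω2⟩ := average P P' GX GS hgood1 hgood2
    (by
      intro x hx'
      have h := hno (posI x) (no_gp hU hW (by rw [card_trx1, hm]) ((hGX x).1 hx'))
      rwa [cf univ _ _ _ _ (fun ω => (hP ω x).symm)] at h)
    (by
      intro s hs
      have h := hyes (negI s) (yes_gn hU hW (by
        rw [hm]
        exact Nat.mul_le_mul_left _ hDA) _ (by
        refine ((hGS s).1 hs).trans ?_
        rw [div_eq_mul_one_div, mul_comm]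
        exact mul_le_mul_of_nonneg_right hε hm0.le))
      rwa [cf univ _ _ _ _ (fun ω => (hP' ω s).symm)] at h)
  have hlen := hcon ω
  have hlenR : ((l ω).length : ℝ) ≤ 2 ^ L := by exact_mod_cast hlen.le
  rcases comb hAv hB hM hQ (hQ.trans hQs) hQn hKR trx
    (TR_trx Av B hAv.le hB.le hA (by rw [hcardq]; exact hBq)) posI negI
    (inputs N q) (fun g hg => raw_inputs hU hW M Q Qs Qn (2 * L) (2 * L) (by omega) trx valid_trx
      g hg) (l ω) (hl ω) (out ω) (hout ω) (τ ω) with h | h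
  · have h1 : ((l ω).length : ℝ) / 8 ^ L ≤ 1 / 60 := by
      rw [div_le_iff₀ (by positivity)]
      refine hlenR.trans ?_
      have h2 : (8 : ℝ) ^ L = 2 ^ L * 4 ^ L := by
        rw [← mul_pow]; norm_num
      have h3 : (64 : ℝ) ≤ 4 ^ L := by
        calc (64 : ℝ) = 4 ^ 3 := by norm_num
          _ ≤ 4 ^ L := pow_le_pow_right₀ (by norm_num) hL
      have h4 : (0 : ℝ) < 2 ^ L := by positivity
      rw [h2]
      nlinarith
    have hX0 : (0 : ℝ) ≤ Fintype.card (XX A D E K (Fin q)) := Nat.cast_nonneg _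
    have h5 : ((l ω).length / 8 ^ L + 1 / 15 : ℝ) * Fintype.card (XX A D E K (Fin q)) ≤
        1 / 12 * Fintype.card (XX A D E K (Fin q)) := by
      refine mul_le_mul_of_nonneg_right ?_ hX0
      linarith
    rw [cf univ _ _ _ _ (fun x => (hP ω x).symm)] at h
    exact absurd (hω1.trans_le (h.trans h5)) (lt_irrefl _)
  · have h1 : ((l ω).length : ℝ) * ((Fintype.card (It (A × K) ((D × E) × K) (Fin q)) + 1) ^
        (2 * L) / 2 ^ M) ≤ 1 / 12 := by
      have h2 : (60 : ℝ) * 2 ^ L * (Fintype.card (It (A × K) ((D × E) × K) (Fin q)) + 1) ^ (2 * L)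
          ≤ 2 ^ M := by exact_mod_cast hMs
      have h3 : (0 : ℝ) < 2 ^ M := by positivity
      rw [← mul_div_assoc, div_le_iff₀ h3]
      have h4 : (0 : ℝ) ≤ (Fintype.card (It (A × K) ((D × E) × K) (Fin q)) + 1) ^ (2 * L) := by
        positivity
      have h5 := mul_le_mul_of_nonneg_right hlenR h4
      nlinarith
    have hS0 : (0 : ℝ) ≤ Fintype.card (Smp (A × K) ((D × E) × K) (Fin q) M Q Qs Qn) :=
      Nat.cast_nonneg _
    have h6 := mul_le_mul_of_nonneg_right h1 hS0
    rw [cf univ _ _ _ _ (fun x => (hP' ω x).symm)] at h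
    exact absurd (hω2.trans_le (h.trans h6)) (lt_irrefl _)

end Pool.Agent.W906.MU
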