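import Pool.Agent.W906.MU.Circ

/-! # Unique games as sets of constraints (helper906) -/

open scoped Classical
open Finset

namespace Pool.Agent.W906.MU

/-- a constraint of a unique game with `N` left vertices, `N` right vertices and the alphabet
`Fin q`: a left vertex, a right vertex and a permutation of the alphabet -/
abbrev Con (N q : ℕ) : Type := Fin N × Fin N × Equiv.Perm (Fin q)

/-- a unique game: a finite set of constraints -/
abbrev Game (N q : ℕ) : Type := Finset (Con N q)

variable {N q : ℕ}

/-- the labelling `f` of the left and `g` of the right vertices satisfies the constraint `e` -/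
def Sat (f g : Fin N → Fin q) (e : Con N q) : Prop := e.2.2 (f e.1) = g e.2.1

/-- `I` has exactly `m` constraints and every labelling satisfies at most `δ * m` of them -/
def NoI (m : ℕ) (δ : ℝ) (I : Game N q) : Prop :=
  I.card = m ∧ ∀ f g, ((I.filter fun e => Sat f g e).card : ℝ) ≤ δ * m

/-- `I` has at least `m` constraints and some labelling violates at most `ε * m` of them -/
def YesI (m : ℕ) (ε : ℝ) (I : Game N q) : Prop :=
  m ≤ I.card ∧ ∃ f g, ((I.filter fun e => ¬ Sat f g e).card : ℝ) ≤ ε * m

/-- the inputs of the circuits: the indicators of the constraints and the constants -/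
def inputs (N q : ℕ) : Set (Game N q → ℝ) :=
  {h | (∃ e, h = fun I => if e ∈ I then 1 else 0) ∨ ∃ c : ℝ, h = fun _ => c}

/-- the randomised circuit `l` (a uniformly random member `l ω` of a finite family) separates:
comparing the value of a gate of `l ω` with a threshold tells the instances `NoI m δ` from the
instances `YesI m ε`, each with probability at least `2/3` -/
def Separates (m : ℕ) (δ ε : ℝ) {Ω : Type} [Fintype Ω] (l : Ω → List (Game N q → ℝ)) : Prop :=
  ∃ (out : Ω → Game N q → ℝ) (τ : Ω → ℝ), (∀ ω, out ω ∈ l ω) ∧
    (∀ I, NoI m δ I → 2 * Fintype.card Ω ≤ 3 * (univ.filter fun ω => τ ω ≤ out ω I).card) ∧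
    ∀ I, YesI m ε I → 2 * Fintype.card Ω ≤ 3 * (univ.filter fun ω => out ω I < τ ω).card

end Pool.Agent.W906.MU
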