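import Pool.Agent.W906.MU.Approx

/-! # The positive tests: random sparse instances in clouds (helper906) -/

open scoped Classical
open Finset

namespace Pool.Agent.W906.MU

/-- the number of elements with a property does not depend on how the property is written -/
theorem cf {α : Type} (s : Finset α) (p q : α → Prop) (i1 : DecidablePred p)
    (i2 : DecidablePred q) (h : ∀ x, p x ↔ q x) :
    (@Finset.filter α p i1 s).card = (@Finset.filter α q i2 s).card := by
  congr 1
  ext x
  rw [mem_filter, mem_filter, h x]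

/-- few functions contain a given set of values -/
theorem tr0 (U A : Type) [DecidableEq U] [DecidableEq A] [Fintype U] [Fintype A]
    (α : Finset (U × A)) :
    (univ.filter fun x : U → A => ∀ q ∈ α, x q.1 = q.2).card * Fintype.card A ^ α.card ≤
      Fintype.card (U → A) := by
  rcases (univ.filter fun x : U → A => ∀ q ∈ α, x q.1 = q.2).eq_empty_or_nonempty
    with h0 | ⟨x0, hx0⟩
  · rw [h0, card_empty, zero_mul]
    exact Nat.zero_le _
  replace hx0 := (mem_filter.1 hx0).2
  obtain ⟨S, hS⟩ : ∃ S : Finset U, S = α.image Prod.fst := ⟨_, rfl⟩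
  have hcard : α.card = S.card := by
    rw [hS]
    refine (card_image_of_injOn ?_).symm
    intro q hq q' hq' h
    have h1 := hx0 q hq
    have h2 := hx0 q' hq'
    exact Prod.ext h (by rw [← h1, ← h2, h])
  have hle : (univ.filter fun x : U → A => ∀ q ∈ α, x q.1 = q.2).card ≤
      (Fintype.piFinset fun u => if u ∈ S then {x0 u} else (univ : Finset A)).card := by
    apply card_le_card
    intro x hx
    replace hx := (mem_filter.1 hx).2
    rw [Fintype.mem_piFinset]
    intro u
    by_cases hu : u ∈ S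
    · rw [if_pos hu, mem_singleton]
      rw [hS, mem_image] at hu
      obtain ⟨q, hq, rfl⟩ := hu
      rw [hx q hq, hx0 q hq]
    · rw [if_neg hu]
      exact mem_univ _
  have hpi : (Fintype.piFinset fun u => if u ∈ S then {x0 u} else (univ : Finset A)).card =
      Fintype.card A ^ (univ \ S).card := by
    rw [Fintype.card_piFinset]
    have h1 : ∀ u, (if u ∈ S then {x0 u} else (univ : Finset A)).card =
        if u ∈ S then 1 else Fintype.card A := by
      intro u
      split_ifs
      · exact card_singleton _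
      · rfl
    simp only [h1]
    rw [Finset.prod_ite, Finset.prod_const_one, one_mul, Finset.prod_const]
    congr 2
    ext u
    simp
  rw [hpi] at hle
  calc _ ≤ Fintype.card A ^ (univ \ S).card * Fintype.card A ^ α.card :=
        Nat.mul_le_mul_right _ hle
    _ = Fintype.card A ^ ((univ \ S).card + S.card) := by rw [hcard, pow_add]
    _ = Fintype.card (U → A) := by
        rw [card_sdiff_add_card_eq_card (subset_univ S), Fintype.card_fun, card_univ]

section

variable {A D E K Λ : Type}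

/-- the positive tests: a copy of each base vertex, and for each pair `(i, d)` a constraint -/
abbrev XX (A D E K Λ : Type) : Type := ((A ⊕ (D × E)) → K) × ((A × D) → E × Λ)

/-- the chosen copy -/
def posn (x : XX A D E K Λ) : A ⊕ (D × E) → (A × K) ⊕ ((D × E) × K)
  | Sum.inl i => Sum.inl (i, x.1 (Sum.inl i))
  | Sum.inr j => Sum.inr (j, x.1 (Sum.inr j))

/-- the chosen constraint -/
def edg (x : XX A D E K Λ) (p : A × D) : (A × K) × ((D × E) × K) × Λ :=
  ((p.1, x.1 (Sum.inl p.1)), (((p.2, (x.2 p).1), x.1 (Sum.inr (p.2, (x.2 p).1))), (x.2 p).2))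

theorem edg_inj (x : XX A D E K Λ) : Function.Injective (edg x) := by
  intro p p' h
  unfold edg at h
  simp only [Prod.mk.injEq] at h
  exact Prod.ext h.1.1 h.2.1.1.1

variable [Fintype A] [Fintype D] [Fintype E]

/-- the positive test as a kernel -/
noncomputable def trx (x : XX A D E K Λ) : Ker (A × K) ((D × E) × K) Λ :=
  (univ.image (edg x), univ.image (posn x))

theorem mem_trx1 (x : XX A D E K Λ) (e : (A × K) × ((D × E) × K) × Λ) :
    e ∈ (trx x).1 ↔ ∃ p, edg x p = e := by
  unfold trx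
  simp

theorem mem_trx2 (x : XX A D E K Λ) (e : (A × K) ⊕ ((D × E) × K)) :
    e ∈ (trx x).2 ↔ ∃ p, posn x p = e := by
  unfold trx
  simp

theorem valid_trx (x : XX A D E K Λ) : Valid (trx x) := by
  intro e he
  obtain ⟨p, rfl⟩ := (mem_trx1 x e).1 he
  exact ⟨(mem_trx2 x _).2 ⟨Sum.inl p.1, rfl⟩, (mem_trx2 x _).2 ⟨Sum.inr (p.2, (x.2 p).1), rfl⟩⟩

theorem card_trx1 (x : XX A D E K Λ) : (trx x).1.card = Fintype.card A * Fintype.card D := by
  unfold trx
  show (univ.image (edg x)).card = _
  rw [card_image_of_injective _ (edg_inj x), card_univ, Fintype.card_prod]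

variable [Fintype K] [Fintype Λ]

theorem tr_trx (T : Ker (A × K) ((D × E) × K) Λ) :
    (univ.filter fun x : XX A D E K Λ => T ≤ trx x).card *
      (Fintype.card K ^ T.2.card * (Fintype.card E * Fintype.card Λ) ^ T.1.card) ≤
      Fintype.card (XX A D E K Λ) := by
  rcases (univ.filter fun x : XX A D E K Λ => T ≤ trx x).eq_empty_or_nonempty with h0 | ⟨x0, hx0⟩
  · rw [h0, card_empty, zero_mul]
    exact Nat.zero_le _
  replace hx0 := (mem_filter.1 hx0).2
  set fv : (A × K) ⊕ ((D × E) × K) → (A ⊕ (D × E)) × K := fun p => match p with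
    | Sum.inl (i, a) => (Sum.inl i, a)
    | Sum.inr (j, a) => (Sum.inr j, a) with hfv
  set fe : (A × K) × ((D × E) × K) × Λ → (A × D) × (E × Λ) := fun e =>
    ((e.1.1, e.2.1.1.1), (e.2.1.1.2, e.2.2)) with hfe
  have hfv_inj : Function.Injective fv := by
    intro p p' h
    rcases p with ⟨i, a⟩ | ⟨j, a⟩ <;> rcases p' with ⟨i', a'⟩ | ⟨j', a'⟩ <;>
      simp only [hfv, Prod.mk.injEq, Sum.inl.injEq, Sum.inr.injEq, reduceCtorEq, false_and] at h
    · rw [h.1, h.2]
    · rw [h.1, h.2]
  have hfe_inj : Set.InjOn fe (T.1 : Set _) := by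
    intro e he e' he' h
    obtain ⟨p, rfl⟩ := (mem_trx1 x0 e).1 (hx0.1 he)
    obtain ⟨p', rfl⟩ := (mem_trx1 x0 e').1 (hx0.1 he')
    simp only [hfe, edg, Prod.mk.injEq] at h
    rw [Prod.ext h.1.1 h.1.2]
  set αv := T.2.image fv with hαv
  set αe := T.1.image fe with hαe
  have hcv : αv.card = T.2.card := card_image_of_injective _ hfv_inj
  have hce : αe.card = T.1.card := card_image_of_injOn hfe_inj
  have hsub : (univ.filter fun x : XX A D E K Λ => T ≤ trx x) ⊆
      (univ.filter fun x1 : (A ⊕ (D × E)) → K => ∀ q ∈ αv, x1 q.1 = q.2) ×ˢ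
      (univ.filter fun x2 : (A × D) → E × Λ => ∀ q ∈ αe, x2 q.1 = q.2) := by
    intro x hx
    replace hx := (mem_filter.1 hx).2
    rw [mem_product, mem_filter, mem_filter]
    refine ⟨⟨mem_univ _, ?_⟩, ⟨mem_univ _, ?_⟩⟩
    · intro r hr
      obtain ⟨p, hp, rfl⟩ := mem_image.1 hr
      obtain ⟨s, rfl⟩ := (mem_trx2 x p).1 (hx.2 hp)
      rcases s with i | j <;> rfl
    · intro r hr
      obtain ⟨e, he, rfl⟩ := mem_image.1 hr
      obtain ⟨p, rfl⟩ := (mem_trx1 x e).1 (hx.1 he)
      rfl
  have h1 : (univ.filter fun x1 : (A ⊕ (D × E)) → K => ∀ q ∈ αv, x1 q.1 = q.2).card *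
      Fintype.card K ^ T.2.card ≤ Fintype.card ((A ⊕ (D × E)) → K) := by
    rw [← hcv]
    refine (le_of_eq ?_).trans (tr0 (A ⊕ (D × E)) K αv)
    exact congrArg (· * _) (cf univ _ _ _ _ (fun _ => Iff.rfl))
  have h2 : (univ.filter fun x2 : (A × D) → E × Λ => ∀ q ∈ αe, x2 q.1 = q.2).card *
      (Fintype.card E * Fintype.card Λ) ^ T.1.card ≤ Fintype.card ((A × D) → E × Λ) := by
    rw [← hce, ← Fintype.card_prod]
    refine (le_of_eq ?_).trans (tr0 (A × D) (E × Λ) αe)
    exact congrArg (· * _) (cf univ _ _ _ _ (fun _ => Iff.rfl))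
  calc _ ≤ ((univ.filter fun x1 : (A ⊕ (D × E)) → K => ∀ q ∈ αv, x1 q.1 = q.2) ×ˢ
      (univ.filter fun x2 : (A × D) → E × Λ => ∀ q ∈ αe, x2 q.1 = q.2)).card *
      (Fintype.card K ^ T.2.card * (Fintype.card E * Fintype.card Λ) ^ T.1.card) :=
        Nat.mul_le_mul_right _ (card_le_card hsub)
    _ = ((univ.filter fun x1 : (A ⊕ (D × E)) → K => ∀ q ∈ αv, x1 q.1 = q.2).card *
        Fintype.card K ^ T.2.card) *
        ((univ.filter fun x2 : (A × D) → E × Λ => ∀ q ∈ αe, x2 q.1 = q.2).card *
        (Fintype.card E * Fintype.card Λ) ^ T.1.card) := by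
        rw [card_product]; ring
    _ ≤ Fintype.card ((A ⊕ (D × E)) → K) * Fintype.card ((A × D) → E × Λ) :=
        Nat.mul_le_mul h1 h2
    _ = _ := (Fintype.card_prod _ _).symm

theorem TR_trx (Av B : ℝ) (hAv : 0 ≤ Av) (hB : 0 ≤ B) (h1 : 16 * Av ≤ Fintype.card K)
    (h2 : 16 * B ≤ Fintype.card E * Fintype.card Λ) :
    TR (trx (A := A) (D := D) (E := E) (K := K) (Λ := Λ)) Av B := by
  intro T _
  have h3 := tr_trx T
  have h4 : ((univ.filter fun x : XX A D E K Λ => T ≤ trx x).card : ℝ) *
      ((Fintype.card K : ℝ) ^ T.2.card * ((Fintype.card E : ℝ) * Fintype.card Λ) ^ T.1.card) ≤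
      Fintype.card (XX A D E K Λ) := by exact_mod_cast h3
  have h5 : (16 * Av) ^ T.2.card * (16 * B) ^ T.1.card ≤
      (Fintype.card K : ℝ) ^ T.2.card * ((Fintype.card E : ℝ) * Fintype.card Λ) ^ T.1.card := by
    gcongr
  have h6 : ((univ.filter fun x : XX A D E K Λ => T ≤ trx x).card : ℝ) *
      ((16 * Av) ^ T.2.card * (16 * B) ^ T.1.card) ≤
      ((univ.filter fun x : XX A D E K Λ => T ≤ trx x).card : ℝ) *
      ((Fintype.card K : ℝ) ^ T.2.card * ((Fintype.card E : ℝ) * Fintype.card Λ) ^ T.1.card) :=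
    mul_le_mul_of_nonneg_left h5 (Nat.cast_nonneg _)
  have h7 := h6.trans h4
  convert h7
  rfl

variable [AddGroup Λ]

/-- the labelling `f` satisfies the constraint `e` -/
def SatE {U W Λ : Type} [Add Λ] (f : U ⊕ W → Λ) (e : U × W × Λ) : Prop :=
  f (lft e) + e.2.2 = f (rgt e)

/-- moment generating function of the number of satisfied constraints -/
theorem mgf (g : A ⊕ (D × E) → Λ) (t : ℝ) :
    ∑ x2 : (A × D) → E × Λ, t ^ (univ.filter fun p : A × D =>
      g (Sum.inl p.1) + (x2 p).2 = g (Sum.inr (p.2, (x2 p).1))).card =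
    (Fintype.card E * ((Fintype.card Λ : ℝ) - 1 + t)) ^ (Fintype.card A * Fintype.card D) := by
  have h1 : ∀ x2 : (A × D) → E × Λ, t ^ (univ.filter fun p : A × D =>
      g (Sum.inl p.1) + (x2 p).2 = g (Sum.inr (p.2, (x2 p).1))).card =
      ∏ p : A × D, (if g (Sum.inl p.1) + (x2 p).2 = g (Sum.inr (p.2, (x2 p).1)) then t else 1) := by
    intro x2
    rw [Finset.prod_ite, Finset.prod_const_one, mul_one, Finset.prod_const]
  simp only [h1]
  have h2 : ∏ p : A × D, ∑ y : E × Λ,
      (if g (Sum.inl p.1) + y.2 = g (Sum.inr (p.2, y.1)) then t else 1) =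
      ∑ x2 : (A × D) → E × Λ, ∏ p : A × D,
      (if g (Sum.inl p.1) + (x2 p).2 = g (Sum.inr (p.2, (x2 p).1)) then t else 1) := by
    rw [Finset.prod_univ_sum]
    rw [Fintype.piFinset_univ]
  rw [← h2]
  have h3 : ∀ p : A × D, ∑ y : E × Λ,
      (if g (Sum.inl p.1) + y.2 = g (Sum.inr (p.2, y.1)) then t else 1) =
      Fintype.card E * ((Fintype.card Λ : ℝ) - 1 + t) := by
    intro p
    rw [Fintype.sum_prod_type]
    have h4 : ∀ k : E, ∑ c : Λ, (if g (Sum.inl p.1) + c = g (Sum.inr (p.2, k)) then t else 1) =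
        (Fintype.card Λ : ℝ) - 1 + t := by
      intro k
      have h5 : ∀ c : Λ, (if g (Sum.inl p.1) + c = g (Sum.inr (p.2, k)) then t else 1) =
          1 + (if c = -g (Sum.inl p.1) + g (Sum.inr (p.2, k)) then t - 1 else 0) := by
        intro c
        by_cases h : g (Sum.inl p.1) + c = g (Sum.inr (p.2, k))
        · rw [if_pos h, if_pos (by rw [← h, neg_add_cancel_left])]
          ring
        · rw [if_neg h, if_neg (by
            intro h'
            apply h
            rw [h', add_neg_cancel_left])]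
          ring
      simp only [h5]
      rw [Finset.sum_add_distrib, Finset.sum_ite_eq' univ, if_pos (mem_univ _)]
      simp only [sum_const, card_univ, nsmul_eq_mul, mul_one]
      ring
    simp only [h4]
    rw [sum_const, card_univ, nsmul_eq_mul]
  simp only [h3]
  rw [prod_const, card_univ, Fintype.card_prod]

omit [Fintype K] [Fintype Λ] in
/-- the number of satisfied constraints of a positive test -/
theorem sat_trx (x : XX A D E K Λ) (f : (A × K) ⊕ ((D × E) × K) → Λ) :
    ((trx x).1.filter fun e => SatE f e).card = (univ.filter fun p : A × D =>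
      f (posn x (Sum.inl p.1)) + (x.2 p).2 = f (posn x (Sum.inr (p.2, (x.2 p).1)))).card := by
  have h : ((trx x).1.filter fun e => SatE f e) = (univ.filter fun p : A × D =>
      f (posn x (Sum.inl p.1)) + (x.2 p).2 = f (posn x (Sum.inr (p.2, (x.2 p).1)))).image
      (edg x) := by
    ext e
    rw [mem_filter, mem_image, mem_trx1]
    constructor
    · rintro ⟨⟨p, rfl⟩, h⟩
      exact ⟨p, mem_filter.2 ⟨mem_univ _, h⟩, rfl⟩
    · rintro ⟨p, hp, rfl⟩
      exact ⟨⟨p, rfl⟩, (mem_filter.1 hp).2⟩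
  rw [h, card_image_of_injective _ (edg_inj x)]

/-- most positive tests have small value -/
theorem no_value (δ t : ℝ) (ht : 1 ≤ t) :
    ((univ.filter fun x : XX A D E K Λ => ∃ f : (A × K) ⊕ ((D × E) × K) → Λ,
      δ * (Fintype.card A * Fintype.card D) < ((trx x).1.filter fun e => SatE f e).card).card : ℝ) ≤
      (Fintype.card Λ : ℝ) ^ (Fintype.card A + Fintype.card D * Fintype.card E) *
      (((Fintype.card Λ : ℝ) - 1 + t) / (Fintype.card Λ * t ^ δ)) ^
        (Fintype.card A * Fintype.card D) * Fintype.card (XX A D E K Λ) := by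
  have ht0 : 0 < t := by linarith
  set m := Fintype.card A * Fintype.card D with hm
  have hmR : ((Fintype.card A : ℝ) * Fintype.card D) = (m : ℝ) := by rw [hm]; push_cast; ring
  rw [hmR]
  set q : ℝ := (Fintype.card Λ : ℝ) with hq
  have hΛ : Nonempty Λ := ⟨0⟩
  have hq0 : 0 < q := by
    rw [hq]
    exact_mod_cast Fintype.card_pos
  have htd : 0 < t ^ δ := Real.rpow_pos_of_pos ht0 δ
  have hq1 : 1 ≤ q := by
    rw [hq]
    exact_mod_cast Fintype.card_pos
  -- for a fixed labelling of the base vertices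
  have hg : ∀ g : A ⊕ (D × E) → Λ, ((univ.filter fun x2 : (A × D) → E × Λ =>
      δ * m < ((univ.filter fun p : A × D =>
      g (Sum.inl p.1) + (x2 p).2 = g (Sum.inr (p.2, (x2 p).1))).card : ℝ)).card : ℝ) ≤
      ((q - 1 + t) / (q * t ^ δ)) ^ m * Fintype.card ((A × D) → E × Λ) := by
    intro g
    have h1 := mgf g t
    have h2 : ((univ.filter fun x2 : (A × D) → E × Λ =>
      δ * m < ((univ.filter fun p : A × D =>
      g (Sum.inl p.1) + (x2 p).2 = g (Sum.inr (p.2, (x2 p).1))).card : ℝ)).card : ℝ) *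
      (t ^ δ) ^ m ≤ (Fintype.card E * (q - 1 + t)) ^ m := by
      rw [← h1]
      calc _ = ∑ x2 ∈ (univ.filter fun x2 : (A × D) → E × Λ =>
            δ * m < ((univ.filter fun p : A × D =>
            g (Sum.inl p.1) + (x2 p).2 = g (Sum.inr (p.2, (x2 p).1))).card : ℝ)),
            (t ^ δ) ^ m := by rw [sum_const, nsmul_eq_mul]
        _ ≤ ∑ x2 ∈ (univ.filter fun x2 : (A × D) → E × Λ =>
            δ * m < ((univ.filter fun p : A × D =>
            g (Sum.inl p.1) + (x2 p).2 = g (Sum.inr (p.2, (x2 p).1))).card : ℝ)),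
            t ^ (univ.filter fun p : A × D =>
              g (Sum.inl p.1) + (x2 p).2 = g (Sum.inr (p.2, (x2 p).1))).card := by
            refine Finset.sum_le_sum fun x2 hx2 => ?_
            have h3 := (mem_filter.1 hx2).2
            rw [← Real.rpow_natCast (t ^ δ) m, ← Real.rpow_mul ht0.le, ← Real.rpow_natCast t]
            exact Real.rpow_le_rpow_of_exponent_le ht h3.le
        _ ≤ _ := Finset.sum_le_sum_of_subset_of_nonneg (subset_univ _)
            fun _ _ _ => by positivity
    have h4 : (Fintype.card ((A × D) → E × Λ) : ℝ) = (Fintype.card E * q) ^ m := by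
      rw [Fintype.card_fun, Fintype.card_prod, Fintype.card_prod]
      push_cast
      rfl
    rw [← le_div_iff₀ (by positivity)] at h2
    refine h2.trans (le_of_eq ?_)
    rw [h4, div_pow, mul_pow, mul_pow, mul_pow]
    field_simp
  -- union bound
  have hsub : (univ.filter fun x : XX A D E K Λ => ∃ f : (A × K) ⊕ ((D × E) × K) → Λ,
      δ * m < ((trx x).1.filter fun e => SatE f e).card) ⊆
      (univ : Finset (A ⊕ (D × E) → Λ)).biUnion fun g => univ ×ˢ
      (univ.filter fun x2 : (A × D) → E × Λ =>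
      δ * m < ((univ.filter fun p : A × D =>
      g (Sum.inl p.1) + (x2 p).2 = g (Sum.inr (p.2, (x2 p).1))).card : ℝ)) := by
    intro x hx
    obtain ⟨f, hf⟩ := (mem_filter.1 hx).2
    rw [sat_trx] at hf
    exact mem_biUnion.2 ⟨fun r => f (posn x r), mem_univ _, mem_product.2 ⟨mem_univ _,
      mem_filter.2 ⟨mem_univ _, hf⟩⟩⟩
  have h5 : ((univ.filter fun x : XX A D E K Λ => ∃ f : (A × K) ⊕ ((D × E) × K) → Λ,
      δ * m < ((trx x).1.filter fun e => SatE f e).card).card : ℝ) ≤
      ∑ g : A ⊕ (D × E) → Λ, (Fintype.card ((A ⊕ (D × E)) → K) : ℝ) *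
      ((univ.filter fun x2 : (A × D) → E × Λ =>
      δ * m < ((univ.filter fun p : A × D =>
      g (Sum.inl p.1) + (x2 p).2 = g (Sum.inr (p.2, (x2 p).1))).card : ℝ)).card : ℝ) := by
    have h6 := (card_le_card hsub).trans card_biUnion_le
    simp only [card_product, card_univ] at h6
    exact_mod_cast h6
  calc _ ≤ _ := h5
    _ ≤ ∑ g : A ⊕ (D × E) → Λ, (Fintype.card ((A ⊕ (D × E)) → K) : ℝ) *
        (((q - 1 + t) / (q * t ^ δ)) ^ m * Fintype.card ((A × D) → E × Λ)) :=
        Finset.sum_le_sum fun g _ => mul_le_mul_of_nonneg_left (hg g) (Nat.cast_nonneg _)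
    _ = _ := by
        rw [sum_const, card_univ, nsmul_eq_mul, Fintype.card_fun, Fintype.card_sum,
          Fintype.card_prod D E, Fintype.card_prod ((A ⊕ (D × E)) → K)]
        push_cast
        ring

end

end Pool.Agent.W906.MU
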