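import Pool.Agent.W906.MU.Approx
import Pool.Agent.W906.MU.Pos

/-! # The negative tests: few violated constraints (helper906) -/

open scoped Classical
open Finset

namespace Pool.Agent.W906.MU

section

variable {J : Type} [Fintype J]

/-- few samples mark a given set -/
theorem card_marked {wt : J → ℕ} (hwt : ∀ j, 1 ≤ wt j) (M : ℕ) (Y : Finset J) :
    (univ.filter fun ω : Fin M → Sm wt => Y ⊆ marked ω).card * ∏ j ∈ Y, wt j ≤
      M ^ Y.card * Fintype.card (Fin M → Sm wt) := by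
  -- the rounds in which the elements are marked
  have h1 : ∀ r : J → Fin M, (univ.filter fun ω : Fin M → Sm wt =>
      ∀ j ∈ Y, (ω (r j) j : ℕ) = 0).card * ∏ j ∈ Y, wt j = Fintype.card (Fin M → Sm wt) := by
    intro r
    have e1 : (univ.filter fun ω : Fin M → Sm wt => ∀ j ∈ Y, (ω (r j) j : ℕ) = 0) =
        Fintype.piFinset fun i => Fintype.piFinset fun j =>
          if j ∈ Y ∧ r j = i then ({⟨0, hwt j⟩} : Finset (Fin (wt j))) else univ := by
      ext ω
      rw [mem_filter, Fintype.mem_piFinset]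
      constructor
      · rintro ⟨-, h⟩ i
        rw [Fintype.mem_piFinset]
        intro j
        by_cases hj : j ∈ Y ∧ r j = i
        · rw [if_pos hj, mem_singleton]
          obtain ⟨hj, rfl⟩ := hj
          exact Fin.ext (h j hj)
        · rw [if_neg hj]; exact mem_univ _
      · intro h
        refine ⟨mem_univ _, fun j hj => ?_⟩
        have := Fintype.mem_piFinset.1 (h (r j)) j
        rw [if_pos ⟨hj, rfl⟩, mem_singleton] at this
        rw [this]
    have e2 : ∀ (i : Fin M) (j : J),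
        (if j ∈ Y ∧ r j = i then ({⟨0, hwt j⟩} : Finset (Fin (wt j))) else univ).card
        = if j ∈ Y ∧ r j = i then 1 else wt j := by
      intro i j
      split_ifs
      · exact card_singleton _
      · rw [card_univ, Fintype.card_fin]
    have e3 : ∏ j ∈ Y, wt j = ∏ i : Fin M, ∏ j : J, if j ∈ Y ∧ r j = i then wt j else 1 := by
      rw [Finset.prod_comm]
      rw [← Finset.prod_filter_mul_prod_filter_not univ (fun j => j ∈ Y)
        (fun j => ∏ i : Fin M, if j ∈ Y ∧ r j = i then wt j else 1)]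
      have e4 : univ.filter (fun j => j ∈ Y) = Y := by ext; simp
      have e5 : ∏ x ∈ univ.filter (fun j => ¬ j ∈ Y), (∏ i : Fin M,
          if x ∈ Y ∧ r x = i then wt x else 1) = 1 := by
        apply Finset.prod_eq_one
        intro j hj
        apply Finset.prod_eq_one
        intro i _
        rw [if_neg fun h => (mem_filter.1 hj).2 h.1]
      rw [e4, e5, mul_one]
      refine Finset.prod_congr rfl fun j hj => ?_
      have e6 : ∀ i : Fin M, (if j ∈ Y ∧ r j = i then wt j else 1) =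
          if r j = i then wt j else 1 := by
        intro i
        by_cases h : r j = i
        · rw [if_pos ⟨hj, h⟩, if_pos h]
        · rw [if_neg fun h' => h h'.2, if_neg h]
      simp only [e6]
      rw [Finset.prod_ite_eq, if_pos (mem_univ _)]
    rw [e1, Fintype.card_piFinset]
    simp only [Fintype.card_piFinset, e2]
    rw [e3, ← Finset.prod_mul_distrib, Fintype.card_fun, card_Sm, Fintype.card_fin]
    have e7 : ∀ i : Fin M, (∏ j : J, (if j ∈ Y ∧ r j = i then 1 else wt j)) *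
        (∏ j : J, if j ∈ Y ∧ r j = i then wt j else 1) = ∏ j, wt j := by
      intro i
      rw [← Finset.prod_mul_distrib]
      refine Finset.prod_congr rfl fun j _ => ?_
      split_ifs
      · rw [one_mul]
      · rw [mul_one]
    simp only [e7]
    rw [prod_const, card_univ, Fintype.card_fin]
  rcases Nat.eq_zero_or_pos M with hM | hM
  · subst hM
    rcases Y.eq_empty_or_nonempty with rfl | ⟨y, hy⟩
    · simp
    · have h0 : (univ.filter fun ω : Fin 0 → Sm wt => Y ⊆ marked ω) = ∅ := by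
        apply filter_eq_empty_iff.2
        intro ω _ h
        obtain ⟨i, -⟩ := mem_marked.1 (h hy)
        exact i.elim0
      rw [h0, card_empty, zero_mul]
      exact Nat.zero_le _
  have i0 : Fin M := ⟨0, hM⟩
  -- union bound
  set RR : Finset (J → Fin M) := Fintype.piFinset fun j => if j ∈ Y then (univ : Finset (Fin M))
    else {i0} with hRR
  have hRRc : RR.card = M ^ Y.card := by
    rw [hRR, Fintype.card_piFinset]
    have e2 : ∀ j : J, (if j ∈ Y then (univ : Finset (Fin M)) else {i0}).card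
        = if j ∈ Y then M else 1 := by
      intro j
      split_ifs
      · rw [card_univ, Fintype.card_fin]
      · exact card_singleton _
    simp only [e2]
    rw [Finset.prod_ite, prod_const_one, mul_one, prod_const]
    congr 2
    ext; simp
  have hsub : (univ.filter fun ω : Fin M → Sm wt => Y ⊆ marked ω) ⊆
      RR.biUnion fun r => univ.filter fun ω : Fin M → Sm wt => ∀ j ∈ Y, (ω (r j) j : ℕ) = 0 := by
    intro ω hω
    have h2 := (mem_filter.1 hω).2
    have h3 : ∀ j, ∃ i : Fin M, (j ∈ Y → (ω i j : ℕ) = 0) ∧ (j ∉ Y → i = i0) := by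
      intro j
      by_cases hj : j ∈ Y
      · obtain ⟨i, hi⟩ := mem_marked.1 (h2 hj)
        exact ⟨i, fun _ => hi, fun h => absurd hj h⟩
      · exact ⟨i0, fun h => absurd h hj, fun _ => rfl⟩
    choose r hr1 hr2 using h3
    refine mem_biUnion.2 ⟨r, ?_, mem_filter.2 ⟨mem_univ _, fun j hj => hr1 j hj⟩⟩
    rw [hRR, Fintype.mem_piFinset]
    intro j
    by_cases hj : j ∈ Y
    · rw [if_pos hj]; exact mem_univ _
    · rw [if_neg hj, mem_singleton]; exact hr2 j hj
  calc _ ≤ (∑ r ∈ RR, (univ.filter fun ω : Fin M → Sm wt =>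
        ∀ j ∈ Y, (ω (r j) j : ℕ) = 0).card) * ∏ j ∈ Y, wt j :=
        Nat.mul_le_mul_right _ ((card_le_card hsub).trans card_biUnion_le)
    _ = ∑ r ∈ RR, Fintype.card (Fin M → Sm wt) := by
        rw [Finset.sum_mul]
        exact Finset.sum_congr rfl fun r _ => h1 r
    _ = _ := by rw [sum_const, hRRc, smul_eq_mul]

theorem card_marked_real {wt : J → ℕ} (hwt : ∀ j, 1 ≤ wt j) (M : ℕ) (Y : Finset J) :
    ((univ.filter fun ω : Fin M → Sm wt => Y ⊆ marked ω).card : ℝ) ≤
      Fintype.card (Fin M → Sm wt) * ∏ j ∈ Y, ((M : ℝ) / wt j) := by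
  have h1 := card_marked hwt M Y
  have h2 : (0 : ℝ) < ∏ j ∈ Y, (wt j : ℝ) := Finset.prod_pos fun j _ => by
    exact_mod_cast hwt j
  have h3 : ((univ.filter fun ω : Fin M → Sm wt => Y ⊆ marked ω).card : ℝ) *
      ∏ j ∈ Y, (wt j : ℝ) ≤ (M : ℝ) ^ Y.card * Fintype.card (Fin M → Sm wt) := by
    exact_mod_cast h1
  rw [← le_div_iff₀ h2] at h3
  refine h3.trans (le_of_eq ?_)
  rw [Finset.prod_div_distrib, prod_const]
  ring

theorem marked2 {wt : J → ℕ} (hwt : ∀ j, 1 ≤ wt j) (M : ℕ) (y1 y2 : J) (h : y1 ≠ y2) (x1 x2 : ℝ)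
    (h1 : (M : ℝ) / wt y1 ≤ x1) (h2 : (M : ℝ) / wt y2 ≤ x2) :
    ((univ.filter fun ω : Fin M → Sm wt => y1 ∈ marked ω ∧ y2 ∈ marked ω).card : ℝ) ≤
      Fintype.card (Fin M → Sm wt) * (x1 * x2) := by
  have e : (univ.filter fun ω : Fin M → Sm wt => y1 ∈ marked ω ∧ y2 ∈ marked ω) =
      univ.filter fun ω : Fin M → Sm wt => ({y1, y2} : Finset J) ⊆ marked ω := by
    apply Finset.filter_congr
    intro ω _
    rw [insert_subset_iff, singleton_subset_iff]
  rw [e]
  refine (card_marked_real hwt M _).trans ?_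
  rw [prod_pair h]
  have p1 : (0 : ℝ) ≤ (M : ℝ) / wt y1 := by positivity
  have p2 : (0 : ℝ) ≤ (M : ℝ) / wt y2 := by positivity
  exact mul_le_mul_of_nonneg_left (mul_le_mul h1 h2 p2 (p1.trans h1)) (Nat.cast_nonneg _)

theorem marked3 {wt : J → ℕ} (hwt : ∀ j, 1 ≤ wt j) (M : ℕ) (y1 y2 y3 : J) (h12 : y1 ≠ y2)
    (h13 : y1 ≠ y3) (h23 : y2 ≠ y3) (x1 x2 x3 : ℝ)
    (h1 : (M : ℝ) / wt y1 ≤ x1) (h2 : (M : ℝ) / wt y2 ≤ x2) (h3 : (M : ℝ) / wt y3 ≤ x3) :
    ((univ.filter fun ω : Fin M → Sm wt => y1 ∈ marked ω ∧ y2 ∈ marked ω ∧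
      y3 ∈ marked ω).card : ℝ) ≤ Fintype.card (Fin M → Sm wt) * (x1 * (x2 * x3)) := by
  have e : (univ.filter fun ω : Fin M → Sm wt => y1 ∈ marked ω ∧ y2 ∈ marked ω ∧ y3 ∈ marked ω) =
      univ.filter fun ω : Fin M → Sm wt => ({y1, y2, y3} : Finset J) ⊆ marked ω := by
    apply Finset.filter_congr
    intro ω _
    rw [insert_subset_iff, insert_subset_iff, singleton_subset_iff]
  rw [e]
  refine (card_marked_real hwt M _).trans ?_
  rw [prod_insert (by simp [h12, h13]), prod_pair h23]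
  have p1 : (0 : ℝ) ≤ (M : ℝ) / wt y1 := by positivity
  have p2 : (0 : ℝ) ≤ (M : ℝ) / wt y2 := by positivity
  have p3 : (0 : ℝ) ≤ (M : ℝ) / wt y3 := by positivity
  exact mul_le_mul_of_nonneg_left (mul_le_mul h1 (mul_le_mul h2 h3 p3 (p2.trans h2))
    (mul_nonneg p2 p3) (p1.trans h1)) (Nat.cast_nonneg _)

end

section

variable {U W Λ : Type} [Fintype U] [Fintype W] [Fintype Λ] [AddGroup Λ]

/-- a labelling read off from the marked items -/
noncomputable def lab (T : Finset (It U W Λ)) (p : U ⊕ W) : Λ :=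
  if h : ∃ a, (Sum.inl (p, some a) : It U W Λ) ∈ T then h.choose else 0

omit [Fintype U] [Fintype W] in
theorem lab_spec {T : Finset (It U W Λ)} {p : U ⊕ W} {a : Λ}
    (h : (Sum.inl (p, some a) : It U W Λ) ∈ T) : (Sum.inl (p, some (lab T p)) : It U W Λ) ∈ T := by
  have h' : ∃ a, (Sum.inl (p, some a) : It U W Λ) ∈ T := ⟨a, h⟩
  unfold lab
  rw [dif_pos h']
  exact h'.choose_spec

/-- the violated derived constraints -/
noncomputable def vio (T : Finset (It U W Λ)) : Finset (U × W × Λ) :=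
  univ.filter fun e => Der T e ∧ ¬ SatE (lab T) e

theorem vio_one (M Q Qs Qn : ℕ) (hQ : 1 ≤ Q) (hQs : Q ≤ Qs) (hQn : 1 ≤ Qn) (x y z : ℝ)
    (hx : (M : ℝ) / Q = x) (hy : (M : ℝ) / Qs = y) (hz : (M : ℝ) / Qn = z) (e : U × W × Λ) :
    ((univ.filter fun ω : Smp U W Λ M Q Qs Qn => e ∈ vio (marked ω)).card : ℝ) ≤
      Fintype.card (Smp U W Λ M Q Qs Qn) * (4 * (Fintype.card Λ : ℝ) ^ 2 * x ^ 2 * z +
        4 * Fintype.card Λ * x * y + 2 * (Fintype.card Λ : ℝ) ^ 2 * x ^ 3) := by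
  have hwt1 : ∀ j : It U W Λ, 1 ≤ wt Q Qs Qn j := by
    intro j
    rcases j with ⟨p, _ | a⟩ | e
    · exact hQ.trans hQs
    · exact hQ
    · exact hQn
  have hQ0 : (0 : ℝ) < Q := by exact_mod_cast hQ
  have hyx : y ≤ x := by
    rw [← hx, ← hy]
    apply div_le_div_of_nonneg_left (Nat.cast_nonneg _) hQ0
    exact_mod_cast hQs
  have hx0 : 0 ≤ x := by rw [← hx]; positivity
  have hy0 : 0 ≤ y := by rw [← hy]; positivity
  have hz0 : 0 ≤ z := by rw [← hz]; positivity
  have hst : ∀ (p : U ⊕ W) (s : Option Λ), (M : ℝ) / wt Q Qs Qn (Sum.inl (p, s) : It U W Λ) ≤ x := by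
    intro p s
    rcases s with _ | a
    · exact hy.le.trans hyx
    · exact hx.le
  have hno : ∀ (p : U ⊕ W), (M : ℝ) / wt Q Qs Qn (Sum.inl (p, none) : It U W Λ) ≤ y :=
    fun p => hy.le
  have hnz : (M : ℝ) / wt Q Qs Qn (Sum.inr e : It U W Λ) ≤ z := hz.le
  set N : ℝ := (Fintype.card (Smp U W Λ M Q Qs Qn) : ℝ) with hN
  have hN0 : 0 ≤ N := Nat.cast_nonneg _
  set q : ℝ := (Fintype.card Λ : ℝ) with hq
  have hΛ : Nonempty Λ := ⟨0⟩
  have hq1 : 1 ≤ q := by
    rw [hq]
    exact_mod_cast Fintype.card_pos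
  have hlr : lft e ≠ rgt e := lft_ne_rgt e e
  -- the five reasons
  set A1 : Finset (Smp U W Λ M Q Qs Qn) := (univ : Finset (Option Λ × Option Λ)).biUnion fun st =>
    univ.filter fun ω : Smp U W Λ M Q Qs Qn => (Sum.inl (lft e, st.1) : It U W Λ) ∈ marked ω ∧
      (Sum.inl (rgt e, st.2) : It U W Λ) ∈ marked ω ∧ (Sum.inr e : It U W Λ) ∈ marked ω with hA1
  set A2 : Finset (Smp U W Λ M Q Qs Qn) := (univ : Finset (Option Λ)).biUnion fun t =>
    univ.filter fun ω : Smp U W Λ M Q Qs Qn => (Sum.inl (lft e, none) : It U W Λ) ∈ marked ω ∧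
      (Sum.inl (rgt e, t) : It U W Λ) ∈ marked ω with hA2
  set A3 : Finset (Smp U W Λ M Q Qs Qn) := (univ : Finset (Option Λ)).biUnion fun s =>
    univ.filter fun ω : Smp U W Λ M Q Qs Qn => (Sum.inl (lft e, s) : It U W Λ) ∈ marked ω ∧
      (Sum.inl (rgt e, none) : It U W Λ) ∈ marked ω with hA3
  set A4 : Finset (Smp U W Λ M Q Qs Qn) := ((univ : Finset (Λ × Λ)).filter fun a =>
    a.1 ≠ a.2).biUnion fun a =>
    univ.filter fun ω : Smp U W Λ M Q Qs Qn => (Sum.inl (lft e, some a.1) : It U W Λ) ∈ marked ω ∧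
      (Sum.inl (lft e, some a.2) : It U W Λ) ∈ marked ω ∧
      (Sum.inl (rgt e, some (a.1 + e.2.2)) : It U W Λ) ∈ marked ω with hA4
  set A5 : Finset (Smp U W Λ M Q Qs Qn) := ((univ : Finset (Λ × Λ)).filter fun b =>
    b.1 ≠ b.2).biUnion fun b =>
    univ.filter fun ω : Smp U W Λ M Q Qs Qn =>
      (Sum.inl (lft e, some (b.1 - e.2.2)) : It U W Λ) ∈ marked ω ∧
      (Sum.inl (rgt e, some b.1) : It U W Λ) ∈ marked ω ∧
      (Sum.inl (rgt e, some b.2) : It U W Λ) ∈ marked ω with hA5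
  have hsub : (univ.filter fun ω : Smp U W Λ M Q Qs Qn => e ∈ vio (marked ω)) ⊆
      (A1 ∪ (A2 ∪ A3)) ∪ (A4 ∪ A5) := by
    intro ω hω
    obtain ⟨-, ⟨s, t, h1, h2, h3⟩, h4⟩ := mem_filter.1 (mem_filter.1 hω).2
    rcases h3 with h3 | h3
    · exact mem_union_left _ (mem_union_left _ (mem_biUnion.2 ⟨(s, t), mem_univ _,
        mem_filter.2 ⟨mem_univ _, h1, h2, h3⟩⟩))
    rcases s with _ | a
    · exact mem_union_left _ (mem_union_right _ (mem_union_left _ (mem_biUnion.2 ⟨t, mem_univ _,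
        mem_filter.2 ⟨mem_univ _, h1, h2⟩⟩)))
    rcases t with _ | b
    · exact mem_union_left _ (mem_union_right _ (mem_union_right _ (mem_biUnion.2
        ⟨some a, mem_univ _, mem_filter.2 ⟨mem_univ _, h1, h2⟩⟩)))
    have h5 := h3 a b rfl rfl
    by_cases hl : a = lab (marked ω) (lft e)
    · by_cases hr : b = lab (marked ω) (rgt e)
      · exact absurd (by unfold SatE; rw [← hl, ← hr]; exact h5) h4
      · refine mem_union_right _ (mem_union_right _ (mem_biUnion.2
          ⟨(b, lab (marked ω) (rgt e)), mem_filter.2 ⟨mem_univ _, hr⟩,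
          mem_filter.2 ⟨mem_univ _, ?_, h2, lab_spec h2⟩⟩))
        rw [← h5, add_sub_cancel_right]
        exact h1
    · refine mem_union_right _ (mem_union_left _ (mem_biUnion.2
          ⟨(a, lab (marked ω) (lft e)), mem_filter.2 ⟨mem_univ _, hl⟩,
          mem_filter.2 ⟨mem_univ _, h1, lab_spec h1, ?_⟩⟩))
      rw [h5]
      exact h2
  have b1 : (A1.card : ℝ) ≤ (q + 1) ^ 2 * (N * (x * (x * z))) := by
    have h1 : (A1.card : ℝ) ≤ ∑ st : Option Λ × Option Λ, N * (x * (x * z)) := by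
      have h2 : A1.card ≤ _ := card_biUnion_le
      have h3 : (A1.card : ℝ) ≤ ∑ st : Option Λ × Option Λ, ((univ.filter fun
        ω : Smp U W Λ M Q Qs Qn => (Sum.inl (lft e, st.1) : It U W Λ) ∈ marked ω ∧
        (Sum.inl (rgt e, st.2) : It U W Λ) ∈ marked ω ∧
        (Sum.inr e : It U W Λ) ∈ marked ω).card : ℝ) := by exact_mod_cast h2
      refine h3.trans (Finset.sum_le_sum fun st _ => ?_)
      exact marked3 hwt1 M _ _ _ (by simp [hlr]) (by simp) (by simp) x x z (hst _ _) (hst _ _) hnz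
    refine h1.trans (le_of_eq ?_)
    rw [sum_const, card_univ, nsmul_eq_mul, Fintype.card_prod, Fintype.card_option]
    push_cast
    ring
  have b2 : (A2.card : ℝ) ≤ (q + 1) * (N * (y * x)) := by
    have h1 : (A2.card : ℝ) ≤ ∑ t : Option Λ, N * (y * x) := by
      have h2 : A2.card ≤ _ := card_biUnion_le
      have h3 : (A2.card : ℝ) ≤ ∑ t : Option Λ, ((univ.filter fun
        ω : Smp U W Λ M Q Qs Qn => (Sum.inl (lft e, none) : It U W Λ) ∈ marked ω ∧
        (Sum.inl (rgt e, t) : It U W Λ) ∈ marked ω).card : ℝ) := by exact_mod_cast h2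
      refine h3.trans (Finset.sum_le_sum fun st _ => ?_)
      exact marked2 hwt1 M _ _ (by simp [hlr]) y x (hno _) (hst _ _)
    refine h1.trans (le_of_eq ?_)
    rw [sum_const, card_univ, nsmul_eq_mul, Fintype.card_option]
    push_cast
    ring
  have b3 : (A3.card : ℝ) ≤ (q + 1) * (N * (x * y)) := by
    have h1 : (A3.card : ℝ) ≤ ∑ t : Option Λ, N * (x * y) := by
      have h2 : A3.card ≤ _ := card_biUnion_le
      have h3 : (A3.card : ℝ) ≤ ∑ s : Option Λ, ((univ.filter fun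
        ω : Smp U W Λ M Q Qs Qn => (Sum.inl (lft e, s) : It U W Λ) ∈ marked ω ∧
        (Sum.inl (rgt e, none) : It U W Λ) ∈ marked ω).card : ℝ) := by exact_mod_cast h2
      refine h3.trans (Finset.sum_le_sum fun st _ => ?_)
      exact marked2 hwt1 M _ _ (by simp [hlr]) x y (hst _ _) (hno _)
    refine h1.trans (le_of_eq ?_)
    rw [sum_const, card_univ, nsmul_eq_mul, Fintype.card_option]
    push_cast
    ring
  have hcq : ∀ c : ℝ, 0 ≤ c → ∑ a ∈ (univ : Finset (Λ × Λ)).filter (fun a => a.1 ≠ a.2), c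
      ≤ q ^ 2 * c := by
    intro c hc
    rw [sum_const, nsmul_eq_mul]
    refine mul_le_mul_of_nonneg_right ?_ hc
    have h2 : ((univ : Finset (Λ × Λ)).filter (fun a => a.1 ≠ a.2)).card ≤
        Fintype.card Λ ^ 2 := by
      refine (card_filter_le _ _).trans ?_
      rw [card_univ, Fintype.card_prod, pow_two]
    rw [hq]
    exact_mod_cast h2
  have b4 : (A4.card : ℝ) ≤ q ^ 2 * (N * (x * (x * x))) := by
    refine le_trans ?_ (hcq _ (by positivity))
    have h2 : A4.card ≤ _ := card_biUnion_le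
    have h3 : (A4.card : ℝ) ≤ ∑ a ∈ (univ : Finset (Λ × Λ)).filter (fun a => a.1 ≠ a.2),
        ((univ.filter fun ω : Smp U W Λ M Q Qs Qn =>
        (Sum.inl (lft e, some a.1) : It U W Λ) ∈ marked ω ∧
        (Sum.inl (lft e, some a.2) : It U W Λ) ∈ marked ω ∧
        (Sum.inl (rgt e, some (a.1 + e.2.2)) : It U W Λ) ∈ marked ω).card : ℝ) := by
      exact_mod_cast h2
    refine h3.trans (Finset.sum_le_sum fun a ha => ?_)
    exact marked3 hwt1 M _ _ _ (by simpa using (mem_filter.1 ha).2) (by simp [hlr])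
      (by simp [hlr]) x x x (hst _ _) (hst _ _) (hst _ _)
  have b5 : (A5.card : ℝ) ≤ q ^ 2 * (N * (x * (x * x))) := by
    refine le_trans ?_ (hcq _ (by positivity))
    have h2 : A5.card ≤ _ := card_biUnion_le
    have h3 : (A5.card : ℝ) ≤ ∑ b ∈ (univ : Finset (Λ × Λ)).filter (fun a => a.1 ≠ a.2),
        ((univ.filter fun ω : Smp U W Λ M Q Qs Qn =>
        (Sum.inl (lft e, some (b.1 - e.2.2)) : It U W Λ) ∈ marked ω ∧
        (Sum.inl (rgt e, some b.1) : It U W Λ) ∈ marked ω ∧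
        (Sum.inl (rgt e, some b.2) : It U W Λ) ∈ marked ω).card : ℝ) := by
      exact_mod_cast h2
    refine h3.trans (Finset.sum_le_sum fun a ha => ?_)
    exact marked3 hwt1 M _ _ _ (by simp [hlr]) (by simp [hlr])
      (by simpa using (mem_filter.1 ha).2) x x x (hst _ _) (hst _ _) (hst _ _)
  have h6 : ((univ.filter fun ω : Smp U W Λ M Q Qs Qn => e ∈ vio (marked ω)).card : ℝ) ≤
      (A1.card + (A2.card + A3.card)) + (A4.card + A5.card) := by
    have h7 := (card_le_card hsub).trans ((card_union_le _ _).trans (Nat.add_le_add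
      ((card_union_le _ _).trans (Nat.add_le_add_left (card_union_le _ _) _))
      (card_union_le _ _)))
    exact_mod_cast h7
  have hq2 : q + 1 ≤ 2 * q := by linarith
  have hq4 : (q + 1) ^ 2 ≤ 4 * q ^ 2 := by nlinarith
  calc _ ≤ _ := h6
    _ ≤ ((q + 1) ^ 2 * (N * (x * (x * z))) + ((q + 1) * (N * (y * x)) +
        (q + 1) * (N * (x * y)))) + (q ^ 2 * (N * (x * (x * x))) +
        q ^ 2 * (N * (x * (x * x)))) := by linarith
    _ ≤ (4 * q ^ 2 * (N * (x * (x * z))) + (2 * q * (N * (y * x)) +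
        2 * q * (N * (x * y)))) + (q ^ 2 * (N * (x * (x * x))) +
        q ^ 2 * (N * (x * (x * x)))) := by gcongr
    _ = _ := by ring

/-- the expected number of violated constraints -/
theorem vio_sum (M Q Qs Qn : ℕ) (hQ : 1 ≤ Q) (hQs : Q ≤ Qs) (hQn : 1 ≤ Qn) (x y z : ℝ)
    (hx : (M : ℝ) / Q = x) (hy : (M : ℝ) / Qs = y) (hz : (M : ℝ) / Qn = z) :
    ∑ ω : Smp U W Λ M Q Qs Qn, ((vio (marked ω)).card : ℝ) ≤
      Fintype.card (Smp U W Λ M Q Qs Qn) * (Fintype.card U * Fintype.card W *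
        (4 * (Fintype.card Λ : ℝ) ^ 3 * x ^ 2 * z +
        4 * (Fintype.card Λ : ℝ) ^ 2 * x * y + 2 * (Fintype.card Λ : ℝ) ^ 3 * x ^ 3)) := by
  have h1 : ∑ ω : Smp U W Λ M Q Qs Qn, ((vio (marked ω)).card : ℝ) =
      ∑ e : U × W × Λ, ((univ.filter fun ω : Smp U W Λ M Q Qs Qn =>
        e ∈ vio (marked ω)).card : ℝ) := by
    have h2 : ∀ ω : Smp U W Λ M Q Qs Qn, ((vio (marked ω)).card : ℝ) =
        ∑ e : U × W × Λ, if e ∈ vio (marked ω) then 1 else 0 := by
      intro ω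
      rw [Finset.sum_ite_mem, univ_inter, sum_const, nsmul_eq_mul, mul_one]
    simp only [h2]
    rw [Finset.sum_comm]
    refine Finset.sum_congr rfl fun e _ => ?_
    rw [← Finset.sum_filter, sum_const, nsmul_eq_mul, mul_one]
  rw [h1]
  calc _ ≤ ∑ e : U × W × Λ, (Fintype.card (Smp U W Λ M Q Qs Qn) *
        (4 * (Fintype.card Λ : ℝ) ^ 2 * x ^ 2 * z +
        4 * Fintype.card Λ * x * y + 2 * (Fintype.card Λ : ℝ) ^ 2 * x ^ 3) : ℝ) :=
        Finset.sum_le_sum fun e _ => vio_one M Q Qs Qn hQ hQs hQn x y z hx hy hz e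
    _ = _ := by
        rw [sum_const, card_univ, nsmul_eq_mul, Fintype.card_prod, Fintype.card_prod]
        push_cast
        ring

/-- most negative tests have few violated constraints -/
theorem vio_most (M Q Qs Qn : ℕ) (hQ : 1 ≤ Q) (hQs : Q ≤ Qs) (hQn : 1 ≤ Qn) (x y z b : ℝ)
    (hx : (M : ℝ) / Q = x) (hy : (M : ℝ) / Qs = y) (hz : (M : ℝ) / Qn = z) (hb : 0 < b)
    (h : 8 * (Fintype.card U * Fintype.card W *
        (4 * (Fintype.card Λ : ℝ) ^ 3 * x ^ 2 * z +
        4 * (Fintype.card Λ : ℝ) ^ 2 * x * y + 2 * (Fintype.card Λ : ℝ) ^ 3 * x ^ 3)) ≤ b) :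
    8 * ((univ.filter fun ω : Smp U W Λ M Q Qs Qn => b < (vio (marked ω)).card).card : ℝ) ≤
      Fintype.card (Smp U W Λ M Q Qs Qn) := by
  have h1 := vio_sum (U := U) (W := W) (Λ := Λ) M Q Qs Qn hQ hQs hQn x y z hx hy hz
  have h2 : ((univ.filter fun ω : Smp U W Λ M Q Qs Qn => b < (vio (marked ω)).card).card : ℝ) * b ≤
      ∑ ω : Smp U W Λ M Q Qs Qn, ((vio (marked ω)).card : ℝ) := by
    calc _ = ∑ ω ∈ (univ.filter fun ω : Smp U W Λ M Q Qs Qn => b < (vio (marked ω)).card), b := by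
          rw [sum_const, nsmul_eq_mul]
      _ ≤ ∑ ω ∈ (univ.filter fun ω : Smp U W Λ M Q Qs Qn => b < (vio (marked ω)).card),
          ((vio (marked ω)).card : ℝ) := by
          refine Finset.sum_le_sum fun ω hω => ?_
          exact (mem_filter.1 hω).2.le
      _ ≤ _ := Finset.sum_le_sum_of_subset_of_nonneg (subset_univ _)
          fun _ _ _ => Nat.cast_nonneg _
  set N : ℝ := (Fintype.card (Smp U W Λ M Q Qs Qn) : ℝ) with hN
  have hN0 : 0 ≤ N := Nat.cast_nonneg _
  set n1 : ℝ := ((univ.filter fun ω : Smp U W Λ M Q Qs Qn =>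
    b < (vio (marked ω)).card).card : ℝ) with hn1
  have h3 : 8 * n1 * b ≤ N * b := by
    calc 8 * n1 * b = 8 * (n1 * b) := by ring
      _ ≤ 8 * (N * (Fintype.card U * Fintype.card W *
        (4 * (Fintype.card Λ : ℝ) ^ 3 * x ^ 2 * z +
        4 * (Fintype.card Λ : ℝ) ^ 2 * x * y + 2 * (Fintype.card Λ : ℝ) ^ 3 * x ^ 3))) := by
          linarith
      _ = N * (8 * (Fintype.card U * Fintype.card W *
        (4 * (Fintype.card Λ : ℝ) ^ 3 * x ^ 2 * z +
        4 * (Fintype.card Λ : ℝ) ^ 2 * x * y + 2 * (Fintype.card Λ : ℝ) ^ 3 * x ^ 3))) := by ring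
      _ ≤ N * b := mul_le_mul_of_nonneg_left h hN0
  exact le_of_mul_le_mul_right h3 hb

end

end Pool.Agent.W906.MU
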