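import Pool.Agent.W906.MU.Defs
import Pool.Agent.W906.MU.Neg

/-! # From the abstract tests to unique games (helper906) -/

open scoped Classical
open Finset

namespace Pool.Agent.W906.MU

section

variable {N q : ℕ} [NeZero q] {U W R : Type} (iU : U ⊕ R → Fin N) (iW : W ⊕ R → Fin N)

/-- the embedding of the constraints -/
def emb (e : U × W × Fin q) : Con N q :=
  (iU (Sum.inl e.1), iW (Sum.inl e.2.1), Equiv.addRight e.2.2)

theorem emb_inj (hU : Function.Injective iU) (hW : Function.Injective iW) :
    Function.Injective (emb (q := q) iU iW) := by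
  intro e e' h
  unfold emb at h
  simp only [Prod.mk.injEq] at h
  obtain ⟨h1, h2, h3⟩ := h
  have h4 : e.1 = e'.1 := Sum.inl_injective (hU h1)
  have h5 : e.2.1 = e'.2.1 := Sum.inl_injective (hW h2)
  have h6 : e.2.2 = e'.2.2 := by
    have := congrArg (fun π : Equiv.Perm (Fin q) => π 0) h3
    simpa using this
  exact Prod.ext h4 (Prod.ext h5 h6)

/-- the game with the given constraints -/
noncomputable def gp (Z : Finset (U × W × Fin q)) : Game N q := Z.image (emb iU iW)

/-- the reserved constraints -/
noncomputable def res (q : ℕ) [Fintype R] : Game N q :=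
  univ.image fun r : R × R => (iU (Sum.inr r.1), iW (Sum.inr r.2), 1)

/-- the game with the given constraints and the reserved constraints -/
noncomputable def gn [Fintype R] (Z : Finset (U × W × Fin q)) : Game N q :=
  gp iU iW Z ∪ res iU iW q

variable {iU iW}

theorem mem_gp (hU : Function.Injective iU) (hW : Function.Injective iW)
    {Z : Finset (U × W × Fin q)} {e : U × W × Fin q} : emb iU iW e ∈ gp iU iW Z ↔ e ∈ Z := by
  unfold gp
  rw [mem_image]
  constructor
  · rintro ⟨e', he', h⟩
    rw [← emb_inj iU iW hU hW h]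
    exact he'
  · exact fun h => ⟨e, h, rfl⟩

variable [Fintype R]

theorem mem_gn (hU : Function.Injective iU) (hW : Function.Injective iW)
    {Z : Finset (U × W × Fin q)} {e : U × W × Fin q} : emb iU iW e ∈ gn iU iW Z ↔ e ∈ Z := by
  unfold gn
  rw [mem_union, mem_gp hU hW]
  constructor
  · rintro (h | h)
    · exact h
    · exfalso
      unfold res at h
      obtain ⟨r, -, hr⟩ := mem_image.1 h
      unfold emb at hr
      simp only [Prod.mk.injEq] at hr
      exact absurd (hU hr.1) (by simp)
  · exact fun h => Or.inl h

theorem card_gn (hU : Function.Injective iU) (hW : Function.Injective iW)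
    (Z : Finset (U × W × Fin q)) : Fintype.card R * Fintype.card R ≤ (gn iU iW Z).card := by
  have h1 : (res iU iW q).card = Fintype.card R * Fintype.card R := by
    unfold res
    rw [card_image_of_injective, card_univ, Fintype.card_prod]
    intro r r' h
    simp only [Prod.mk.injEq, and_true] at h
    exact Prod.ext (Sum.inr_injective (hU h.1)) (Sum.inr_injective (hW h.2))
  rw [← h1]
  exact card_le_card subset_union_right

omit [Fintype R] in
/-- the instances of small value -/
theorem no_gp (hU : Function.Injective iU) (hW : Function.Injective iW) {m : ℕ} {δ : ℝ}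
    {Z : Finset (U × W × Fin q)} (hm : Z.card = m)
    (h : ∀ f : U ⊕ W → Fin q, ((Z.filter fun e => SatE f e).card : ℝ) ≤ δ * m) :
    NoI m δ (gp iU iW Z) := by
  refine ⟨?_, fun f g => ?_⟩
  · unfold gp
    rw [card_image_of_injective _ (emb_inj iU iW hU hW), hm]
  · set F : U ⊕ W → Fin q := fun p => match p with
      | Sum.inl u => f (iU (Sum.inl u))
      | Sum.inr w => g (iW (Sum.inl w)) with hF
    refine le_trans ?_ (h F)
    have h1 : (gp iU iW Z).filter (fun e => Sat f g e) ⊆
        (Z.filter fun e => SatE F e).image (emb iU iW) := by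
      intro e he
      obtain ⟨h2, h3⟩ := mem_filter.1 he
      unfold gp at h2
      obtain ⟨e', he', rfl⟩ := mem_image.1 h2
      refine mem_image.2 ⟨e', mem_filter.2 ⟨he', ?_⟩, rfl⟩
      exact h3
    have h2 := (card_le_card h1).trans card_image_le
    exact_mod_cast h2

variable [Fintype U] [Fintype W]

/-- the instances with few violated constraints -/
theorem yes_gn (hU : Function.Injective iU) (hW : Function.Injective iW) {m : ℕ} {ε : ℝ}
    (hm : m ≤ Fintype.card R * Fintype.card R) (T : Finset (It U W (Fin q)))
    (h : ((vio T).card : ℝ) ≤ ε * m) :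
    YesI m ε (gn iU iW (univ.filter fun e => Der T e)) := by
  refine ⟨hm.trans (card_gn hU hW _), Function.extend (fun u => iU (Sum.inl u))
    (fun u => lab T (Sum.inl u)) (fun _ => 0), Function.extend (fun w => iW (Sum.inl w))
    (fun w => lab T (Sum.inr w)) (fun _ => 0), ?_⟩
  refine le_trans ?_ h
  have hU' : Function.Injective (fun u : U => iU (Sum.inl u)) := hU.comp Sum.inl_injective
  have hW' : Function.Injective (fun w : W => iW (Sum.inl w)) := hW.comp Sum.inl_injective
  have h1 : ((gn iU iW (univ.filter fun e => Der T e)).filter fun e => ¬ Sat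
      (Function.extend (fun u => iU (Sum.inl u)) (fun u => lab T (Sum.inl u)) (fun _ => 0))
      (Function.extend (fun w => iW (Sum.inl w)) (fun w => lab T (Sum.inr w)) (fun _ => 0)) e) ⊆
      (vio T).image (emb iU iW) := by
    intro e he
    obtain ⟨h2, h3⟩ := mem_filter.1 he
    unfold gn at h2
    rcases mem_union.1 h2 with h2 | h2
    · unfold gp at h2
      obtain ⟨e', he', rfl⟩ := mem_image.1 h2
      refine mem_image.2 ⟨e', ?_, rfl⟩
      unfold vio
      refine mem_filter.2 ⟨mem_univ _, (mem_filter.1 he').2, fun h4 => h3 ?_⟩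
      unfold Sat emb
      simp only [Equiv.coe_addRight]
      have e1 := hU'.extend_apply (fun u => lab T (Sum.inl u)) (fun _ => (0 : Fin q)) e'.1
      have e2 := hW'.extend_apply (fun w => lab T (Sum.inr w)) (fun _ => (0 : Fin q)) e'.2.1
      rw [e1, e2]
      exact h4
    · exfalso
      apply h3
      unfold res at h2
      obtain ⟨r, -, rfl⟩ := mem_image.1 h2
      unfold Sat
      simp only [Equiv.Perm.coe_one, id_eq]
      rw [Function.extend_apply', Function.extend_apply']
      · rintro ⟨w, hw⟩
        exact absurd (hW hw) (by simp)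
      · rintro ⟨u, hu⟩
        exact absurd (hU hu) (by simp)
  have h2 := (card_le_card h1).trans card_image_le
  exact_mod_cast h2

/-- the inputs -/
theorem raw_inputs (hU : Function.Injective iU) (hW : Function.Injective iW) {X : Type}
    (M Q Qs Qn k l : ℕ) (hk : 3 ≤ k) (tr : X → Ker U W (Fin q)) (htr : ∀ x, Valid (tr x))
    (g : Game N q → ℝ) (hg : g ∈ inputs N q) :
    ∃ lam : Sta U W (Fin q) l → ℝ, Raw M Q Qs Qn k tr ∅ ∅ lam
      (fun x => g (gp iU iW (tr x).1))
      (fun ω => g (gn iU iW (univ.filter fun e => Der (marked ω) e))) := by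
  rcases hg with ⟨c, rfl⟩ | ⟨c, rfl⟩
  · by_cases hc : ∃ e : U × W × Fin q, emb iU iW e = c
    · obtain ⟨e, rfl⟩ := hc
      refine ⟨fun β => if Der β.1 e then 1 else 0, ?_⟩
      have h1 := raw_bit (l := l) M Q Qs Qn k hk tr htr e
      have e1 : (fun x => if emb iU iW e ∈ gp iU iW (tr x).1 then (1 : ℝ) else 0) =
          fun x => if e ∈ (tr x).1 then 1 else 0 := by
        funext x
        simp only [mem_gp hU hW]
      have e2 : (fun ω : Smp U W (Fin q) M Q Qs Qn =>
          if emb iU iW e ∈ gn iU iW (univ.filter fun e => Der (marked ω) e) then (1 : ℝ) else 0) =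
          fun ω => if Der (marked ω) e then 1 else 0 := by
        funext ω
        simp only [mem_gn hU hW, mem_filter, mem_univ, true_and]
      show Raw M Q Qs Qn k tr ∅ ∅ _
        (fun x => if emb iU iW e ∈ gp iU iW (tr x).1 then (1 : ℝ) else 0)
        (fun ω : Smp U W (Fin q) M Q Qs Qn =>
          if emb iU iW e ∈ gn iU iW (univ.filter fun e => Der (marked ω) e) then (1 : ℝ) else 0)
      rw [e1, e2]
      convert h1
    · refine ⟨_, raw_triv (l := l) M Q Qs Qn k tr _ _ 0 ?_ ?_⟩
      · intro x
        have : c ∉ gp iU iW (tr x).1 := by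
          intro h
          unfold gp at h
          obtain ⟨e, -, he⟩ := mem_image.1 h
          exact hc ⟨e, he⟩
        simp only [this, if_false, le_refl]
      · intro ω
        show (0 : ℝ) ≤ if _ then 1 else 0
        split_ifs <;> norm_num
  · exact ⟨_, raw_triv (l := l) M Q Qs Qn k tr _ _ c (fun _ => le_rfl) (fun _ => le_rfl)⟩

end

end Pool.Agent.W906.MU
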