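import Pool.Agent.W906.MU.Core

/-! # The choice of the parameters (helper906) -/

open scoped Classical
open Finset

namespace Pool.Agent.W906.MU

/-- the degree of the positive tests -/
theorem exists_tD (q : ℕ) (hq : 1 ≤ q) (δ : ℝ) (hδ : 1 / (q : ℝ) < δ) :
    ∃ (t : ℝ) (D : ℕ), 1 ≤ t ∧ 1 ≤ D ∧ ∀ n : ℕ, 1 ≤ n →
      8 * ((q : ℝ) ^ (n + n) * (((q : ℝ) - 1 + t) / (q * t ^ δ)) ^ (n * D)) ≤ 1 := by
  have hq0 : (0 : ℝ) < q := by exact_mod_cast hq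
  have hq1 : (1 : ℝ) ≤ q := by exact_mod_cast hq
  have hδq : 1 < δ * q := by rwa [div_lt_iff₀ hq0] at hδ
  have hδ0 : 0 < δ := lt_trans (by positivity) hδ
  set t : ℝ := (1 + δ * q) / 2 with ht
  have ht1 : 1 < t := by rw [ht]; linarith
  have ht2 : t < δ * q := by rw [ht]; linarith
  have ht0 : 0 < t := by linarith
  have htd : 1 + δ * (1 - 1 / t) ≤ t ^ δ := by
    rw [Real.rpow_def_of_pos ht0]
    have h1 : 1 - t⁻¹ ≤ Real.log t := Real.one_sub_inv_le_log_of_pos ht0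
    have h2 := Real.add_one_le_exp (Real.log t * δ)
    have h3 : δ * (1 - 1 / t) ≤ Real.log t * δ := by
      rw [one_div, mul_comm (Real.log t)]
      exact mul_le_mul_of_nonneg_left h1 hδ0.le
    linarith
  have htd0 : 0 < t ^ δ := Real.rpow_pos_of_pos ht0 δ
  set ρ : ℝ := ((q : ℝ) - 1 + t) / (q * t ^ δ) with hρ
  have hρ0 : 0 ≤ ρ := by
    rw [hρ]
    apply div_nonneg
    · linarith
    · positivity
  have hρ1 : ρ < 1 := by
    rw [hρ, div_lt_one (by positivity)]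
    have h4 : (q : ℝ) * (1 + δ * (1 - 1 / t)) ≤ q * t ^ δ := mul_le_mul_of_nonneg_left htd hq0.le
    refine lt_of_lt_of_le ?_ h4
    have h5 : (q : ℝ) * (1 + δ * (1 - 1 / t)) = q + (δ * q) * ((t - 1) / t) := by
      field_simp
    rw [h5]
    have h6 : t - 1 < (δ * q) * ((t - 1) / t) := by
      rw [← mul_div_assoc, lt_div_iff₀ ht0]
      nlinarith
    linarith
  obtain ⟨D, hD⟩ := exists_pow_lt_of_lt_one (show (0 : ℝ) < 1 / (8 * (q : ℝ) ^ 2) by positivity) hρ1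
  have h8 : (q : ℝ) ^ 2 * ρ ^ D ≤ 1 / 8 := by
    have h9 := mul_le_mul_of_nonneg_left hD.le (show (0 : ℝ) ≤ (q : ℝ) ^ 2 by positivity)
    refine h9.trans (le_of_eq ?_)
    field_simp
  have hD1 : 1 ≤ D := by
    rcases Nat.eq_zero_or_pos D with h | h
    · rw [h, pow_zero] at hD
      rw [lt_div_iff₀ (by positivity)] at hD
      nlinarith
    · exact h
  refine ⟨t, D, ht1.le, hD1, fun n hn => ?_⟩
  have h10 : (q : ℝ) ^ (n + n) * ρ ^ (n * D) = ((q : ℝ) ^ 2 * ρ ^ D) ^ n := by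
    rw [mul_pow, ← pow_mul, ← pow_mul]
    congr 2
    · ring
    · ring
  rw [h10]
  have h11 : ((q : ℝ) ^ 2 * ρ ^ D) ^ n ≤ (1 / 8) ^ n := pow_le_pow_left₀ (by positivity) h8 n
  have h12 : (1 / 8 : ℝ) ^ n ≤ (1 / 8) ^ 1 := pow_le_pow_of_le_one (by norm_num) (by norm_num) hn
  linarith

/-- polynomials are smaller than exponentials -/
theorem exists_exp (c k : ℕ) : ∃ L1 : ℕ, ∀ L, L1 ≤ L → c * L ^ k ≤ 2 ^ L := by
  have h := tendsto_pow_const_div_const_pow_of_one_lt k (r := (2 : ℝ)) (by norm_num)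
  have h1 : ∀ᶠ n : ℕ in Filter.atTop, (n : ℝ) ^ k / 2 ^ n < 1 / (c + 1) :=
    h.eventually_lt_const (by positivity)
  obtain ⟨L1, hL1⟩ := Filter.eventually_atTop.1 h1
  refine ⟨L1, fun L hL => ?_⟩
  have h2 := hL1 L hL
  rw [div_lt_div_iff₀ (by positivity) (by positivity), one_mul] at h2
  have h3 : (c : ℝ) * L ^ k ≤ 2 ^ L := by
    have h4 : (0 : ℝ) ≤ (L : ℝ) ^ k := by positivity
    nlinarith
  exact_mod_cast h3

/-- the theorem for given `L` -/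
theorem main_L (q : ℕ) (hq : 1 ≤ q) (δ : ℝ) (hδ : 1 / (q : ℝ) < δ) :
    ∃ C L1 : ℕ, 1 ≤ C ∧ 1 ≤ L1 ∧ ∀ L, L1 ≤ L → ∀ N, C * L ^ 138 ≤ N → ∃ m : ℕ, 0 < m ∧
      ∀ ε : ℝ, 1 / (L : ℝ) ≤ ε → ∀ (Ω : Type) [Fintype Ω] [Nonempty Ω]
      (l : Ω → List (Game N q → ℝ)), (∀ ω, Prog (inputs N q) (l ω)) → Separates m δ ε l →
      ∃ ω, 2 ^ L ≤ (l ω).length := by
  have : NeZero q := ⟨by omega⟩
  obtain ⟨t, D, ht, hD, hval⟩ := exists_tD q hq δ hδ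
  obtain ⟨a, ha⟩ : ∃ a : ℕ, a = (10100 * q) ^ 16 := ⟨_, rfl⟩
  have ha1 : 1 ≤ a := by rw [ha]; exact Nat.one_le_pow _ _ (by omega)
  obtain ⟨C, hC⟩ : ∃ C : ℕ, C = D * 16 * a * (805306368 * q ^ 3 * 16 * a + 1) := ⟨_, rfl⟩
  have hC1 : 1 ≤ C := by
    rw [hC]
    exact Nat.mul_pos (by positivity) (by positivity)
  obtain ⟨L1, hL1⟩ := exists_exp (120 * ((q + 1) * (C + 1) ^ 2) ^ 2) 552
  refine ⟨C, max L1 3, hC1, (le_max_right _ _).trans' (by norm_num), fun L hL N hN => ?_⟩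
  have hL3 : 3 ≤ L := (le_max_right _ _).trans hL
  have hLexp := hL1 L ((le_max_left _ _).trans hL)
  obtain ⟨b, hb⟩ : ∃ b : ℕ, b = 10100 * q * L ^ 4 := ⟨_, rfl⟩
  have hb16 : b ^ 16 = a * L ^ 64 := by rw [hb, ha, mul_pow, ← pow_mul]
  have hLpos : 0 < L := by omega
  have hbpos : 0 < b := by rw [hb]; positivity
  obtain ⟨Ke, hKe⟩ : ∃ Ke : ℕ, Ke = 16 * b ^ 16 := ⟨_, rfl⟩
  have hKepos : 0 < Ke := by rw [hKe]; positivity
  obtain ⟨Q, hQ⟩ : ∃ Q : ℕ, Q = 3145728 * q ^ 3 * Ke * L ^ 9 := ⟨_, rfl⟩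
  have hQpos : 0 < Q := by rw [hQ]; positivity
  obtain ⟨Qs, hQs⟩ : ∃ Qs : ℕ, Qs = 6291456 * q ^ 2 * Ke * L ^ 7 * Q := ⟨_, rfl⟩
  have hQsQ : Q ≤ Qs := by
    rw [hQs]
    exact Nat.le_mul_of_pos_left _ (by positivity)
  obtain ⟨Qn, hQn⟩ : ∃ Qn : ℕ, Qn = 6291456 * q ^ 3 * Ke * L ^ 9 := ⟨_, rfl⟩
  have hQnpos : 0 < Qn := by rw [hQn]; positivity
  obtain ⟨Kv, hKv⟩ : ∃ Kv : ℕ, Kv = 256 * L * Q := ⟨_, rfl⟩
  have hKvpos : 0 < Kv := by rw [hKv]; positivity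
  obtain ⟨n, hn⟩ : ∃ n : ℕ, n = D * Ke := ⟨_, rfl⟩
  have hnpos : 0 < n := by rw [hn]; positivity
  have hL1' : 1 ≤ L := hLpos
  -- the number of vertices
  have hV : n * Kv + n ≤ C * L ^ 138 := by
    have e1 : n * Kv = D * 16 * a * (805306368 * q ^ 3 * 16 * a) * L ^ 138 := by
      rw [hKv, hQ, hn, hKe, hb16]; ring
    have e2 : n = D * 16 * a * L ^ 64 := by rw [hn, hKe, hb16]; ring
    have e3 : L ^ 64 ≤ L ^ 138 := Nat.pow_le_pow_right hLpos (by norm_num)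
    calc n * Kv + n = D * 16 * a * (805306368 * q ^ 3 * 16 * a) * L ^ 138 +
          D * 16 * a * L ^ 64 := by rw [e1, e2]
      _ ≤ D * 16 * a * (805306368 * q ^ 3 * 16 * a) * L ^ 138 + D * 16 * a * L ^ 138 :=
          Nat.add_le_add_left (Nat.mul_le_mul_left _ e3) _
      _ = _ := by rw [hC]; ring
  have hnn : Nonempty (Fin n) := ⟨⟨0, hnpos⟩⟩
  have hDD : Nonempty (Fin D) := ⟨⟨0, hD⟩⟩
  have hEE : Nonempty (Fin Ke) := ⟨⟨0, hKepos⟩⟩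
  have hKK : Nonempty (Fin Kv) := ⟨⟨0, hKvpos⟩⟩
  refine ⟨n * D, by positivity, fun ε hε Ω _ _ l hl hsep => ?_⟩
  -- real versions
  have hqR : (1 : ℝ) ≤ q := by exact_mod_cast hq
  have hLR : (1 : ℝ) ≤ L := by exact_mod_cast hL1'
  have hbR : (b : ℝ) = 10100 * q * (L : ℝ) ^ 4 := by rw [hb]; push_cast; ring
  have hKeR : (Ke : ℝ) = 16 * (b : ℝ) ^ 16 := by rw [hKe]; push_cast; ring
  have hQR : (Q : ℝ) = 3145728 * (q : ℝ) ^ 3 * Ke * (L : ℝ) ^ 9 := by rw [hQ]; push_cast; ring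
  have hQsR : (Qs : ℝ) = 6291456 * (q : ℝ) ^ 2 * Ke * (L : ℝ) ^ 7 * Q := by
    rw [hQs]; push_cast; ring
  have hQnR : (Qn : ℝ) = 6291456 * (q : ℝ) ^ 3 * Ke * (L : ℝ) ^ 9 := by
    rw [hQn]; push_cast; ring
  have hKvR : (Kv : ℝ) = 256 * L * Q := by rw [hKv]; push_cast; ring
  have hnR : (n : ℝ) = D * Ke := by rw [hn]; push_cast; ring
  have hb1 : (1 : ℝ) ≤ b := by exact_mod_cast hbpos
  have hQ0 : (0 : ℝ) < Q := by exact_mod_cast hQpos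
  have hKe0 : (0 : ℝ) < Ke := by exact_mod_cast hKepos
  have hD0 : (0 : ℝ) < D := by exact_mod_cast hD
  have hq0 : (0 : ℝ) < q := by linarith
  have hL0 : (0 : ℝ) < L := by linarith
  have hb0 : (0 : ℝ) < b := by linarith
  have hp : ∀ i j : ℕ, i ≤ j → (L : ℝ) ^ i ≤ (L : ℝ) ^ j := fun i j h => pow_le_pow_right₀ hLR h
  have hKR : KR (Fin n × Fin Kv) ((Fin D × Fin Ke) × Fin Kv) (Fin q) (L ^ 2) Q Qs Qn (2 * L)
      (16 * L * Q) ((b : ℝ) ^ 16) := by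
    refine KR_of (2 * L) (L ^ 2) Q Qs Qn (16 * L * Q) b (by omega) hQpos (hQpos.trans_le hQsQ)
      hQnpos ?_ ?_ ?_ ?_ hb1
    · push_cast
      refine le_of_eq ?_
      ring
    · push_cast
      have h1 : 100663296 * (q : ℝ) ^ 2 * (L : ℝ) ^ 7 ≤ (b : ℝ) ^ 2 := by
        rw [hbR]
        have h2 := hp 7 8 (by norm_num)
        have h3 : (0 : ℝ) ≤ (q : ℝ) ^ 2 := by positivity
        calc 100663296 * (q : ℝ) ^ 2 * (L : ℝ) ^ 7 ≤ 102010000 * (q : ℝ) ^ 2 * (L : ℝ) ^ 8 := by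
              gcongr
              norm_num
          _ = _ := by ring
      calc 8 * (2 * (L : ℝ)) * Qs = (16 * L * Q) * (b : ℝ) ^ 16 *
            (100663296 * (q : ℝ) ^ 2 * (L : ℝ) ^ 7) := by rw [hQsR, hKeR]; ring
        _ ≤ (16 * L * Q) * (b : ℝ) ^ 16 * (b : ℝ) ^ 2 := by gcongr
        _ = _ := by ring
    · push_cast
      have h1 : 1610612736 * (q : ℝ) ^ 3 * (L : ℝ) ^ 10 ≤ (b : ℝ) ^ 3 := by
        rw [hbR]
        have h2 := hp 10 12 (by norm_num)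
        calc 1610612736 * (q : ℝ) ^ 3 * (L : ℝ) ^ 10 ≤
              1030301000000 * (q : ℝ) ^ 3 * (L : ℝ) ^ 12 := by
              gcongr
              norm_num
          _ = _ := by ring
      calc 8 * (2 * (L : ℝ)) * Qn = (b : ℝ) ^ 16 *
            (1610612736 * (q : ℝ) ^ 3 * (L : ℝ) ^ 10) := by rw [hQnR, hKeR]; ring
        _ ≤ (b : ℝ) ^ 16 * (b : ℝ) ^ 3 := by gcongr
        _ = (b : ℝ) ^ 19 := by ring
        _ ≤ (b : ℝ) ^ 27 := pow_le_pow_right₀ hb1 (by norm_num)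
    · rw [Fintype.card_fin]
      push_cast
      rw [hbR]
      have h2 := hp 2 4 (by norm_num)
      calc 2 * (2 * (L : ℝ)) ^ 2 * q = 8 * q * (L : ℝ) ^ 2 := by ring
        _ ≤ 10100 * q * (L : ℝ) ^ 4 := by gcongr; norm_num
  refine core (m := n * D) (A := Fin n) (D := Fin D) (E := Fin Ke) (K := Fin Kv) (L := L)
    (M := L ^ 2) (Q := Q) (Qs := Qs) (Qn := Qn) (Av := 16 * L * Q) (B := (b : ℝ) ^ 16)
    (δ := δ) (t := t) (ε := ε) (x := ((L ^ 2 : ℕ) : ℝ) / Q) (y := ((L ^ 2 : ℕ) : ℝ) / Qs)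
    (z := ((L ^ 2 : ℕ) : ℝ) / Qn)
    ?_ ?_ ?_ ?_ hL3 ?_ hQpos hQsQ hQnpos (by positivity) (by positivity) hKR ?_ ?_ ht ?_ rfl rfl
    rfl ?_ ?_ hε Ω l hl hsep
  · rw [Fintype.card_fin, Fintype.card_fin]
  · rw [Fintype.card_fin, Fintype.card_fin, hn]
    exact Nat.le_mul_of_pos_right _ hKepos
  · rw [Fintype.card_fin, Fintype.card_fin, Fintype.card_fin, hn]
  · rw [Fintype.card_fin, Fintype.card_fin]
    exact hV.trans hN
  · exact Nat.one_le_pow _ _ hLpos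
  · rw [Fintype.card_fin, hKvR]
    refine le_of_eq ?_
    ring
  · rw [Fintype.card_fin, hKeR]
    have h1 : (0 : ℝ) ≤ 16 * (b : ℝ) ^ 16 := by positivity
    nlinarith
  · rw [Fintype.card_fin, Fintype.card_fin, Fintype.card_fin, ← hn]
    exact hval n hnpos
  · rw [Fintype.card_fin, Fintype.card_fin]
    refine le_of_eq ?_
    push_cast
    rw [hQnR, hQsR, hnR, hKvR]
    have hQ1 : (Q : ℝ) ≠ 0 := hQ0.ne'
    have e1 : 8 * ((D * Ke : ℝ) * (256 * L * Q) * ((D : ℝ) * Ke * (256 * L * Q)) *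
        (4 * (q : ℝ) ^ 3 * ((L : ℝ) ^ 2 / Q) ^ 2 *
          ((L : ℝ) ^ 2 / (6291456 * (q : ℝ) ^ 3 * Ke * (L : ℝ) ^ 9)))) =
        1 / 3 * (D * Ke * D / L) := by
      field_simp
      ring
    have e2 : 8 * ((D * Ke : ℝ) * (256 * L * Q) * ((D : ℝ) * Ke * (256 * L * Q)) *
        (4 * (q : ℝ) ^ 2 * ((L : ℝ) ^ 2 / Q) *
          ((L : ℝ) ^ 2 / (6291456 * (q : ℝ) ^ 2 * Ke * (L : ℝ) ^ 7 * Q)))) =
        1 / 3 * (D * Ke * D / L) := by
      field_simp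
      ring
    have e3 : 8 * ((D * Ke : ℝ) * (256 * L * Q) * ((D : ℝ) * Ke * (256 * L * Q)) *
        (2 * (q : ℝ) ^ 3 * ((L : ℝ) ^ 2 / Q) ^ 3)) =
        1 / 3 * (D * Ke * D / L) := by
      have h1 : 8 * ((D * Ke : ℝ) * (256 * L * Q) * ((D : ℝ) * Ke * (256 * L * Q)) *
        (2 * (q : ℝ) ^ 3 * ((L : ℝ) ^ 2 / Q) ^ 3)) = 1048576 * (q : ℝ) ^ 3 * (D * Ke) ^ 2 *
          (L : ℝ) ^ 8 / Q := by
        field_simp
        ring
      rw [h1, hQR]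
      field_simp
      ring
    linear_combination e1 + e2 + e3
  · have hcard : Fintype.card (It (Fin n × Fin Kv) ((Fin D × Fin Ke) × Fin Kv) (Fin q)) + 1 ≤
        (q + 1) * (n * Kv + 1) ^ 2 := by
      simp only [Fintype.card_sum, Fintype.card_prod, Fintype.card_option, Fintype.card_fin]
      rw [← hn]
      generalize n * Kv = V
      nlinarith
    have h1 : n * Kv + 1 ≤ (C + 1) * L ^ 138 := by
      have h2 : 1 ≤ L ^ 138 := Nat.one_le_pow _ _ hLpos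
      calc n * Kv + 1 ≤ C * L ^ 138 + L ^ 138 := by omega
        _ = _ := by ring
    have h2 : 120 * ((q + 1) * (n * Kv + 1) ^ 2) ^ 2 ≤ 2 ^ L := by
      refine le_trans ?_ hLexp
      calc 120 * ((q + 1) * (n * Kv + 1) ^ 2) ^ 2 ≤
            120 * ((q + 1) * ((C + 1) * L ^ 138) ^ 2) ^ 2 := by gcongr
        _ = _ := by ring
    calc 60 * 2 ^ L * (Fintype.card (It (Fin n × Fin Kv) ((Fin D × Fin Ke) × Fin Kv)
          (Fin q)) + 1) ^ (2 * L) ≤ 60 ^ L * 2 ^ L * ((q + 1) * (n * Kv + 1) ^ 2) ^ (2 * L) := by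
          refine Nat.mul_le_mul (Nat.mul_le_mul_right _ ?_) (Nat.pow_le_pow_left hcard _)
          exact Nat.le_self_pow (by omega) 60
      _ = (60 * 2 * ((q + 1) * (n * Kv + 1) ^ 2) ^ 2) ^ L := by
          rw [pow_mul ((q + 1) * (n * Kv + 1) ^ 2) 2 L, ← mul_pow, ← mul_pow]
      _ = (120 * ((q + 1) * (n * Kv + 1) ^ 2) ^ 2) ^ L := by norm_num
      _ ≤ (2 ^ L) ^ L := Nat.pow_le_pow_left h2 L
      _ = 2 ^ L ^ 2 := by rw [← pow_mul, pow_two]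

/-- the choice of `L` -/
theorem choose_L (C L1 : ℕ) (hC : 1 ≤ C) (hL1 : 1 ≤ L1) : ∃ N0 : ℕ, ∀ N : ℕ, N0 ≤ N →
    ∃ L, L1 ≤ L ∧ C * L ^ 138 ≤ N ∧ (N : ℝ) ^ (1 / 139 : ℝ) ≤ L := by
  set L' := max L1 (C * 2 ^ 138) with hL'
  refine ⟨C * L' ^ 138, fun N hN => ?_⟩
  have hL1' : 1 ≤ L' := hL1.trans (le_max_left _ _)
  have hself : ∀ L : ℕ, L ≤ C * L ^ 138 := by
    intro L
    calc L ≤ L ^ 138 := Nat.le_self_pow (by norm_num) L
      _ ≤ C * L ^ 138 := Nat.le_mul_of_pos_left _ hC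
  set L := Nat.findGreatest (fun L => C * L ^ 138 ≤ N) N with hLdef
  have hle : L' ≤ L := Nat.le_findGreatest ((hself L').trans hN) hN
  have hPL : C * L ^ 138 ≤ N :=
    Nat.findGreatest_spec (P := fun L => C * L ^ 138 ≤ N) (m := L') ((hself L').trans hN) hN
  have hnot : N < C * (L + 1) ^ 138 := by
    by_contra h
    have h1 : C * (L + 1) ^ 138 ≤ N := not_lt.1 h
    have h2 : L + 1 ≤ L := by
      rw [hLdef]
      exact Nat.le_findGreatest ((hself _).trans h1) h1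
    omega
  refine ⟨L, (le_max_left _ _).trans hle, hPL, ?_⟩
  have hN14 : N ≤ L ^ 139 := by
    have h1 : (L + 1) ^ 138 ≤ (2 * L) ^ 138 := Nat.pow_le_pow_left (by omega) 138
    have h2 : C * 2 ^ 138 ≤ L := (le_max_right L1 (C * 2 ^ 138)).trans hle
    calc N ≤ C * (L + 1) ^ 138 := hnot.le
      _ ≤ C * (2 * L) ^ 138 := Nat.mul_le_mul_left _ h1
      _ = (C * 2 ^ 138) * L ^ 138 := by rw [mul_pow]; ring
      _ ≤ L * L ^ 138 := Nat.mul_le_mul_right _ h2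
      _ = L ^ 139 := by ring
  have h1 : (N : ℝ) ≤ (L : ℝ) ^ 139 := by exact_mod_cast hN14
  have h2 : (N : ℝ) ^ (1 / 139 : ℝ) ≤ ((L : ℝ) ^ 139) ^ (1 / 139 : ℝ) :=
    Real.rpow_le_rpow (Nat.cast_nonneg _) h1 (by norm_num)
  have h3 : ((L : ℝ) ^ 139) ^ (1 / 139 : ℝ) = L := by
    rw [← Real.rpow_natCast, ← Real.rpow_mul (Nat.cast_nonneg _)]
    norm_num
  exact h2.trans h3.le

/-- the lower bound -/
theorem lower (q : ℕ) (hq : 1 ≤ q) (δ : ℝ) (hδ : 1 / (q : ℝ) < δ) :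
    ∃ N0 : ℕ, ∀ N : ℕ, N0 ≤ N → ∃ m : ℕ, 0 < m ∧
      ∀ ε : ℝ, (N : ℝ) ^ (-(1 / 139) : ℝ) ≤ ε → ∀ (Ω : Type) [Fintype Ω] [Nonempty Ω]
      (l : Ω → List (Game N q → ℝ)), (∀ ω, Prog (inputs N q) (l ω)) → Separates m δ ε l →
      ∃ ω, (2 : ℝ) ^ ((N : ℝ) ^ (1 / 139 : ℝ)) ≤ (l ω).length := by
  obtain ⟨C, L1, hC, hL1, h⟩ := main_L q hq δ hδ
  obtain ⟨N0, hN0⟩ := choose_L C L1 hC hL1
  refine ⟨max N0 1, fun N hN => ?_⟩
  obtain ⟨L, hL1', hLN, hL⟩ := hN0 N ((le_max_left _ _).trans hN)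
  obtain ⟨m, hm, h'⟩ := h L hL1' N hLN
  refine ⟨m, hm, fun ε hε Ω _ _ l hl hsep => ?_⟩
  have hN1 : (1 : ℝ) ≤ N := by exact_mod_cast (le_max_right _ _).trans hN
  have hε' : 1 / (L : ℝ) ≤ ε := by
    refine le_trans ?_ hε
    rw [Real.rpow_neg (by linarith), one_div]
    exact inv_anti₀ (Real.rpow_pos_of_pos (by linarith) _) hL
  obtain ⟨ω, hω⟩ := h' ε hε' Ω l hl hsep
  refine ⟨ω, ?_⟩
  calc (2 : ℝ) ^ ((N : ℝ) ^ (1 / 139 : ℝ)) ≤ (2 : ℝ) ^ (L : ℝ) :=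
        Real.rpow_le_rpow_of_exponent_le (by norm_num) hL
    _ = 2 ^ L := Real.rpow_natCast 2 L
    _ ≤ (l ω).length := by exact_mod_cast hω

/-- a monotone function tells the two kinds of instances apart -/
theorem monotone_dec (N q m : ℕ) (δ ε : ℝ) (hm : 0 < m) (h : ε + δ < 1) :
    ∃ F : Game N q → ℝ, (∀ I J, I ⊆ J → F I ≤ F J) ∧
      ∀ I, (NoI m δ I → F I = 1) ∧ (YesI m ε I → F I = 0) := by
  refine ⟨fun I => if ∃ f g : Fin N → Fin q, ((I.filter fun e => ¬ Sat f g e).card : ℝ) ≤ ε * m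
    then 0 else 1, ?_, ?_⟩
  · intro I J hIJ
    by_cases hJ : ∃ f g : Fin N → Fin q, ((J.filter fun e => ¬ Sat f g e).card : ℝ) ≤ ε * m
    · have hI : ∃ f g : Fin N → Fin q, ((I.filter fun e => ¬ Sat f g e).card : ℝ) ≤ ε * m := by
        obtain ⟨f, g, hfg⟩ := hJ
        refine ⟨f, g, le_trans ?_ hfg⟩
        exact_mod_cast card_le_card (filter_subset_filter _ hIJ)
      simp only [hJ, hI, if_true, le_refl]
    · simp only [hJ, if_false]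
      split_ifs <;> norm_num
  · intro I
    constructor
    · rintro ⟨hI, hsat⟩
      have : ¬ ∃ f g : Fin N → Fin q, ((I.filter fun e => ¬ Sat f g e).card : ℝ) ≤ ε * m := by
        rintro ⟨f, g, hfg⟩
        have h1 := hsat f g
        have h2 : ((I.filter fun e => Sat f g e).card : ℝ) +
            ((I.filter fun e => ¬ Sat f g e).card : ℝ) = m := by
          have := Finset.card_filter_add_card_filter_not (s := I) (p := fun e => Sat f g e)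
          rw [hI] at this
          exact_mod_cast this
        have hm0 : (0 : ℝ) < m := by exact_mod_cast hm
        nlinarith
      simp only [this, if_false]
    · rintro ⟨-, hfg⟩
      simp only [hfg, if_true]

end Pool.Agent.W906.MU
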