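import Mathlib

/-! # Rounds of marking: a weighted second moment argument (helper906) -/

open scoped Classical
open Finset

namespace Pool.Agent.W906.MU

section

variable {J : Type} [Fintype J]

/-- one round: the item `j` is marked with probability `1 / wt j` -/
abbrev Sm (wt : J → ℕ) : Type := ∀ j : J, Fin (wt j)

/-- the marked items of a round -/
noncomputable def mk1 {wt : J → ℕ} (ω : Sm wt) : Finset J := univ.filter fun j => (ω j : ℕ) = 0

/-- the items marked in some round -/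
noncomputable def marked {wt : J → ℕ} {M : ℕ} (ω : Fin M → Sm wt) : Finset J :=
  univ.filter fun j => ∃ i, (ω i j : ℕ) = 0

theorem mem_mk1 {wt : J → ℕ} {ω : Sm wt} {j : J} : j ∈ mk1 ω ↔ (ω j : ℕ) = 0 := by simp [mk1]

theorem mem_marked {wt : J → ℕ} {M : ℕ} {ω : Fin M → Sm wt} {j : J} :
    j ∈ marked ω ↔ ∃ i, (ω i j : ℕ) = 0 := by simp [marked]

theorem card_Sm (wt : J → ℕ) : Fintype.card (Sm wt) = ∏ j, wt j := by
  rw [Fintype.card_pi]
  simp

theorem card_zero {wt : J → ℕ} (hwt : ∀ j, 1 ≤ wt j) (Y : Finset J) :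
    (univ.filter fun ω : Sm wt => Y ⊆ mk1 ω).card * ∏ j ∈ Y, wt j = Fintype.card (Sm wt) := by
  have h1 : (univ.filter fun ω : Sm wt => Y ⊆ mk1 ω) =
      Fintype.piFinset fun j => if j ∈ Y then ({⟨0, hwt j⟩} : Finset (Fin (wt j))) else univ := by
    ext ω
    rw [mem_filter, Fintype.mem_piFinset]
    constructor
    · rintro ⟨-, h⟩ j
      by_cases hj : j ∈ Y
      · rw [if_pos hj, mem_singleton]
        exact Fin.ext (mem_mk1.1 (h hj))
      · rw [if_neg hj]; exact mem_univ _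
    · intro h
      refine ⟨mem_univ _, fun j hj => ?_⟩
      have := h j
      rw [if_pos hj, mem_singleton] at this
      rw [mem_mk1, this]
  have hcard : ∀ j, (if j ∈ Y then ({⟨0, hwt j⟩} : Finset (Fin (wt j))) else univ).card
      = if j ∈ Y then 1 else wt j := by
    intro j
    split_ifs
    · exact card_singleton _
    · rw [card_univ, Fintype.card_fin]
  rw [h1, Fintype.card_piFinset, card_Sm]
  simp only [hcard]
  rw [← Finset.prod_filter_mul_prod_filter_not univ (fun j => j ∈ Y) wt,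
    ← Finset.prod_filter_mul_prod_filter_not univ (fun j => j ∈ Y)
      (fun j => if j ∈ Y then 1 else wt j)]
  have e1 : ∏ x ∈ univ.filter (fun j => j ∈ Y), (if x ∈ Y then 1 else wt x) = 1 := by
    apply Finset.prod_eq_one
    intro j hj
    rw [if_pos (mem_filter.1 hj).2]
  have e2 : ∏ x ∈ univ.filter (fun j => ¬ j ∈ Y), (if x ∈ Y then 1 else wt x)
      = ∏ x ∈ univ.filter (fun j => ¬ j ∈ Y), wt x := by
    apply Finset.prod_congr rfl
    intro j hj
    rw [if_neg (mem_filter.1 hj).2]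
  have e3 : univ.filter (fun j => j ∈ Y) = Y := by ext; simp
  rw [e1, e2, e3]
  ring

theorem one_round {ι : Type*} {wt : J → ℕ} (hwt : ∀ j, 1 ≤ wt j) (G : Finset ι) (Δ : ι → Finset J)
    (μ : ι → ℝ) (hμ : ∀ T ∈ G, 0 ≤ μ T) (hsum : ∑ T ∈ G, μ T = 1) (l : ℕ) (hl : 1 ≤ l)
    (hΔ : ∀ T ∈ G, (Δ T).card ≤ l)
    (hspread : ∀ Y : Finset J, Y.Nonempty →
      (∑ T ∈ G.filter (fun T => Y ⊆ Δ T), μ T) * ∏ y ∈ Y, (4 * l * wt y : ℝ) ≤ 1) :
    2 * (univ.filter fun ω : Sm wt => ∀ T ∈ G, ¬ Δ T ⊆ mk1 ω).card ≤ Fintype.card (Sm wt) := by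
  have hNpos : 0 < Fintype.card (Sm wt) := by
    rw [card_Sm]
    exact Finset.prod_pos fun j _ => hwt j
  set N : ℝ := (Fintype.card (Sm wt) : ℝ) with hN
  have hN0 : 0 < N := by rw [hN]; exact_mod_cast hNpos
  have hwt' : ∀ j, (1 : ℝ) ≤ wt j := fun j => by exact_mod_cast hwt j
  have hl' : (1 : ℝ) ≤ l := by exact_mod_cast hl
  let pw : Finset J → ℝ := fun Y => ∏ j ∈ Y, (wt j : ℝ)
  have hpw : ∀ Y, 0 < pw Y := fun Y => Finset.prod_pos fun j _ => by linarith [hwt' j]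
  -- counting
  have hcount : ∀ Y : Finset J, ((univ.filter fun ω : Sm wt => Y ⊆ mk1 ω).card : ℝ) * pw Y = N := by
    intro Y
    have := card_zero hwt Y
    rw [hN, ← this]
    push_cast
    rfl
  let X : Sm wt → ℝ := fun ω => ∑ T ∈ G, if Δ T ⊆ mk1 ω then μ T * pw (Δ T) else 0
  have hX0 : ∀ ω, 0 ≤ X ω := by
    intro ω
    refine Finset.sum_nonneg fun T hT => ?_
    split_ifs
    · exact mul_nonneg (hμ T hT) (hpw _).le
    · exact le_rfl
  have hEX : ∑ ω, X ω = N := by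
    show ∑ ω, ∑ T ∈ G, (if Δ T ⊆ mk1 ω then μ T * pw (Δ T) else 0) = N
    rw [Finset.sum_comm]
    calc ∑ T ∈ G, ∑ ω, (if Δ T ⊆ mk1 ω then μ T * pw (Δ T) else 0)
        = ∑ T ∈ G, μ T * N := by
          refine Finset.sum_congr rfl fun T _ => ?_
          rw [← Finset.sum_filter, Finset.sum_const, nsmul_eq_mul, ← hcount (Δ T)]
          ring
      _ = N := by rw [← Finset.sum_mul, hsum, one_mul]
  -- spread, normalised
  have hsp : ∀ Y : Finset J, (∑ T ∈ G.filter (fun T => Y ⊆ Δ T), μ T) * pw Y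
      ≤ (1 / (4 * l : ℝ)) ^ Y.card := by
    intro Y
    rcases Y.eq_empty_or_nonempty with rfl | hY
    · simp only [empty_subset, filter_true, card_empty, pow_zero]
      rw [hsum]
      show 1 * ∏ j ∈ (∅ : Finset J), (wt j : ℝ) ≤ 1
      simp
    · have h := hspread Y hY
      rw [Finset.prod_mul_distrib, Finset.prod_const] at h
      rw [one_div, inv_pow, ← one_div, le_div_iff₀ (by positivity)]
      calc _ = (∑ T ∈ G.filter (fun T => Y ⊆ Δ T), μ T) * ((4 * l : ℝ) ^ Y.card * pw Y) := by ring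
        _ ≤ 1 := h
  have hinner : ∀ T ∈ G, ∑ T' ∈ G, μ T' * pw (Δ T ∩ Δ T') ≤ 2 := by
    intro T hT
    calc ∑ T' ∈ G, μ T' * pw (Δ T ∩ Δ T')
        ≤ ∑ T' ∈ G, ∑ Y ∈ (Δ T).powerset, (if Y ⊆ Δ T' then μ T' * pw Y else 0) := by
          refine Finset.sum_le_sum fun T' hT' => ?_
          have hmem : Δ T ∩ Δ T' ∈ (Δ T).powerset := mem_powerset.2 inter_subset_left
          refine le_trans (le_of_eq ?_) (Finset.single_le_sum (f := fun Y =>
            if Y ⊆ Δ T' then μ T' * pw Y else 0) ?_ hmem)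
          · show _ = (if Δ T ∩ Δ T' ⊆ Δ T' then μ T' * pw (Δ T ∩ Δ T') else 0)
            rw [if_pos inter_subset_right]
          · intro Y _
            show 0 ≤ (if Y ⊆ Δ T' then μ T' * pw Y else 0)
            split_ifs
            · exact mul_nonneg (hμ T' hT') (hpw _).le
            · exact le_rfl
      _ = ∑ Y ∈ (Δ T).powerset, (∑ T' ∈ G.filter (fun T' => Y ⊆ Δ T'), μ T') * pw Y := by
          rw [Finset.sum_comm]
          refine Finset.sum_congr rfl fun Y _ => ?_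
          rw [← Finset.sum_filter, Finset.sum_mul]
      _ ≤ ∑ Y ∈ (Δ T).powerset, (1 / (4 * l : ℝ)) ^ Y.card := Finset.sum_le_sum fun Y _ => hsp Y
      _ = (1 / (4 * l : ℝ) + 1) ^ (Δ T).card := by
          rw [← Finset.sum_pow_mul_eq_add_pow]
          refine Finset.sum_congr rfl fun Y _ => ?_
          rw [one_pow, mul_one]
      _ ≤ (1 / (4 * l : ℝ) + 1) ^ l := pow_le_pow_right₀ (by
          have : (0 : ℝ) ≤ 1 / (4 * l : ℝ) := by positivity
          linarith) (hΔ T hT)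
      _ ≤ Real.exp (1 / (4 * l : ℝ)) ^ l :=
          pow_le_pow_left₀ (by positivity) (Real.add_one_le_exp _) l
      _ = Real.exp (1 / 4) := by
          rw [← Real.exp_nat_mul]
          congr 1
          field_simp
      _ ≤ 2 := by
          have h1 : Real.exp (1 / 4) ≤ Real.exp (Real.log 2) := by
            apply Real.exp_le_exp.2
            have := Real.log_two_gt_d9
            linarith
          rwa [Real.exp_log (by norm_num)] at h1
  have hEX2 : ∑ ω, X ω ^ 2 ≤ 2 * N := by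
    have h1 : ∀ ω, X ω ^ 2 = ∑ T ∈ G, ∑ T' ∈ G,
        (if Δ T ∪ Δ T' ⊆ mk1 ω then (μ T * pw (Δ T)) * (μ T' * pw (Δ T')) else 0) := by
      intro ω
      rw [pow_two]
      show (∑ T ∈ G, _) * (∑ T' ∈ G, _) = _
      rw [Finset.sum_mul_sum]
      refine Finset.sum_congr rfl fun T _ => Finset.sum_congr rfl fun T' _ => ?_
      by_cases a : Δ T ⊆ mk1 ω <;> by_cases b : Δ T' ⊆ mk1 ω
      · rw [if_pos a, if_pos b, if_pos (union_subset a b)]
      · rw [if_neg b, mul_zero, if_neg fun h => b (subset_union_right.trans h)]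
      · rw [if_neg a, zero_mul, if_neg fun h => a (subset_union_left.trans h)]
      · rw [if_neg a, zero_mul, if_neg fun h => a (subset_union_left.trans h)]
    calc ∑ ω, X ω ^ 2 = ∑ T ∈ G, ∑ T' ∈ G, ∑ ω : Sm wt,
          (if Δ T ∪ Δ T' ⊆ mk1 ω then (μ T * pw (Δ T)) * (μ T' * pw (Δ T')) else 0) := by
          simp only [h1]
          rw [Finset.sum_comm]
          refine Finset.sum_congr rfl fun T _ => ?_
          rw [Finset.sum_comm]
      _ = ∑ T ∈ G, μ T * N * ∑ T' ∈ G, μ T' * pw (Δ T ∩ Δ T') := by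
          refine Finset.sum_congr rfl fun T _ => ?_
          rw [Finset.mul_sum]
          refine Finset.sum_congr rfl fun T' _ => ?_
          rw [← Finset.sum_filter, Finset.sum_const, nsmul_eq_mul]
          have h2 : pw (Δ T ∪ Δ T') * pw (Δ T ∩ Δ T') = pw (Δ T) * pw (Δ T') :=
            Finset.prod_union_inter
          have h3 := hcount (Δ T ∪ Δ T')
          calc _ = ((univ.filter fun ω : Sm wt => Δ T ∪ Δ T' ⊆ mk1 ω).card : ℝ)
                * (pw (Δ T) * pw (Δ T')) * (μ T * μ T') := by ring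
            _ = (((univ.filter fun ω : Sm wt => Δ T ∪ Δ T' ⊆ mk1 ω).card : ℝ)
                * pw (Δ T ∪ Δ T')) * pw (Δ T ∩ Δ T') * (μ T * μ T') := by rw [← h2]; ring
            _ = _ := by rw [h3]; ring
      _ ≤ ∑ T ∈ G, μ T * N * 2 := by
          refine Finset.sum_le_sum fun T hT => ?_
          exact mul_le_mul_of_nonneg_left (hinner T hT) (mul_nonneg (hμ T hT) hN0.le)
      _ = 2 * N := by rw [← Finset.sum_mul, ← Finset.sum_mul, hsum]; ring
  -- Cauchy-Schwarz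
  set B := univ.filter fun ω : Sm wt => ∀ T ∈ G, ¬ Δ T ⊆ mk1 ω with hB
  set A := univ.filter fun ω : Sm wt => ¬ ∀ T ∈ G, ¬ Δ T ⊆ mk1 ω with hA
  have hXB : ∀ ω, ω ∉ A → X ω = 0 := by
    intro ω hω
    have h : ∀ T ∈ G, ¬ Δ T ⊆ mk1 ω := by
      by_contra hcon
      exact hω (mem_filter.2 ⟨mem_univ _, hcon⟩)
    refine Finset.sum_eq_zero fun T hT => ?_
    rw [if_neg (h T hT)]
  have h1 : ∑ ω, X ω = ∑ ω ∈ A, X ω := by
    symm
    apply Finset.sum_subset (subset_univ _)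
    intro ω _ hω
    exact hXB ω hω
  have h2 : (∑ ω ∈ A, X ω) ^ 2 ≤ (A.card : ℝ) * ∑ ω ∈ A, X ω ^ 2 := by
    have := Finset.sum_mul_sq_le_sq_mul_sq A (fun _ => (1 : ℝ)) X
    simpa using this
  have h3 : ∑ ω ∈ A, X ω ^ 2 ≤ ∑ ω, X ω ^ 2 :=
    Finset.sum_le_sum_of_subset_of_nonneg (subset_univ _) fun _ _ _ => sq_nonneg _
  have h4 : N ^ 2 ≤ (A.card : ℝ) * (2 * N) := by
    rw [← hEX, h1]
    calc _ ≤ (A.card : ℝ) * ∑ ω ∈ A, X ω ^ 2 := h2
      _ ≤ (A.card : ℝ) * (2 * N) :=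
        mul_le_mul_of_nonneg_left (h3.trans hEX2) (Nat.cast_nonneg _)
      _ = _ := by rw [← h1, hEX]
  have h5 : N ≤ (A.card : ℝ) * 2 := by
    have : N * N ≤ (A.card : ℝ) * 2 * N := by nlinarith
    exact le_of_mul_le_mul_right this hN0
  have h6 : A.card + B.card = Fintype.card (Sm wt) := by
    have := Finset.card_filter_add_card_filter_not (s := (univ : Finset (Sm wt)))
      (p := fun ω : Sm wt => ∀ T ∈ G, ¬ Δ T ⊆ mk1 ω)
    rw [card_univ] at this
    rw [hA, hB]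
    omega
  have h7 : Fintype.card (Sm wt) ≤ A.card * 2 := by
    have : (Fintype.card (Sm wt) : ℝ) ≤ ((A.card * 2 : ℕ) : ℝ) := by push_cast; exact h5
    exact_mod_cast this
  omega

theorem all_rounds {ι : Type*} {wt : J → ℕ} (hwt : ∀ j, 1 ≤ wt j) (G : Finset ι)
    (Δ : ι → Finset J) (μ : ι → ℝ) (hμ : ∀ T ∈ G, 0 ≤ μ T) (hsum : ∑ T ∈ G, μ T = 1) (l : ℕ)
    (hl : 1 ≤ l) (hΔ : ∀ T ∈ G, (Δ T).card ≤ l)
    (hspread : ∀ Y : Finset J, Y.Nonempty →
      (∑ T ∈ G.filter (fun T => Y ⊆ Δ T), μ T) * ∏ y ∈ Y, (4 * l * wt y : ℝ) ≤ 1) (M : ℕ) :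
    (univ.filter fun ω : Fin M → Sm wt => ∀ T ∈ G, ¬ Δ T ⊆ marked ω).card * 2 ^ M
      ≤ Fintype.card (Fin M → Sm wt) := by
  have h1 := one_round hwt G Δ μ hμ hsum l hl hΔ hspread
  set B := univ.filter fun ω : Sm wt => ∀ T ∈ G, ¬ Δ T ⊆ mk1 ω with hB
  have hsub : (univ.filter fun ω : Fin M → Sm wt => ∀ T ∈ G, ¬ Δ T ⊆ marked ω)
      ⊆ Fintype.piFinset fun _ : Fin M => B := by
    intro ω hω
    rw [Fintype.mem_piFinset]
    intro i
    rw [hB, mem_filter]
    refine ⟨mem_univ _, fun T hT hsub => (mem_filter.1 hω).2 T hT fun j hj => ?_⟩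
    exact mem_marked.2 ⟨i, mem_mk1.1 (hsub hj)⟩
  have h2 := card_le_card hsub
  rw [Fintype.card_piFinset, Finset.prod_const, card_univ, Fintype.card_fin] at h2
  calc _ ≤ B.card ^ M * 2 ^ M := Nat.mul_le_mul_right _ h2
    _ = (2 * B.card) ^ M := by rw [← mul_pow, mul_comm]
    _ ≤ Fintype.card (Sm wt) ^ M := Nat.pow_le_pow_left h1 M
    _ = _ := by rw [Fintype.card_fun, Fintype.card_fin]

end

end Pool.Agent.W906.MU
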