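import Pool.Agent.W906.MU.Acct
import Pool.Agent.W906.MU.Rounds

/-! # Critical kernels satisfy a Kraft inequality (helper906) -/

open scoped Classical
open Finset

namespace Pool.Agent.W906.MU

/-- items: a position with a status (a label or `none`, the star), or a noise edge -/
abbrev It (U W Λ : Type) : Type := ((U ⊕ W) × Option Λ) ⊕ (U × W × Λ)

/-- equality of items is decided classically -/
noncomputable instance decEqIt (U W Λ : Type) : DecidableEq (It U W Λ) :=
  fun a b => Classical.propDecidable (a = b)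

/-- kernels: constraints and positions -/
abbrev Ker (U W Λ : Type) : Type := Finset (U × W × Λ) × Finset (U ⊕ W)

section

variable {U W Λ : Type}

/-- the ends of the constraints are positions of the kernel -/
def Valid (κ : Ker U W Λ) : Prop := ∀ e ∈ κ.1, lft e ∈ κ.2 ∧ rgt e ∈ κ.2

/-- size of a kernel -/
def ksize (κ : Ker U W Λ) : ℕ := κ.1.card + κ.2.card

/-- the status items of `P` -/
noncomputable def stI (st : U ⊕ W → Option Λ) (P : Finset (U ⊕ W)) : Finset (It U W Λ) :=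
  P.image fun p => Sum.inl (p, st p)

/-- the noise items of `N` -/
noncomputable def noI (N : Finset (U × W × Λ)) : Finset (It U W Λ) := N.image Sum.inr

theorem mem_stI {st : U ⊕ W → Option Λ} {P : Finset (U ⊕ W)} {p : U ⊕ W} {s : Option Λ} :
    (Sum.inl (p, s) : It U W Λ) ∈ stI st P ↔ p ∈ P ∧ st p = s := by
  simp only [stI, mem_image, Sum.inl.injEq, Prod.mk.injEq]
  constructor
  · rintro ⟨p', h, rfl, rfl⟩; exact ⟨h, rfl⟩
  · rintro ⟨h, rfl⟩; exact ⟨p, h, rfl, rfl⟩

theorem inr_notMem_stI {st : U ⊕ W → Option Λ} {P : Finset (U ⊕ W)} {e : U × W × Λ} :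
    (Sum.inr e : It U W Λ) ∉ stI st P := by
  simp [stI]

theorem mem_noI {N : Finset (U × W × Λ)} {e : U × W × Λ} :
    (Sum.inr e : It U W Λ) ∈ noI N ↔ e ∈ N := by
  simp [noI]

theorem inl_notMem_noI {N : Finset (U × W × Λ)} {x : (U ⊕ W) × Option Λ} :
    (Sum.inl x : It U W Λ) ∉ noI N := by
  simp [noI]

/-- admissible structures of a kernel -/
def Adm [Add Λ] (κ : Ker U W Λ) (β : Finset (It U W Λ)) : Prop :=
  ∃ (st : U ⊕ W → Option Λ) (N : Finset (U × W × Λ)), N ⊆ κ.1 ∧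
    (∀ e ∈ κ.1, e ∈ N ∨ oke st e) ∧ β = stI st κ.2 ∪ noI N

/-- states -/
abbrev Sta (U W Λ : Type) (l : ℕ) : Type := {β : Finset (It U W Λ) // β.card ≤ l}

/-- all admissible structures of `κ` have level at least `θ` -/
def Lev [Add Λ] {l : ℕ} (lam : Sta U W Λ l → ℝ) (κ : Ker U W Λ) (θ : ℝ) : Prop :=
  ∀ β : Sta U W Λ l, Adm κ β.1 → θ ≤ lam β

/-- critical kernels -/
def Crit [Add Λ] {l : ℕ} (lam : Sta U W Λ l → ℝ) (κ : Ker U W Λ) : Prop :=
  ∃ θ : ℝ, Lev lam κ θ ∧ ∀ κ' : Ker U W Λ, Valid κ' → κ' ≤ κ → κ' ≠ κ → ¬ Lev lam κ' θ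

/-- the weights of the items -/
def wt (Q Qs Qn : ℕ) : It U W Λ → ℕ
  | Sum.inl (_, some _) => Q
  | Sum.inl (_, none) => Qs
  | Sum.inr _ => Qn

variable [Fintype U] [Fintype W] [Fintype Λ]

/-- closed level functions -/
def ClosedLev (M Q Qs Qn l : ℕ) (lam : Sta U W Λ l → ℝ) : Prop :=
  ∀ (β0 : Sta U W Λ l) (θ : ℝ),
    (univ.filter fun ω : Fin M → Sm (wt (U := U) (W := W) (Λ := Λ) Q Qs Qn) =>
      ¬ ∃ β : Sta U W Λ l, β.1 ⊆ β0.1 ∪ marked ω ∧ θ ≤ lam β).card * 2 ^ M
      ≤ Fintype.card (Fin M → Sm (wt (U := U) (W := W) (Λ := Λ) Q Qs Qn)) → θ ≤ lam β0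

/-- the constraints inside `V` -/
noncomputable def ed (V : Finset (U ⊕ W)) : Finset (U × W × Λ) :=
  univ.filter fun e => lft e ∈ V ∧ rgt e ∈ V

theorem card_ed (V : Finset (U ⊕ W)) :
    (ed (Λ := Λ) V).card ≤ V.card ^ 2 * Fintype.card Λ := by
  have h : (ed (Λ := Λ) V).card ≤ (V ×ˢ (V ×ˢ (univ : Finset Λ))).card := by
    apply card_le_card_of_injOn (fun e => (lft e, (rgt e, e.2.2)))
    · intro e he
      have h1 := (mem_filter.1 he).2
      simp only [coe_product, Set.mem_prod, mem_coe, mem_univ, and_true]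
      exact h1
    · intro e _ e' _ hee
      simp only [lft, rgt, Prod.mk.injEq, Sum.inl.injEq, Sum.inr.injEq] at hee
      exact Prod.ext hee.1 (Prod.ext hee.2.1 hee.2.2)
  refine h.trans (le_of_eq ?_)
  rw [card_product, card_product, card_univ]
  ring

theorem kraft [AddGroup Λ] (l M Q Qs Qn : ℕ) (Av b : ℝ) (hl : 1 ≤ l) (hQ : 1 ≤ Q) (hQs : 1 ≤ Qs)
    (hQn : 1 ≤ Qn) (h1 : 8 * (l : ℝ) * Q ≤ Av) (h2 : 8 * (l : ℝ) * Qs ≤ Av * b ^ 18)
    (h3 : 8 * (l : ℝ) * Qn ≤ b ^ 27) (hb : 2 * (l : ℝ) ^ 2 * Fintype.card Λ ≤ b) (hb1 : 1 ≤ b)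
    (lam : Sta U W Λ l → ℝ) (hc : ClosedLev M Q Qs Qn l lam) :
    ∀ (n : ℕ) (P : Finset (U ⊕ W)) (Z : Finset (U × W × Λ)) (F : Finset (Ker U W Λ)),
      (∀ T ∈ F, Crit lam T ∧ Valid T ∧ ksize T ≤ l ∧ P ⊆ T.2 ∧ ind T.1 P = Z ∧
        (T.2 \ P).card = n) →
      ∑ T ∈ F, (Av ^ n)⁻¹ * (b ^ expo T.1 P)⁻¹ ≤ 1 := by
  have hlR : (1 : ℝ) ≤ l := by exact_mod_cast hl
  have hQR : (1 : ℝ) ≤ Q := by exact_mod_cast hQ
  have hQsR : (1 : ℝ) ≤ Qs := by exact_mod_cast hQs
  have hQnR : (1 : ℝ) ≤ Qn := by exact_mod_cast hQn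
  have hAv : 1 ≤ Av := by
    refine le_trans ?_ h1
    nlinarith
  have hb0 : 0 < b := by linarith
  have hAv0 : 0 < Av := by linarith
  intro n
  induction n using Nat.strong_induction_on with
  | _ n ih =>
  intro P Z F hF
  rcases F.eq_empty_or_nonempty with rfl | hFne
  · simp
  have hterm : ∀ T ∈ F, (Av ^ n)⁻¹ * (b ^ expo T.1 P)⁻¹ ≤ 1 := by
    intro T _
    exact mul_le_one₀ (inv_le_one_of_one_le₀ (one_le_pow₀ hAv)) (by positivity)
      (inv_le_one_of_one_le₀ (one_le_pow₀ hb1))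
  rcases Nat.eq_zero_or_pos n with hn | hn
  · -- all kernels are equal to `(Z, P)`
    have hsub : F ⊆ {(Z, P)} := by
      intro T hT
      obtain ⟨-, hv, -, hP, hZ, hn'⟩ := hF T hT
      have h4 : T.2 = P := by
        rw [hn, card_eq_zero, sdiff_eq_empty_iff_subset] at hn'
        exact hn'.antisymm hP
      rw [mem_singleton]
      refine Prod.ext ?_ h4
      show T.1 = Z
      rw [← hZ]
      ext e
      rw [mem_ind]
      constructor
      · intro he
        refine ⟨he, ?_⟩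
        rw [← h4]
        exact hv e he
      · exact fun h => h.1
    calc ∑ T ∈ F, (Av ^ n)⁻¹ * (b ^ expo T.1 P)⁻¹ ≤ ∑ T ∈ F, (1 : ℝ) := Finset.sum_le_sum hterm
      _ = F.card := by simp
      _ ≤ 1 := by
        have := card_le_card hsub
        rw [card_singleton] at this
        exact_mod_cast this
  by_contra hcon
  push Not at hcon
  set w : Ker U W Λ → ℝ := fun T => (Av ^ n)⁻¹ * (b ^ expo T.1 P)⁻¹ with hw
  have hw0 : ∀ T, 0 < w T := fun T => by
    show 0 < (Av ^ n)⁻¹ * (b ^ expo T.1 P)⁻¹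
    positivity
  set Sg : ℝ := ∑ T ∈ F, w T with hSg
  have hSg1 : 1 < Sg := hcon
  have hSg0 : 0 < Sg := by linarith
  -- levels
  have hcr : ∀ T ∈ F, ∃ θ : ℝ, Lev lam T θ ∧ ∀ κ' : Ker U W Λ, Valid κ' → κ' ≤ T → κ' ≠ T →
      ¬ Lev lam κ' θ := fun T hT => (hF T hT).1
  choose! θ hθ1 hθ2 using hcr
  obtain ⟨T0, hT0, hmin⟩ := Finset.exists_min_image F θ hFne
  obtain ⟨-, hv0, hs0, hP0, hZ0, hn0⟩ := hF T0 hT0
  have hκv : Valid ((Z, P) : Ker U W Λ) := by
    intro e he
    have he' : e ∈ Z := he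
    rw [← hZ0, mem_ind] at he'
    exact he'.2
  have hκle : ((Z, P) : Ker U W Λ) ≤ T0 := by
    refine ⟨?_, hP0⟩
    show Z ⊆ T0.1
    rw [← hZ0]
    exact filter_subset _ _
  have hκne : ((Z, P) : Ker U W Λ) ≠ T0 := by
    intro h
    have : T0.2 = P := by rw [← h]
    rw [this, Finset.sdiff_self, card_empty] at hn0
    omega
  have hnl := hθ2 T0 hT0 (Z, P) hκv hκle hκne
  unfold Lev at hnl
  push Not at hnl
  obtain ⟨β0, ⟨st0, N0, hN0, hok0, hβ0⟩, hβ0lt⟩ := hnl
  -- extensions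
  have hcut : ∀ T : Ker U W Λ, ∃ S N, CutData T.1 P (T.2 \ P) S N := fun T =>
    exists_cut T.1 P (T.2 \ P)
  choose S N hcd using hcut
  have hdis : ∀ T : Ker U W Λ, Disjoint P (T.2 \ P) := fun T => disjoint_sdiff
  have hexst : ∀ T : Ker U W Λ, ∃ st : U ⊕ W → Option Λ, (∀ p ∈ P, st p = st0 p) ∧
      (∀ r ∈ S T, st r = none) ∧ (∀ r ∈ (T.2 \ P) \ S T, (st r).isSome) ∧
      ∀ e ∈ T.1, e ∉ N T → lft e ∈ P ∪ (T.2 \ P) → rgt e ∈ P ∪ (T.2 \ P) →
        ¬ (lft e ∈ P ∧ rgt e ∈ P) → oke st e := fun T => exists_ext (hcd T) (hdis T) st0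
  choose st hst1 hst2 hst3 hst4 using hexst
  let Δ : Ker U W Λ → Finset (It U W Λ) := fun T => stI (st T) (T.2 \ P) ∪ noI (N T)
  have hΔcard : ∀ T ∈ F, (Δ T).card ≤ l := by
    intro T hT
    obtain ⟨-, -, hs, -, -, -⟩ := hF T hT
    calc (Δ T).card ≤ (stI (st T) (T.2 \ P)).card + (noI (N T)).card := card_union_le _ _
      _ ≤ (T.2 \ P).card + (N T).card := add_le_add card_image_le card_image_le
      _ ≤ T.2.card + T.1.card := add_le_add (card_le_card sdiff_subset)
          (card_le_card (hcd T).NZ)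
      _ ≤ l := by unfold ksize at hs; omega
  have hβT : ∀ T ∈ F, ∃ β : Sta U W Λ l, Adm T β.1 ∧ β.1 ⊆ β0.1 ∪ Δ T := by
    intro T hT
    obtain ⟨-, hv, hs, hPT, hZT, -⟩ := hF T hT
    have hcd' := hcd T
    have hsubT : N0 ∪ N T ⊆ T.1 := by
      refine union_subset (hN0.trans ?_) hcd'.NZ
      show Z ⊆ T.1
      rw [← hZT]
      exact filter_subset _ _
    refine ⟨⟨stI (st T) T.2 ∪ noI (N0 ∪ N T), ?_⟩, ⟨st T, N0 ∪ N T, hsubT, ?_, rfl⟩, ?_⟩
    · calc _ ≤ (stI (st T) T.2).card + (noI (N0 ∪ N T)).card := card_union_le _ _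
        _ ≤ T.2.card + (N0 ∪ N T).card := add_le_add card_image_le card_image_le
        _ ≤ T.2.card + T.1.card := add_le_add le_rfl (card_le_card hsubT)
        _ ≤ l := by unfold ksize at hs; omega
    · intro e he
      by_cases hin : lft e ∈ P ∧ rgt e ∈ P
      · have heZ : e ∈ Z := by
          rw [← hZT, mem_ind]
          exact ⟨he, hin⟩
        rcases hok0 e heZ with h | h
        · exact Or.inl (mem_union_left _ h)
        · right
          unfold oke at h ⊢
          rw [hst1 T _ hin.1, hst1 T _ hin.2]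
          exact h
      · by_cases heN : e ∈ N T
        · exact Or.inl (mem_union_right _ heN)
        · right
          have hv' := hv e he
          have hun : P ∪ (T.2 \ P) = T.2 := union_sdiff_of_subset hPT
          exact hst4 T e he heN (by rw [hun]; exact hv'.1) (by rw [hun]; exact hv'.2) hin
    · show stI (st T) T.2 ∪ noI (N0 ∪ N T) ⊆ β0.1 ∪ (stI (st T) (T.2 \ P) ∪ noI (N T))
      rw [hβ0]
      intro y hy
      rcases mem_union.1 hy with h | h
      · obtain ⟨p, hp, rfl⟩ := mem_image.1 h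
        by_cases hpP : p ∈ P
        · refine mem_union_left _ (mem_union_left _ (mem_stI.2 ⟨hpP, ?_⟩))
          exact (hst1 T p hpP).symm
        · exact mem_union_right _ (mem_union_left _ (mem_stI.2 ⟨mem_sdiff.2 ⟨hp, hpP⟩, rfl⟩))
      · obtain ⟨e, he, rfl⟩ := mem_image.1 h
        rcases mem_union.1 he with h' | h'
        · exact mem_union_left _ (mem_union_right _ (mem_noI.2 h'))
        · exact mem_union_right _ (mem_union_right _ (mem_noI.2 h'))
  -- some set of items is popular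
  have hwt1 : ∀ j : It U W Λ, 1 ≤ wt Q Qs Qn j := by
    intro j
    rcases j with ⟨p, _ | a⟩ | e
    · exact hQs
    · exact hQ
    · exact hQn
  have hpop : ∃ Y : Finset (It U W Λ), Y.Nonempty ∧
      1 < (∑ T ∈ F.filter (fun T => Y ⊆ Δ T), w T) * ∏ y ∈ Y, (4 * l * wt Q Qs Qn y : ℝ) := by
    by_contra hno
    push Not at hno
    have hrounds := all_rounds (wt := wt Q Qs Qn) hwt1 F Δ (fun T => w T / Sg)
      (fun T _ => (div_pos (hw0 T) hSg0).le) (by
        rw [← Finset.sum_div]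
        exact div_self hSg0.ne') l hl hΔcard (fun Y hY => by
        have h := hno Y hY
        rw [← Finset.sum_div]
        calc _ = ((∑ T ∈ F.filter (fun T => Y ⊆ Δ T), w T) *
              ∏ y ∈ Y, (4 * l * wt Q Qs Qn y : ℝ)) / Sg := div_mul_eq_mul_div _ _ _
          _ ≤ 1 / 1 := by
              apply div_le_div₀ zero_le_one h one_pos hSg1.le
          _ = 1 := by norm_num) M
    have hle : θ T0 ≤ lam β0 := by
      have hrounds' : (univ.filter fun ω : Fin M → Sm (wt (U := U) (W := W) (Λ := Λ) Q Qs Qn) =>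
          ∀ T ∈ F, ¬ Δ T ⊆ marked ω).card * 2 ^ M
          ≤ Fintype.card (Fin M → Sm (wt (U := U) (W := W) (Λ := Λ) Q Qs Qn)) := by
        convert hrounds
      refine hc β0 (θ T0) ((Nat.mul_le_mul_right _ ?_).trans hrounds')
      apply card_le_card
      intro ω hω
      have hω2 : ¬ ∃ β : Sta U W Λ l, β.1 ⊆ β0.1 ∪ marked ω ∧ θ T0 ≤ lam β :=
        (Finset.mem_filter.1 hω).2
      refine Finset.mem_filter.2 ⟨mem_univ _, fun T hT hsub => hω2 ?_⟩
      obtain ⟨β, hβ1, hβ2⟩ := hβT T hT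
      refine ⟨β, hβ2.trans (union_subset_union subset_rfl hsub), ?_⟩
      exact (hmin T hT).trans (hθ1 T hT β hβ1)
    linarith
  obtain ⟨Y, hYne, hYpop⟩ := hpop
  set FY := F.filter (fun T => Y ⊆ Δ T) with hFY
  set Ys : Finset (U ⊕ W) := univ.filter fun p => (Sum.inl (p, none) : It U W Λ) ∈ Y with hYs
  set Yl : Finset (U ⊕ W) := univ.filter fun p => ∃ a, (Sum.inl (p, some a) : It U W Λ) ∈ Y
    with hYl
  set Yn : Finset (U × W × Λ) := univ.filter fun e => (Sum.inr e : It U W Λ) ∈ Y with hYn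
  set R1 : Finset (U ⊕ W) := (Ys ∪ Yl) ∪ (Yn.image lft ∪ Yn.image rgt) with hR1
  have hFYne : FY.Nonempty := by
    rw [Finset.nonempty_iff_ne_empty]
    intro h
    rw [h, sum_empty, zero_mul] at hYpop
    linarith
  have hFYF : ∀ T ∈ FY, T ∈ F ∧ Y ⊆ Δ T := fun T hT => mem_filter.1 hT
  -- members of `Y` seen from `T`
  have hYl_T : ∀ T ∈ FY, ∀ p s, (Sum.inl (p, s) : It U W Λ) ∈ Y → p ∈ T.2 \ P ∧ st T p = s := by
    intro T hT p s hp
    have h := (hFYF T hT).2 hp
    rcases mem_union.1 h with h | h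
    · exact mem_stI.1 h
    · exact absurd h inl_notMem_noI
  have hYn_T : ∀ T ∈ FY, Yn ⊆ N T := by
    intro T hT e he
    have h := (hFYF T hT).2 (mem_filter.1 he).2
    rcases mem_union.1 h with h | h
    · exact absurd h inr_notMem_stI
    · exact mem_noI.1 h
  have hYs_T : ∀ T ∈ FY, Ys ⊆ S T := by
    intro T hT p hp
    obtain ⟨h5, h6⟩ := hYl_T T hT p none (mem_filter.1 hp).2
    by_contra hpS
    have := hst3 T p (mem_sdiff.2 ⟨h5, hpS⟩)
    rw [h6] at this
    exact absurd this (by simp)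
  have hR1_T : ∀ T ∈ FY, R1 ⊆ T.2 \ P := by
    intro T hT
    refine union_subset (union_subset ((hYs_T T hT).trans (hcd T).SR) ?_) (union_subset ?_ ?_)
    · intro p hp
      obtain ⟨a, ha⟩ := (mem_filter.1 hp).2
      exact (hYl_T T hT p _ ha).1
    · intro p hp
      obtain ⟨e, he, rfl⟩ := mem_image.1 hp
      exact (mem_sdiff.1 ((hcd T).NR e (hYn_T T hT he)).1).1
    · intro p hp
      obtain ⟨e, he, rfl⟩ := mem_image.1 hp
      exact (mem_sdiff.1 ((hcd T).NR e (hYn_T T hT he)).2).1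
  have hR1ne : R1.Nonempty := by
    obtain ⟨y, hy⟩ := hYne
    rcases y with ⟨p, _ | a⟩ | e
    · exact ⟨p, mem_union_left _ (mem_union_left _ (mem_filter.2 ⟨mem_univ _, hy⟩))⟩
    · exact ⟨p, mem_union_left _ (mem_union_right _ (mem_filter.2 ⟨mem_univ _, a, hy⟩))⟩
    · exact ⟨lft e, mem_union_right _ (mem_union_left _ (mem_image_of_mem _
        (mem_filter.2 ⟨mem_univ _, hy⟩)))⟩
  obtain ⟨T1, hT1⟩ := hFYne
  have hslYdis : Disjoint Ys Yl := by
    rw [disjoint_left]
    intro p hp hp'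
    obtain ⟨a, ha⟩ := (mem_filter.1 hp').2
    have h5 := (hYl_T T1 hT1 p none (mem_filter.1 hp).2).2
    have h6 := (hYl_T T1 hT1 p _ ha).2
    rw [h5] at h6
    exact absurd h6 (by simp)
  have hcardpos : 1 ≤ Ys.card + Yl.card + Yn.card := by
    obtain ⟨y, hy⟩ := hYne
    rcases y with ⟨p, _ | a⟩ | e
    · have : 0 < Ys.card := card_pos.2 ⟨p, mem_filter.2 ⟨mem_univ _, hy⟩⟩
      omega
    · have : 0 < Yl.card := card_pos.2 ⟨p, mem_filter.2 ⟨mem_univ _, a, hy⟩⟩
      omega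
    · have : 0 < Yn.card := card_pos.2 ⟨e, mem_filter.2 ⟨mem_univ _, hy⟩⟩
      omega
  set Pi : ℝ := ∏ y ∈ Y, (4 * l * wt Q Qs Qn y : ℝ) with hPi
  have hfac : ∀ y : It U W Λ, (1 : ℝ) ≤ 4 * l * wt Q Qs Qn y := by
    intro y
    have : (1 : ℝ) ≤ wt Q Qs Qn y := by exact_mod_cast hwt1 y
    nlinarith
  have hPi0 : 0 < Pi := Finset.prod_pos fun y _ => by linarith [hfac y]
  have hPile : Pi ≤ (4 * l * Qs : ℝ) ^ Ys.card * (4 * l * Q : ℝ) ^ Yl.card *
      (4 * l * Qn : ℝ) ^ Yn.card := by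
    have hsub : Y ⊆ (stI (st T1) Ys ∪ stI (st T1) Yl) ∪ noI Yn := by
      intro y hy
      rcases y with ⟨p, _ | a⟩ | e
      · refine mem_union_left _ (mem_union_left _ (mem_stI.2 ⟨mem_filter.2 ⟨mem_univ _, hy⟩, ?_⟩))
        exact (hYl_T T1 hT1 p _ hy).2
      · refine mem_union_left _ (mem_union_right _ (mem_stI.2
          ⟨mem_filter.2 ⟨mem_univ _, a, hy⟩, ?_⟩))
        exact (hYl_T T1 hT1 p _ hy).2
      · exact mem_union_right _ (mem_noI.2 (mem_filter.2 ⟨mem_univ _, hy⟩))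
    have hd1 : Disjoint (stI (st T1) Ys) (stI (st T1) Yl) := by
      rw [disjoint_left]
      intro y hy hy'
      obtain ⟨p, hp, rfl⟩ := mem_image.1 hy
      exact disjoint_left.1 hslYdis hp (mem_stI.1 hy').1
    have hd2 : Disjoint (stI (st T1) Ys ∪ stI (st T1) Yl) (noI Yn) := by
      rw [disjoint_left]
      intro y hy hy'
      obtain ⟨e, _, rfl⟩ := mem_image.1 hy'
      rcases mem_union.1 hy with h | h
      · exact inr_notMem_stI h
      · exact inr_notMem_stI h
    have hinj : ∀ A : Finset (U ⊕ W), Set.InjOn (fun p => (Sum.inl (p, st T1 p) : It U W Λ))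
        (A : Set (U ⊕ W)) := by
      intro A p _ p' _ h
      simp only [Sum.inl.injEq, Prod.mk.injEq] at h
      exact h.1
    calc Pi ≤ ∏ y ∈ (stI (st T1) Ys ∪ stI (st T1) Yl) ∪ noI Yn, (4 * l * wt Q Qs Qn y : ℝ) :=
          by
          rw [← Finset.prod_sdiff hsub]
          refine le_mul_of_one_le_left hPi0.le ?_
          have h1le : ∏ y ∈ ((stI (st T1) Ys ∪ stI (st T1) Yl) ∪ noI Yn) \ Y, (1 : ℝ) ≤
              ∏ y ∈ ((stI (st T1) Ys ∪ stI (st T1) Yl) ∪ noI Yn) \ Y,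
              (4 * l * wt Q Qs Qn y : ℝ) :=
            Finset.prod_le_prod (fun _ _ => zero_le_one) fun y _ => hfac y
          rwa [prod_const_one] at h1le
      _ = (4 * l * Qs : ℝ) ^ Ys.card * (4 * l * Q : ℝ) ^ Yl.card *
          (4 * l * Qn : ℝ) ^ Yn.card := by
          rw [prod_union hd2, prod_union hd1]
          congr 1
          · congr 1
            · unfold stI
              rw [prod_image (hinj Ys), prod_congr rfl (g := fun _ => (4 * l * Qs : ℝ)), prod_const]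
              intro p hp
              rw [(hYl_T T1 hT1 p none (mem_filter.1 hp).2).2]
              rfl
            · unfold stI
              rw [prod_image (hinj Yl), prod_congr rfl (g := fun _ => (4 * l * Q : ℝ)), prod_const]
              intro p hp
              obtain ⟨a, ha⟩ := (mem_filter.1 hp).2
              rw [(hYl_T T1 hT1 p _ ha).2]
              rfl
          · unfold noI
            rw [prod_image (fun _ _ _ _ h => Sum.inr_injective h),
              prod_congr rfl (g := fun _ => (4 * l * Qn : ℝ)), prod_const]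
            intro e _
            rfl
  have h2Pi : 2 * Pi ≤ Av ^ R1.card * b ^ (18 * Ys.card + 27 * Yn.card) := by
    have e1 : (2 : ℝ) ≤ 2 ^ (Ys.card + Yl.card + Yn.card) := by
      calc (2 : ℝ) = 2 ^ 1 := by norm_num
        _ ≤ _ := pow_le_pow_right₀ (by norm_num) hcardpos
    calc 2 * Pi ≤ 2 ^ (Ys.card + Yl.card + Yn.card) * ((4 * l * Qs : ℝ) ^ Ys.card *
          (4 * l * Q : ℝ) ^ Yl.card * (4 * l * Qn : ℝ) ^ Yn.card) :=
          mul_le_mul e1 hPile hPi0.le (by positivity)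
      _ = (8 * l * Qs : ℝ) ^ Ys.card * (8 * l * Q : ℝ) ^ Yl.card * (8 * l * Qn : ℝ) ^ Yn.card := by
          have e8 : (8 : ℝ) = 2 * 4 := by norm_num
          rw [pow_add, pow_add, e8, mul_assoc 2 4 (l : ℝ), mul_assoc 2 (4 * (l : ℝ)) (Qs : ℝ),
            mul_assoc 2 (4 * (l : ℝ)) (Q : ℝ), mul_assoc 2 (4 * (l : ℝ)) (Qn : ℝ), mul_pow 2,
            mul_pow 2, mul_pow 2]
          ring
      _ ≤ (Av * b ^ 18) ^ Ys.card * Av ^ Yl.card * (b ^ 27) ^ Yn.card := by
          gcongr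
      _ = Av ^ (Ys.card + Yl.card) * b ^ (18 * Ys.card + 27 * Yn.card) := by
          rw [mul_pow, pow_add, pow_add, ← pow_mul, ← pow_mul]
          ring
      _ ≤ Av ^ R1.card * b ^ (18 * Ys.card + 27 * Yn.card) := by
          refine mul_le_mul_of_nonneg_right (pow_le_pow_right₀ hAv ?_) (by positivity)
          rw [← card_union_of_disjoint hslYdis]
          exact card_le_card subset_union_left
  set P' := P ∪ R1 with hP'
  have hR1n : R1.card ≤ n := by
    rw [← (hF T1 (hFYF T1 hT1).1).2.2.2.2.2]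
    exact card_le_card (hR1_T T1 hT1)
  have hR1pos : 0 < R1.card := card_pos.2 hR1ne
  set n' := n - R1.card with hn'
  have hn'lt : n' < n := by omega
  have hP'card : P'.card ≤ l := by
    obtain ⟨-, -, hs, hPT, -, -⟩ := hF T1 (hFYF T1 hT1).1
    have : P' ⊆ T1.2 := union_subset hPT ((hR1_T T1 hT1).trans sdiff_subset)
    have := card_le_card this
    unfold ksize at hs
    omega
  have hpoint : ∀ T ∈ FY, w T ≤ (1 / (2 * Pi)) * ((b ^ (ind T.1 P' \ Z).card)⁻¹ *
      ((Av ^ n')⁻¹ * (b ^ expo T.1 P')⁻¹)) := by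
    intro T hT
    obtain ⟨-, -, -, -, hZT, -⟩ := hF T (hFYF T hT).1
    have hdrop := expo_drop (hcd T) (hdis T) R1 Ys Yn (hR1_T T hT) (hYs_T T hT)
      (subset_union_left.trans subset_union_left) (hYn_T T hT) (fun e he =>
        ⟨mem_union_right _ (mem_union_left _ (mem_image_of_mem _ he)),
          mem_union_right _ (mem_union_right _ (mem_image_of_mem _ he))⟩)
    rw [hZT, ← hP'] at hdrop
    have e1 : b ^ (expo T.1 P' + (ind T.1 P' \ Z).card) * b ^ (18 * Ys.card + 27 * Yn.card)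
        ≤ b ^ expo T.1 P := by
      rw [← pow_add]
      exact pow_le_pow_right₀ hb1 (by omega)
    have e2 : Av ^ n = Av ^ n' * Av ^ R1.card := by
      rw [← pow_add]
      congr 1
      omega
    show (Av ^ n)⁻¹ * (b ^ expo T.1 P)⁻¹ ≤ _
    have e3 : 2 * Pi * (b ^ (ind T.1 P' \ Z).card * (Av ^ n' * b ^ expo T.1 P'))
        ≤ Av ^ n * b ^ expo T.1 P := by
      calc _ ≤ (Av ^ R1.card * b ^ (18 * Ys.card + 27 * Yn.card)) *
            (b ^ (ind T.1 P' \ Z).card * (Av ^ n' * b ^ expo T.1 P')) :=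
            mul_le_mul_of_nonneg_right h2Pi (by positivity)
        _ = Av ^ n * (b ^ (expo T.1 P' + (ind T.1 P' \ Z).card) *
            b ^ (18 * Ys.card + 27 * Yn.card)) := by
            rw [e2, pow_add b (expo T.1 P')]
            ring
        _ ≤ _ := mul_le_mul_of_nonneg_left e1 (by positivity)
    calc (Av ^ n)⁻¹ * (b ^ expo T.1 P)⁻¹ = (Av ^ n * b ^ expo T.1 P)⁻¹ := by rw [mul_inv]
      _ ≤ (2 * Pi * (b ^ (ind T.1 P' \ Z).card * (Av ^ n' * b ^ expo T.1 P')))⁻¹ :=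
          inv_anti₀ (by positivity) e3
      _ = _ := by
          rw [mul_inv, mul_inv (b ^ (ind T.1 P' \ Z).card), mul_inv (Av ^ n'), one_div]
  have hgroup : ∑ T ∈ FY, (b ^ (ind T.1 P' \ Z).card)⁻¹ * ((Av ^ n')⁻¹ * (b ^ expo T.1 P')⁻¹)
      ≤ 2 := by
    have hmaps : ∀ T ∈ FY, ind T.1 P' \ Z ∈ (ed (Λ := Λ) P').powerset := by
      intro T _
      rw [mem_powerset]
      intro e he
      have := (mem_ind.1 (mem_sdiff.1 he).1).2
      exact mem_filter.2 ⟨mem_univ _, this⟩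
    rw [← Finset.sum_fiberwise_of_maps_to hmaps]
    calc ∑ D ∈ (ed (Λ := Λ) P').powerset, ∑ T ∈ FY.filter (fun T => ind T.1 P' \ Z = D),
          (b ^ (ind T.1 P' \ Z).card)⁻¹ * ((Av ^ n')⁻¹ * (b ^ expo T.1 P')⁻¹)
        ≤ ∑ D ∈ (ed (Λ := Λ) P').powerset, (1 / b) ^ D.card := by
          refine Finset.sum_le_sum fun D _ => ?_
          have hih := ih n' hn'lt P' (Z ∪ D) (FY.filter (fun T => ind T.1 P' \ Z = D)) (by
            intro T hT
            obtain ⟨hT', hD⟩ := mem_filter.1 hT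
            obtain ⟨h4, h5, h6, h7, h8, h9⟩ := hF T (hFYF T hT').1
            have hR1' := hR1_T T hT'
            refine ⟨h4, h5, h6, union_subset h7 (hR1'.trans sdiff_subset), ?_, ?_⟩
            · rw [← hD, union_sdiff_of_subset]
              rw [← h8]
              intro e he
              rw [mem_ind] at he ⊢
              exact ⟨he.1, mem_union_left _ he.2.1, mem_union_left _ he.2.2⟩
            · have : T.2 \ P' = (T.2 \ P) \ R1 := by
                ext p
                simp only [hP', mem_sdiff, mem_union, not_or]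
                tauto
              rw [this, card_sdiff_of_subset hR1', h9])
          calc _ = ∑ T ∈ FY.filter (fun T => ind T.1 P' \ Z = D),
                (1 / b) ^ D.card * ((Av ^ n')⁻¹ * (b ^ expo T.1 P')⁻¹) := by
                refine Finset.sum_congr rfl fun T hT => ?_
                rw [(mem_filter.1 hT).2, one_div, inv_pow]
            _ = (1 / b) ^ D.card * ∑ T ∈ FY.filter (fun T => ind T.1 P' \ Z = D),
                ((Av ^ n')⁻¹ * (b ^ expo T.1 P')⁻¹) := by rw [Finset.mul_sum]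
            _ ≤ (1 / b) ^ D.card * 1 := mul_le_mul_of_nonneg_left hih (by positivity)
            _ = _ := mul_one _
      _ = (1 / b + 1) ^ (ed (Λ := Λ) P').card := by
          rw [← Finset.sum_pow_mul_eq_add_pow]
          refine Finset.sum_congr rfl fun D _ => ?_
          rw [one_pow, mul_one]
      _ ≤ Real.exp (1 / b) ^ (ed (Λ := Λ) P').card :=
          pow_le_pow_left₀ (by positivity) (Real.add_one_le_exp _) _
      _ = Real.exp ((ed (Λ := Λ) P').card * (1 / b)) := by rw [← Real.exp_nat_mul]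
      _ ≤ Real.exp (1 / 2) := by
          apply Real.exp_le_exp.2
          rw [mul_one_div, div_le_iff₀ hb0]
          have h5 : ((ed (Λ := Λ) P').card : ℝ) ≤ (l : ℝ) ^ 2 * Fintype.card Λ := by
            have h6 := card_ed (Λ := Λ) P'
            have h7 : P'.card ^ 2 * Fintype.card Λ ≤ l ^ 2 * Fintype.card Λ :=
              Nat.mul_le_mul_right _ (Nat.pow_le_pow_left hP'card 2)
            exact_mod_cast h6.trans h7
          linarith
      _ ≤ 2 := by
          have h8 : Real.exp (1 / 2) ≤ Real.exp (Real.log 2) := by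
            apply Real.exp_le_exp.2
            have := Real.log_two_gt_d9
            linarith
          rwa [Real.exp_log (by norm_num)] at h8
  have hfinal : ∑ T ∈ FY, w T ≤ 1 / Pi := by
    calc ∑ T ∈ FY, w T ≤ ∑ T ∈ FY, (1 / (2 * Pi)) * ((b ^ (ind T.1 P' \ Z).card)⁻¹ *
          ((Av ^ n')⁻¹ * (b ^ expo T.1 P')⁻¹)) := Finset.sum_le_sum hpoint
      _ = (1 / (2 * Pi)) * ∑ T ∈ FY, (b ^ (ind T.1 P' \ Z).card)⁻¹ *
          ((Av ^ n')⁻¹ * (b ^ expo T.1 P')⁻¹) := by rw [Finset.mul_sum]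
      _ ≤ (1 / (2 * Pi)) * 2 := mul_le_mul_of_nonneg_left hgroup (by positivity)
      _ = 1 / Pi := by field_simp
  have : (∑ T ∈ FY, w T) * Pi ≤ 1 := by
    rw [le_div_iff₀ hPi0] at hfinal
    exact hfinal
  linarith

end

end Pool.Agent.W906.MU
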